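import Pool.Agent.Helper79.HI.Stat
import Pool.Agent.Helper79.FZ.Stat

/-!
# GP: the Mumford-Tate conjecture for the generic fibre of a family: definitions
-/

namespace Pool.Agent.Helper79.GP

open Matrix Pool.Agent.Helper79.BB Pool.Agent.Helper79.HH Pool.Agent.Helper79.HG Pool.Agent.Helper79.FY
  Pool.Agent.Helper79.FZ Pool.Agent.Helper64.Per Pool.Agent.Helper88.MT

/-- The monodromy group of the local system `ℤ^r`. -/
def monoGroup {κ : Type} [Field κ] [Algebra κ ℂ] {m r ℓ : ℕ} [Fact ℓ.Prime] {U : Set (Fin m → ℂ)}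
    {w : (Fin m → ℂ) → ℂ} (S : MvPolynomial (Fin m) κ) (P : (Fin m → ℂ) → Matrix (Fin r) (Fin r) ℂ)
    (Y : ∀ k : ℕ, CoverData κ (Fin r → ZMod (ℓ ^ k)) U w) : Subgroup (GL (Fin r) ℤ) :=
  Subgroup.closure {γ | IsMono S P Y γ}

variable {r : ℕ}

/-- The group of complex points of the Mumford-Tate group of the generic fibre of a family with monodromy group `M`, one of whose
fibres has the Hodge structure on `ℤ^r` with period matrix `P`: the smallest subgroup of `GL r` over `ℂ` which is the set of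
common zeros of polynomials with rational coefficients, contains the elements by which the complex numbers of absolute value one act,
and contains a subgroup of finite index of `M`. -/
noncomputable def genMT (lev : Fin r → ℤ) (P : Matrix (Fin r) (Fin r) ℂ) (M : Subgroup (GL (Fin r) ℤ)) :
    Subgroup (GL (Fin r) ℂ) :=
  sInf {T : Subgroup (GL (Fin r) ℂ) |
    (∃ Q : Set (GLPoly r ℚ), ∀ a : GL (Fin r) ℂ, a ∈ T ↔ ∀ f ∈ Q, evGL a f = 0) ∧
      (∀ u a, IsHodgeElt lev P u a → a ∈ T) ∧
      ∃ M' ≤ M, M'.relIndex M ≠ 0 ∧ ∀ γ ∈ M', Matrix.GeneralLinearGroup.map (Int.castRingHom ℂ) γ ∈ T}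

/-- The polynomial `f` over `ℤ_ℓ` vanishes on the group generated by a subgroup of finite index of the group `M` of
integral matrices and the image under `ρ` of a subgroup of finite index of `G`. -/
def VanFin {ℓ : ℕ} [Fact ℓ.Prime] {G : Type} [Group G] (M : Subgroup (GL (Fin r) ℤ))
    (ρ : G →* GL (Fin r) ℤ_[ℓ]) (f : GLPoly r ℤ_[ℓ]) : Prop :=
  ∃ M' ≤ M, M'.relIndex M ≠ 0 ∧ ∃ G' : Subgroup G, G'.FiniteIndex ∧
    f ∈ vanGL ℤ_[ℓ] ((M'.map (Matrix.GeneralLinearGroup.map (Int.castRingHom ℤ_[ℓ])) ⊔ G'.map ρ :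
      Subgroup (GL (Fin r) ℤ_[ℓ])) : Set (GL (Fin r) ℤ_[ℓ]))

/-- The equality of the Mumford-Tate conjecture at the prime `ℓ` holds for the generic fibre of a family with monodromy group `M`,
in terms of one of its fibres, with the group `G` acting on `Qbar` (the Galois group of a number field), the `G`-sets
`{y k v : v ∈ (ℤ / ℓ^k)^r}`, and the Hodge structure on `ℤ^r` with period matrix `P`: let `ρ` be the action of `G` on the
`ℓ`-adic lattice. The `ℓ`-adic image of the fundamental group of the base is the closure of the group generated by `M` and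
`ρ(G)`, and the ideal of the identity component of its Zariski closure over `ℤ_ℓ` consists of the polynomials which vanish on
a subgroup of finite index. This ideal is generated by the ideal of the Zariski closure over `ℤ` of the Mumford-Tate
group of the generic fibre. -/
def Q1Gen {ℓ : ℕ} [Fact ℓ.Prime] {G : Type} [Group G] (act : G → Qbar → Qbar) {n : ℕ → ℕ}
    (y : ∀ k, (Fin r → ZMod (ℓ ^ k)) → Fin (n k) → ℂ) (lev : Fin r → ℤ)
    (P : Matrix (Fin r) (Fin r) ℂ) (M : Subgroup (GL (Fin r) ℤ)) : Prop :=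
  ∃ ρ : G →* GL (Fin r) ℤ_[ℓ], IsGalRep act y ρ ∧ ∀ f : GLPoly r ℤ_[ℓ],
    f ∈ (vanGL ℤ (genMT lev P M : Set (GL (Fin r) ℂ))).map (MvPolynomial.map (Int.castRingHom ℤ_[ℓ])) ↔
      VanFin M ρ f

end Pool.Agent.Helper79.GP
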