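import Pool.Agent.Helper79.GP.PointT
import Pool.Agent.Helper79.GP.StatG

/-!
# GP: the group at the base point, for the generic fibre

(helper79)
-/

set_option linter.unusedSectionVars false

namespace Pool.Agent.Helper79.GP

open Matrix Module Pool.Agent.Helper79.BB Pool.Agent.Helper79.HH Pool.Agent.Helper79.HG
  Pool.Agent.Helper79.HI Pool.Agent.Helper64.Per Pool.Agent.Helper88.MT Pool.Agent.Helper46.GG

variable {r ℓ : ℕ} [Fact ℓ.Prime]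

theorem evGL_toQl (g : GL (Fin r) ℤ_[ℓ]) (f : GLPoly r ℤ_[ℓ]) :
    evGL (toQl g) (MvPolynomial.map (algebraMap ℤ_[ℓ] ℚ_[ℓ]) f) = algebraMap ℤ_[ℓ] ℚ_[ℓ] (evGL g f) := by
  rw [evGL_mapPoly]
  exact evGL_map (Algebra.ofId ℤ_[ℓ] ℚ_[ℓ]) g f

theorem map_map_int (f : GLPoly r ℤ) : MvPolynomial.map (algebraMap ℤ_[ℓ] ℚ_[ℓ])
      (MvPolynomial.map (Int.castRingHom ℤ_[ℓ]) f) =
      MvPolynomial.map (algebraMap ℚ ℚ_[ℓ]) (MvPolynomial.map (Int.castRingHom ℚ) f) := by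
  have h0 : (algebraMap ℤ_[ℓ] ℚ_[ℓ]).comp (Int.castRingHom ℤ_[ℓ]) =
      (algebraMap ℚ ℚ_[ℓ]).comp (Int.castRingHom ℚ) := RingHom.ext_int _ _
  rw [MvPolynomial.map_map, MvPolynomial.map_map, h0]

theorem map_mem_vanGL_iff {T : Set (GL (Fin r) ℂ)} {f : GLPoly r ℤ} :
    MvPolynomial.map (Int.castRingHom ℚ) f ∈ vanGL ℚ T ↔ f ∈ vanGL ℤ T := by
  have h1 : ∀ g : GL (Fin r) ℂ, evGL g (MvPolynomial.map (Int.castRingHom ℚ) f) = evGL g f :=
    fun g ↦ MvPolynomial.aeval_map_algebraMap (R := ℤ) ℚ (B := ℂ) _ f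
  constructor
  · intro h g hg
    rw [← h1 g]
    exact h g hg
  · intro h g hg
    rw [h1 g]
    exact h g hg

/-- Ideals over `ℤ_ℓ` and `ℚ_ℓ`. -/
theorem map_mem_map {T : Set (GL (Fin r) ℂ)} {f : GLPoly r ℤ_[ℓ]}
    (hf : f ∈ (vanGL ℤ T).map (MvPolynomial.map (Int.castRingHom ℤ_[ℓ]))) :
    MvPolynomial.map (algebraMap ℤ_[ℓ] ℚ_[ℓ]) f ∈
      (vanGL ℚ T).map (MvPolynomial.map (algebraMap ℚ ℚ_[ℓ])) := by
  have h3 : ((vanGL ℤ T).map (MvPolynomial.map (Int.castRingHom ℤ_[ℓ]))).map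
      (MvPolynomial.map (algebraMap ℤ_[ℓ] ℚ_[ℓ])) ≤
      (vanGL ℚ T).map (MvPolynomial.map (algebraMap ℚ ℚ_[ℓ])) := by
    rw [Ideal.map_le_iff_le_comap, Ideal.map_le_iff_le_comap]
    intro P hP
    rw [Ideal.mem_comap, Ideal.mem_comap, map_map_int]
    exact Ideal.mem_map_of_mem _ (map_mem_vanGL_iff.2 hP)
  exact h3 (Ideal.mem_map_of_mem _ hf)

theorem mem_of_C_mul {I : Ideal (GLPoly r ℚ_[ℓ])} {c : ℚ_[ℓ]} {f : GLPoly r ℚ_[ℓ]} (hc : c ≠ 0)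
    (h : MvPolynomial.C c * f ∈ I) : f ∈ I := by
  have h1 := I.mul_mem_left (MvPolynomial.C c⁻¹) h
  rwa [← mul_assoc, ← MvPolynomial.C_mul, inv_mul_cancel₀ hc, MvPolynomial.C_1, one_mul] at h1

/-- The group at the base point. -/
theorem base_of_gen {G : Type} [Group G] {lev : Fin r → ℤ} {P₀ : Matrix (Fin r) (Fin r) ℂ}
    {M Γ : Subgroup (GL (Fin r) ℤ)} (hΓ : Γ ≤ M) (hfin : Γ.relIndex M ≠ 0)
    {ρ : G →* GL (Fin r) ℤ_[ℓ]} (h : ∀ f : GLPoly r ℤ_[ℓ],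
      f ∈ (vanGL ℤ (genMT lev P₀ M : Set (GL (Fin r) ℂ))).map
        (MvPolynomial.map (Int.castRingHom ℤ_[ℓ])) ↔ VanFin M ρ f) :
    ∃ G₀ : Subgroup G, G₀.FiniteIndex ∧ BaseT Γ lev P₀ ρ G₀ (genMT lev P₀ M) := by
  classical
  set T₀ := genMT lev P₀ M with hT₀
  -- one polynomial
  have hone : ∀ f ∈ vanGL ℚ (T₀ : Set (GL (Fin r) ℂ)), ∃ G' : Subgroup G, G'.FiniteIndex ∧
      ∀ σ ∈ G', evGL (toQl (ρ σ)) f = 0 := by
    intro f hf
    obtain ⟨c, hc, f₀, hf₀⟩ := exists_integral_poly (R := ℤ) f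
    have h1 : f₀ ∈ vanGL ℤ (T₀ : Set (GL (Fin r) ℂ)) := by
      rw [← map_mem_vanGL_iff]
      change MvPolynomial.map (algebraMap ℤ ℚ) f₀ ∈ _
      rw [hf₀]
      exact Ideal.mul_mem_left _ _ hf
    obtain ⟨M', hM', hM'f, G', hG', h2⟩ :=
      (h _).1 (Ideal.mem_map_of_mem (MvPolynomial.map (Int.castRingHom ℤ_[ℓ])) h1)
    refine ⟨G', hG', fun σ hσ => ?_⟩
    have h3 : evGL (ρ σ) (MvPolynomial.map (Int.castRingHom ℤ_[ℓ]) f₀) = 0 :=
      h2 _ (Subgroup.mem_sup_right ⟨σ, hσ, rfl⟩)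
    have h4 := evGL_toQl (ρ σ) (MvPolynomial.map (Int.castRingHom ℤ_[ℓ]) f₀)
    rw [h3, map_zero, map_map_int] at h4
    have h5 : MvPolynomial.map (Int.castRingHom ℚ) f₀ = MvPolynomial.C ((c : ℤ) : ℚ) * f := by
      change MvPolynomial.map (algebraMap ℤ ℚ) f₀ = _
      rw [hf₀]
      rfl
    rw [evGL_mapPoly, h5, map_mul] at h4
    have h6 : evGL (toQl (ρ σ)) (MvPolynomial.C ((c : ℤ) : ℚ) : GLPoly r ℚ) = ((c : ℤ) : ℚ_[ℓ]) := by
      unfold evGL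
      rw [MvPolynomial.aeval_C]
      simp
    rw [h6] at h4
    exact (mul_eq_zero.1 h4).resolve_left (by exact_mod_cast hc)
  -- finitely many polynomials
  have hfinset : ∀ s : Finset (GLPoly r ℚ), (∀ f ∈ s, f ∈ vanGL ℚ (T₀ : Set (GL (Fin r) ℂ))) →
      ∃ G' : Subgroup G, G'.FiniteIndex ∧ ∀ σ ∈ G', ∀ f ∈ s, evGL (toQl (ρ σ)) f = 0 := by
    intro s
    induction s using Finset.induction_on with
    | empty => exact fun _ => ⟨⊤, inferInstance, fun σ _ f hf => absurd hf (Finset.notMem_empty f)⟩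
    | insert a s ha ih =>
      intro hs
      obtain ⟨G₁, hG₁, h1⟩ := ih fun f hf => hs f (Finset.mem_insert_of_mem hf)
      obtain ⟨G₂, hG₂, h2⟩ := hone a (hs a (Finset.mem_insert_self _ _))
      refine ⟨G₁ ⊓ G₂, inferInstance, fun σ hσ f hf => ?_⟩
      rcases Finset.mem_insert.1 hf with rfl | hf
      · exact h2 σ hσ.2
      · exact h1 σ hσ.1 f hf
  obtain ⟨s, hs⟩ := (inferInstance : IsNoetherianRing (GLPoly r ℚ)).noetherian
    (vanGL ℚ (T₀ : Set (GL (Fin r) ℂ)))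
  obtain ⟨G₀, hG₀, h1⟩ := hfinset s fun f hf => by
    rw [← hs]
    exact Submodule.subset_span hf
  refine ⟨G₀, hG₀, ?_, ?_, ?_, ?_⟩
  · intro σ hσ f hf
    have h2 : vanGL ℚ (T₀ : Set (GL (Fin r) ℂ)) ≤ RingHom.ker (evGL (R := ℚ) (toQl (ρ σ))).toRingHom := by
      rw [← hs]
      refine Ideal.span_le.2 fun f hf => ?_
      exact h1 σ hσ f hf
    exact h2 hf
  · intro R hΓR G₁ hG₁ hG f hf φ
    obtain ⟨c, hc, f₀, hf₀⟩ := exists_integral_poly (R := ℤ_[ℓ]) f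
    have h2 : VanFin M ρ f₀ := by
      refine ⟨Γ, hΓ, hfin, G₀ ⊓ G₁, inferInstance, ?_⟩
      have h3 : (Γ.map (Matrix.GeneralLinearGroup.map (Int.castRingHom ℤ_[ℓ])) ⊔ (G₀ ⊓ G₁).map ρ :
          Subgroup (GL (Fin r) ℤ_[ℓ])) ≤ (zarG ℚ_[ℓ] R).comap
            (Matrix.GeneralLinearGroup.map (algebraMap ℤ_[ℓ] ℚ_[ℓ])) := by
        refine sup_le ?_ ?_
        · rintro _ ⟨γ, hγ, rfl⟩
          have h4 := hΓR _ ⟨γ, hγ, rfl⟩
          rw [Subgroup.mem_comap]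
          have h5 : Matrix.GeneralLinearGroup.map (algebraMap ℤ_[ℓ] ℚ_[ℓ])
              (Matrix.GeneralLinearGroup.map (Int.castRingHom ℤ_[ℓ]) γ) =
              Matrix.GeneralLinearGroup.map (algebraMap ℚ ℚ_[ℓ])
                (Matrix.GeneralLinearGroup.map (Int.castRingHom ℚ) γ) := by
            ext i j
            simp
          rw [h5]
          exact h4
        · rintro _ ⟨σ, hσ, rfl⟩
          exact hG σ hσ.1 hσ.2
      intro g hg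
      have h4 : toQl g ∈ zarG ℚ_[ℓ] R := h3 hg
      have h5 := h4 f hf
      have h6 := evGL_toQl g f₀
      rw [hf₀, map_mul, h5, mul_zero] at h6
      exact (IsFractionRing.to_map_eq_zero_iff (K := ℚ_[ℓ])).1 h6.symm
    have h3 := map_mem_map ((h f₀).2 h2)
    rw [hf₀] at h3
    refine mem_map_iff_pc.1 (mem_of_C_mul ?_ h3) φ
    rw [Ne, IsFractionRing.to_map_eq_zero_iff]
    exact hc
  · intro u a ha
    rw [hT₀, genMT, Subgroup.mem_sInf]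
    rintro T ⟨_, hT, _⟩
    exact hT u a ha
  · intro T hT hΓT hH
    rw [hT₀, genMT]
    refine sInf_le ⟨⟨_, hT⟩, hH, Γ, hΓ, hfin, fun γ hγ => ?_⟩
    have h2 := hΓT _ ⟨γ, hγ, rfl⟩
    have h5 : Matrix.GeneralLinearGroup.map (Int.castRingHom ℂ) γ =
        Matrix.GeneralLinearGroup.map (algebraMap ℚ ℂ)
          (Matrix.GeneralLinearGroup.map (Int.castRingHom ℚ) γ) := by
      ext i j
      simp
    rw [h5]
    exact h2

end Pool.Agent.Helper79.GP
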