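import Pool.Agent.Helper79.GP.Proj
import Pool.Agent.Helper79.FX.HodgePt

/-!
# GP-03: the fixed vectors over an extension, and the nondegeneracy of the form

* `fixed_ext`: let `b` be a basis of `K` over `ℚ`. The coordinates `v_j ∈ ℚ^r` of `v` (finitely many are not zero) are fixed by `Γ`; an integral multiple
  `n_j v_j` is an integral vector (`HG.exists_integral`-type lemma, or clear denominators), so `n_j v_j = B c_j`; `v = ∑ b_j v_j = B (∑ b_j c_j / n_j)`.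
  (See the proofs with `cd` in `Pool/Agent/Helper79/FZ/Norm.lean` for coordinates.)
* `inj_rat`: if `B c = 0` for a rational `c`, multiply by a common denominator: an integral `c'` with `B c' = 0`; uniqueness in `∃!` for `v = 0` gives `c' = 0`.
* `nondeg`: if `det (Bᵀ ψ B) = 0` there is `c ≠ 0` (rational) with `Bᵀ ψ B c = 0` (`Matrix.exists_mulVec_eq_zero_iff`); `n = B c ≠ 0`. `Hm lev j ψ P = (qc ψ)ᵀ * Em lev j ψ I P` is positive
  definite (`Hm_pos`), so `nᵀ (qc ψ)ᵀ Em(I) n ≠ 0` (`n` is rational, so `star n = n`). But `Em(I) n = Em(I) B c = B X c`, so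
  `nᵀ ψᵀ B X c = (Bᵀ ψ B c)ᵀ X c = 0`.
* `comm_prj_of_comm`: the columns of `z B` are fixed by `Γ`, so `z B = B X` (`fixed_ext` with `K = ℚ`; `bc ℚ M = M`). The adjoint `z' = ψ⁻¹ zᵀ ψ` commutes with `Γ` as well (transpose `γ⁻¹ z = z γ⁻¹` and use
  `γᵀ ψ γ = ψ`), so `z' B = B X'`, that is `zᵀ ψ B = ψ B X'` and `Bᵀ ψ z = X'ᵀ Bᵀ ψ`. With `A = Bᵀ ψ B`, `C = cof ψ B = A⁻¹ Bᵀ ψ`: `C z = A⁻¹ X'ᵀ A C`, so `X = C z B = A⁻¹ X'ᵀ A` and `C z = X C`,
  `e z = B C z = B X C = z B C = z e`.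
-/

set_option linter.unusedSectionVars false

namespace Pool.Agent.Helper79.GP

open Matrix Pool.Agent.Helper79.HH Pool.Agent.Helper79.FX
open scoped ComplexOrder

variable {r d : ℕ}

/-- The columns of `B` are a basis of the fixed integral vectors. -/
def IsFixBasis (Γ : Subgroup (GL (Fin r) ℤ)) (B : Matrix (Fin r) (Fin d) ℤ) : Prop :=
  ∀ v : Fin r → ℤ, (∀ γ ∈ Γ, (γ : Matrix (Fin r) (Fin r) ℤ) *ᵥ v = v) ↔ ∃! c : Fin d → ℤ, B *ᵥ c = v

/-- The rational matrix. -/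
def qm {m n : Type} (M : Matrix m n ℤ) : Matrix m n ℚ := M.map (Int.cast : ℤ → ℚ)

/-- Uniqueness of the integral coordinates. -/
private theorem inj_int {Γ : Subgroup (GL (Fin r) ℤ)} {B : Matrix (Fin r) (Fin d) ℤ}
    (hB : IsFixBasis Γ B) {c c' : Fin d → ℤ} (h : B *ᵥ c = B *ᵥ c') : c = c' := by
  obtain ⟨e, he, hu⟩ := (hB 0).1 fun γ _ => Matrix.mulVec_zero _
  have h1 : B *ᵥ (c - c') = 0 := by rw [Matrix.mulVec_sub, h, sub_self]
  have h2 : c - c' = 0 := (hu _ h1).trans (hu _ (Matrix.mulVec_zero _)).symm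
  exact sub_eq_zero.1 h2

theorem fix_B {Γ : Subgroup (GL (Fin r) ℤ)} {B : Matrix (Fin r) (Fin d) ℤ} (hB : IsFixBasis Γ B) :
    ∀ γ ∈ Γ, (γ : Matrix (Fin r) (Fin r) ℤ) * B = B := by
  intro γ hγ
  ext i k
  have h1 := (hB (B *ᵥ Pi.single k 1)).2 ⟨Pi.single k 1, rfl, fun c hc => inj_int hB hc⟩ γ hγ
  rw [Matrix.mulVec_mulVec, Matrix.mulVec_single_one, Matrix.mulVec_single_one] at h1
  exact congrFun h1 i

private theorem qm_mulVec {m n : Type} [Fintype n] (M : Matrix m n ℤ) (c : n → ℤ) :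
    qm M *ᵥ (fun i => ((c i : ℤ) : ℚ)) = fun i => (((M *ᵥ c) i : ℤ) : ℚ) := by
  funext i
  simp only [qm, Matrix.mulVec, dotProduct, Matrix.map_apply, Int.cast_sum, Int.cast_mul]

private theorem qm_mul {l m n : Type} [Fintype m] (M : Matrix l m ℤ) (N : Matrix m n ℤ) :
    qm (M * N) = qm M * qm N := by
  ext i k
  simp only [qm, Matrix.mul_apply, Matrix.map_apply, Int.cast_sum, Int.cast_mul]

private theorem fixed_rat {Γ : Subgroup (GL (Fin r) ℤ)} {B : Matrix (Fin r) (Fin d) ℤ}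
    (hB : IsFixBasis Γ B) {v : Fin r → ℚ}
    (hv : ∀ γ ∈ Γ, qm (γ : Matrix (Fin r) (Fin r) ℤ) *ᵥ v = v) :
    ∃ c : Fin d → ℚ, v = qm B *ᵥ c := by
  obtain ⟨m, hm, w, hw⟩ := Pool.Agent.Helper88.MT.exists_integral v
  have hw' : (fun i => ((w i : ℤ) : ℚ)) = (m : ℚ) • v := by
    funext i
    rw [Pi.smul_apply, smul_eq_mul]
    exact hw i
  have h1 : ∀ γ ∈ Γ, (γ : Matrix (Fin r) (Fin r) ℤ) *ᵥ w = w := by
    intro γ hγ
    have h2 := qm_mulVec (γ : Matrix (Fin r) (Fin r) ℤ) w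
    rw [hw', Matrix.mulVec_smul, hv γ hγ, ← hw'] at h2
    funext i
    have h3 := congrFun h2 i
    exact_mod_cast h3.symm
  obtain ⟨c, hc, -⟩ := (hB w).1 h1
  have hm' : (m : ℚ) ≠ 0 := by exact_mod_cast hm
  refine ⟨(m : ℚ)⁻¹ • fun i => ((c i : ℤ) : ℚ), ?_⟩
  rw [Matrix.mulVec_smul, qm_mulVec, hc, hw', smul_smul, inv_mul_cancel₀ hm', one_smul]

theorem fixed_ext {Γ : Subgroup (GL (Fin r) ℤ)} {B : Matrix (Fin r) (Fin d) ℤ} (hB : IsFixBasis Γ B)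
    {K : Type} [Field K] [Algebra ℚ K] {v : Fin r → K}
    (hv : ∀ γ ∈ Γ, (γ : Matrix (Fin r) (Fin r) ℤ).map (Int.cast : ℤ → K) *ᵥ v = v) :
    ∃ c : Fin d → K, v = bc K (qm B) *ᵥ c := by
  classical
  let b := Module.Basis.ofVectorSpace ℚ K
  have h1 : ∀ j, ∃ c : Fin d → ℚ, (fun i => b.repr (v i) j) = qm B *ᵥ c := by
    intro j
    refine fixed_rat hB fun γ hγ => ?_
    funext i
    have h2 := congrArg (fun x => b.repr x j) (congrFun (hv γ hγ) i)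
    simp only [Matrix.mulVec, dotProduct, Matrix.map_apply, map_sum, Finsupp.finsetSum_apply] at h2
    simp only [qm, Matrix.mulVec, dotProduct, Matrix.map_apply]
    rw [← h2]
    refine Finset.sum_congr rfl fun k _ => ?_
    have h3 : (((γ : Matrix (Fin r) (Fin r) ℤ) i k : ℤ) : K) * v k =
        (((γ : Matrix (Fin r) (Fin r) ℤ) i k : ℤ) : ℚ) • v k := by
      rw [Algebra.smul_def, map_intCast]
    rw [h3, map_smul, Finsupp.smul_apply, smul_eq_mul]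
  choose c hc using h1
  let S : Finset _ := Finset.univ.biUnion fun i => (b.repr (v i)).support
  refine ⟨fun k => ∑ j ∈ S, (c j k) • b j, ?_⟩
  funext i
  have h4 : v i = ∑ j ∈ S, (b.repr (v i) j) • b j := by
    conv_lhs => rw [← b.linearCombination_repr (v i)]
    rw [Finsupp.linearCombination_apply, Finsupp.sum]
    refine Finset.sum_subset ?_ ?_
    · intro j hj
      exact Finset.mem_biUnion.2 ⟨i, Finset.mem_univ i, hj⟩
    · intro j _ hj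
      rw [Finsupp.notMem_support_iff.1 hj, zero_smul]
  rw [h4]
  simp only [Matrix.mulVec, dotProduct, bc, Matrix.map_apply, Finset.mul_sum]
  rw [Finset.sum_comm]
  refine Finset.sum_congr rfl fun j _ => ?_
  have h5 := congrFun (hc j) i
  simp only [Matrix.mulVec, dotProduct] at h5
  rw [h5, Finset.sum_smul]
  refine Finset.sum_congr rfl fun k _ => ?_
  rw [← Algebra.smul_def, smul_smul]

theorem inj_rat {Γ : Subgroup (GL (Fin r) ℤ)} {B : Matrix (Fin r) (Fin d) ℤ} (hB : IsFixBasis Γ B)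
    {c : Fin d → ℚ} (hc : qm B *ᵥ c = 0) : c = 0 := by
  obtain ⟨m, hm, w, hw⟩ := Pool.Agent.Helper88.MT.exists_integral c
  have hw' : (fun i => ((w i : ℤ) : ℚ)) = (m : ℚ) • c := by
    funext i
    rw [Pi.smul_apply, smul_eq_mul]
    exact hw i
  have h2 := qm_mulVec B w
  rw [hw', Matrix.mulVec_smul, hc, smul_zero] at h2
  have h3 : B *ᵥ w = B *ᵥ 0 := by
    rw [Matrix.mulVec_zero]
    funext i
    have h4 := congrFun h2 i
    simp only [Pi.zero_apply] at h4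
    exact_mod_cast h4.symm
  have h5 : w = 0 := inj_int hB h3
  have hm' : (m : ℚ) ≠ 0 := by exact_mod_cast hm
  funext i
  have h6 := hw i
  rw [h5, Pi.zero_apply, Int.cast_zero] at h6
  exact (mul_eq_zero.1 h6.symm).resolve_left hm'

theorem nondeg {lev : Fin r → ℤ} {j : ℤ} {ψ : Matrix (Fin r) (Fin r) ℚ} {P : Matrix (Fin r) (Fin r) ℂ}
    (hpol : IsPolarized lev j ψ P) (hP : IsUnit P.det) {B : Matrix (Fin r) (Fin d) ℚ}
    (hinj : ∀ c : Fin d → ℚ, B *ᵥ c = 0 → c = 0) {X : Matrix (Fin d) (Fin d) ℂ}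
    (hX : Em lev j ψ Complex.I P * bc ℂ B = bc ℂ B * X) : IsUnit (Bᵀ * ψ * B).det := by
  rw [isUnit_iff_ne_zero]
  intro h0
  obtain ⟨c, hc0, hc⟩ := Matrix.exists_mulVec_eq_zero_iff.2 h0
  have hmv : ∀ {m n : Type} [Fintype n] (M : Matrix m n ℚ) (c : n → ℚ),
      bc ℂ M *ᵥ (fun i => ((c i : ℚ) : ℂ)) = fun i => (((M *ᵥ c) i : ℚ) : ℂ) := by
    intro m n _ M c
    funext i
    simp only [bc, Matrix.mulVec, dotProduct, Matrix.map_apply, eq_ratCast, Rat.cast_sum,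
      Rat.cast_mul]
  set cc : Fin d → ℂ := fun i => ((c i : ℚ) : ℂ) with hcc
  set n : Fin r → ℂ := bc ℂ B *ᵥ cc with hn
  have hn1 : n = fun i => (((B *ᵥ c) i : ℚ) : ℂ) := hmv B c
  have hn0 : n ≠ 0 := by
    intro h
    refine hc0 (hinj c ?_)
    funext i
    have h2 := congrFun h i
    rw [hn1] at h2
    simp only [Pi.zero_apply] at h2 ⊢
    exact_mod_cast h2
  have hstar : star n = n := by
    rw [hn1]
    funext i
    simp only [Pi.star_apply]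
    exact star_ratCast _
  have hpos := (Hm_pos hpol hP).dotProduct_mulVec_pos hn0
  have hqc : qc ψ = bc ℂ ψ := by
    ext a b
    simp only [qc, bc, Matrix.map_apply, eq_ratCast]
  have hz : star n ⬝ᵥ (Hm lev j ψ P *ᵥ n) = 0 := by
    rw [hstar]
    unfold Hm
    rw [hqc]
    have e1 : ((bc ℂ ψ)ᵀ * Em lev j ψ Complex.I P) *ᵥ n = ((bc ℂ ψ)ᵀ * bc ℂ B) *ᵥ (X *ᵥ cc) := by
      rw [hn, Matrix.mulVec_mulVec, Matrix.mul_assoc, hX, ← Matrix.mul_assoc,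
        ← Matrix.mulVec_mulVec]
    rw [e1, hn, Matrix.dotProduct_mulVec]
    have e2 : (bc ℂ B *ᵥ cc) ᵥ* ((bc ℂ ψ)ᵀ * bc ℂ B) = 0 := by
      have e3 : (bc ℂ B *ᵥ cc) ᵥ* ((bc ℂ ψ)ᵀ * bc ℂ B) = bc ℂ (Bᵀ * ψ * B) *ᵥ cc := by
        rw [← Matrix.mulVec_transpose, Matrix.transpose_mul, Matrix.transpose_transpose,
          Matrix.mulVec_mulVec, bc_mul, bc_mul]
        rfl
      rw [e3, hcc, hmv, hc]
      funext i
      simp
    rw [e2, zero_dotProduct]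
  rw [hz] at hpos
  exact lt_irrefl _ hpos

/-- Rational matrices with fixed columns. -/
private theorem fixed_mat {Γ : Subgroup (GL (Fin r) ℤ)} {B : Matrix (Fin r) (Fin d) ℤ}
    (hB : IsFixBasis Γ B) {M : Matrix (Fin r) (Fin d) ℚ}
    (hM : ∀ γ ∈ Γ, qm (γ : Matrix (Fin r) (Fin r) ℤ) * M = M) :
    ∃ X : Matrix (Fin d) (Fin d) ℚ, M = qm B * X := by
  have h1 : ∀ k, ∃ c : Fin d → ℚ, (fun i => M i k) = qm B *ᵥ c := by
    intro k
    refine fixed_rat hB fun γ hγ => ?_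
    funext i
    have h2 := congrFun (congrFun (hM γ hγ) i) k
    rw [Matrix.mul_apply] at h2
    exact h2
  choose c hc using h1
  refine ⟨Matrix.of fun l k => c k l, ?_⟩
  ext i k
  have h2 := congrFun (hc k) i
  rw [Matrix.mul_apply]
  exact h2

/-- Operators which commute with the group commute with the projection. -/
theorem comm_prj_of_comm {ψ : Matrix (Fin r) (Fin r) ℚ} (hψ : ψ.det ≠ 0) (hsym : ψᵀ = ψ)
    {Γ : Subgroup (GL (Fin r) ℤ)} {B : Matrix (Fin r) (Fin d) ℤ} (hB : IsFixBasis Γ B)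
    (hA : IsUnit ((qm B)ᵀ * ψ * qm B).det)
    (hiso : ∀ γ ∈ Γ, (qm (γ : Matrix (Fin r) (Fin r) ℤ))ᵀ * ψ * qm (γ : Matrix (Fin r) (Fin r) ℤ) = ψ)
    {z : Matrix (Fin r) (Fin r) ℚ}
    (hz : ∀ γ ∈ Γ, qm (γ : Matrix (Fin r) (Fin r) ℤ) * z = z * qm (γ : Matrix (Fin r) (Fin r) ℤ)) :
    z * prj ψ (qm B) = prj ψ (qm B) * z := by
  have hψu : IsUnit ψ.det := isUnit_iff_ne_zero.2 hψ
  have hfix : ∀ γ ∈ Γ, qm (γ : Matrix (Fin r) (Fin r) ℤ) * qm B = qm B := by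
    intro γ hγ
    rw [← qm_mul, fix_B hB γ hγ]
  have hinv : ∀ γ ∈ Γ, ((γ⁻¹ : GL (Fin r) ℤ) : Matrix (Fin r) (Fin r) ℤ) *
      (γ : Matrix (Fin r) (Fin r) ℤ) = 1 := by
    intro γ _
    rw [← Units.val_mul, inv_mul_cancel]
    rfl
  obtain ⟨X, hX⟩ := fixed_mat hB (M := z * qm B) (by
    intro γ hγ
    rw [← Matrix.mul_assoc, hz γ hγ, Matrix.mul_assoc, hfix γ hγ])
  -- the adjoint
  have hadj : ∀ γ ∈ Γ, qm (γ : Matrix (Fin r) (Fin r) ℤ) * (ψ⁻¹ * zᵀ * ψ * qm B) =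
      ψ⁻¹ * zᵀ * ψ * qm B := by
    intro γ hγ
    set g := qm (γ : Matrix (Fin r) (Fin r) ℤ) with hg
    set h := qm ((γ⁻¹ : GL (Fin r) ℤ) : Matrix (Fin r) (Fin r) ℤ) with hh
    have hhg : h * g = 1 := by
      rw [hh, hg, ← qm_mul, hinv γ hγ]
      ext a b
      simp only [qm, Matrix.map_apply, Matrix.one_apply]
      split_ifs <;> simp
    have hgh : g * h = 1 := mul_eq_one_comm.1 hhg
    -- `ψ g = hᵀ ψ`
    have e1 : ψ * g = hᵀ * ψ := by
      have e2 := congrArg (fun M => hᵀ * M) (hiso γ hγ)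
      simp only [← hg] at e2
      rw [← e2, ← Matrix.mul_assoc, ← Matrix.mul_assoc, ← Matrix.transpose_mul, hgh,
        Matrix.transpose_one, Matrix.one_mul]
    have e3 : hᵀ * zᵀ = zᵀ * hᵀ := by
      rw [← Matrix.transpose_mul, ← Matrix.transpose_mul, hz γ⁻¹ (Γ.inv_mem hγ)]
    have e4 : ψ * (g * (ψ⁻¹ * zᵀ * ψ * qm B)) = ψ * (ψ⁻¹ * zᵀ * ψ * qm B) := by
      have e5 : ψ * (ψ⁻¹ * zᵀ * ψ * qm B) = zᵀ * (ψ * qm B) := by
        rw [← Matrix.mul_assoc, ← Matrix.mul_assoc, ← Matrix.mul_assoc,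
          Matrix.mul_nonsing_inv _ hψu, Matrix.one_mul, Matrix.mul_assoc]
      rw [← Matrix.mul_assoc, e1, Matrix.mul_assoc, e5, ← Matrix.mul_assoc, e3, Matrix.mul_assoc,
        ← Matrix.mul_assoc hᵀ, ← e1, Matrix.mul_assoc ψ, hfix γ hγ]
    have e6 := congrArg (fun M => ψ⁻¹ * M) e4
    simp only [← Matrix.mul_assoc ψ⁻¹ ψ, Matrix.nonsing_inv_mul _ hψu, Matrix.one_mul] at e6
    exact e6
  obtain ⟨X', hX'⟩ := fixed_mat hB hadj
  -- `zᵀ ψ B = ψ B X'`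
  have f1 : zᵀ * ψ * qm B = ψ * qm B * X' := by
    rw [Matrix.mul_assoc ψ, ← hX', ← Matrix.mul_assoc, ← Matrix.mul_assoc, ← Matrix.mul_assoc,
      Matrix.mul_nonsing_inv _ hψu, Matrix.one_mul]
  have f2 : (qm B)ᵀ * ψ * z = X'ᵀ * ((qm B)ᵀ * ψ) := by
    have f3 := congrArg Matrix.transpose f1
    rw [Matrix.transpose_mul, Matrix.transpose_mul, Matrix.transpose_mul, Matrix.transpose_mul,
      Matrix.transpose_transpose, hsym, ← Matrix.mul_assoc] at f3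
    exact f3
  set C := cof ψ (qm B) with hC
  set W := ((qm B)ᵀ * ψ * qm B)⁻¹ with hW
  have f4 : C = W * ((qm B)ᵀ * ψ) := by
    rw [hC, hW]
    unfold cof
    rw [Matrix.mul_assoc]
  have f5 : C * z = W * X'ᵀ * ((qm B)ᵀ * ψ * qm B) * C := by
    rw [f4, Matrix.mul_assoc, f2]
    have f6 : (qm B)ᵀ * ψ * qm B * (W * ((qm B)ᵀ * ψ)) = (qm B)ᵀ * ψ := by
      rw [← Matrix.mul_assoc, hW, Matrix.mul_nonsing_inv _ hA, Matrix.one_mul]
    rw [Matrix.mul_assoc (W * X'ᵀ), f6, Matrix.mul_assoc]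
  have hCB : C * qm B = 1 := cof_mul hA
  have f7 : X = W * X'ᵀ * ((qm B)ᵀ * ψ * qm B) := by
    have f8 : C * (z * qm B) = X := by
      rw [hX, ← Matrix.mul_assoc, hCB, Matrix.one_mul]
    rw [← f8, ← Matrix.mul_assoc, f5, Matrix.mul_assoc, hCB, Matrix.mul_one]
  unfold prj
  rw [← hC, ← Matrix.mul_assoc, hX, Matrix.mul_assoc (qm B) C, f5, ← f7, Matrix.mul_assoc]

end Pool.Agent.Helper79.GP
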