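import Pool.Agent.Helper79.GP.LieE
import Pool.Agent.Helper79.GP.KerN
import Pool.Agent.Helper79.FZ.Gal

/-!
# GP-05: the Galois image on the variable part is, up to finite index, contained in the closure of the monodromy group

As `ga_core` in `Pool/Agent/Helper79/FZ/Gal.lean` (copy the private lemmas `ga_iso`, ...). Let `K = ℚ_ℓ`, `e = bc K (prj ψ B)` (`ψ`, `B` rational), `f = (GL map).comp ρ : G →* GL r K`, `f σ = toQl (ρ σ)`.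
1. `f σ * bc K B = bc K B * x` with `x = co (ρ' σ)` (map `hρ2` to `ℚ_ℓ`), so `f σ * e = e * f σ` (`prj_comm`). `exists_tau` gives `f' : G →* GL r K`,
   `f' σ = e + f σ (1 - e)`: isometry (`tau_isom`, `bc_prj_adj`), `f' σ * bc K B = bc K B` (`e B = B`), `f' σ` commutes with `z ∈ 𝓔`, `σ ∈ G'`: `z e = e z` over `ℚ` is `hEe`.
2. normalisation: for `a ∈ zar K (qp Γ)`: `a e = e = e a` (`hzar`), so `f' σ * a = f σ * a * (f σ)⁻¹ * f' σ` as matrices, that is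
   `f' σ * a * (f' σ)⁻¹ = f σ * a * (f σ)⁻¹ ∈ zar`; for the Lie algebra: `lieS_zarG`, `lieS_conj_normal` as in `conj_mem_mspan` (`Pool/Agent/Helper79/HI/PointA.lean`), for `g = f' σ`.
3. `det (f' σ) = ± 1` (isometry), so `det = 1` on a subgroup of finite index (kernel of `det ∘ f'`, as `ga_kerdet`).
4. `G₂ = G₁ ⊓ G' ⊓ ker`: `lieS_leE` for `G₂.map f'`, `relIndex_zar`, and the end of `ga_core`.
-/

set_option linter.unusedSectionVars false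

namespace Pool.Agent.Helper79.GP

open Matrix Module Pool.Agent.Helper79.BB Pool.Agent.Helper88.MT Pool.Agent.Helper46.GG Pool.Agent.Helper79.HG
  Pool.Agent.Helper79.HH Pool.Agent.Helper79.HI Pool.Agent.Helper79.HJ Pool.Agent.Helper79.FX
  Pool.Agent.Helper79.FY Pool.Agent.Helper64.Per Pool.Agent.Helper79.FZ

variable {r d ℓ : ℕ} [Fact ℓ.Prime]

private theorem gn_evX {A : Type} [CommRing A] [Algebra ℚ A] (g : GL (Fin r) A) (i j : Fin r) :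
    evGL g (MvPolynomial.X (some (i, j)) : GLPoly r ℚ) = (g : Matrix (Fin r) (Fin r) A) i j := by
  unfold evGL
  rw [MvPolynomial.aeval_X]
  rfl

private theorem gn_evC {A : Type} [CommRing A] [Algebra ℚ A] (g : GL (Fin r) A) (c : ℚ) :
    evGL g (MvPolynomial.C c : GLPoly r ℚ) = algebraMap ℚ A c := by
  unfold evGL
  rw [MvPolynomial.aeval_C]

private theorem gn_bcid {m n : Type} (M : Matrix m n ℚ) : bc ℚ M = M := by
  ext i j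
  simp [bc]

/-- The elements of the closure fix the subspace and its complement. -/
theorem zar_fixB {K : Type} [CommRing K] [Algebra ℚ K] {Γ : Subgroup (GL (Fin r) ℚ)}
    {B : Matrix (Fin r) (Fin d) ℚ} {C : Matrix (Fin d) (Fin r) ℚ}
    (h1 : ∀ γ ∈ Γ, (γ : Matrix (Fin r) (Fin r) ℚ) * B = B)
    (h2 : ∀ γ ∈ Γ, C * (γ : Matrix (Fin r) (Fin r) ℚ) = C) {a : GL (Fin r) K}
    (ha : a ∈ zar K (Γ : Set (GL (Fin r) ℚ))) :
    (a : Matrix (Fin r) (Fin r) K) * bc K B = bc K B ∧ bc K C * (a : Matrix (Fin r) (Fin r) K) = bc K C := by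
  constructor
  · ext i k
    have key : ∀ {A : Type} [CommRing A] [Algebra ℚ A] (g : GL (Fin r) A),
        evGL g ((∑ j, (MvPolynomial.X (some (i, j)) : GLPoly r ℚ) * MvPolynomial.C (B j k)) -
          MvPolynomial.C (B i k)) =
          ((g : Matrix (Fin r) (Fin r) A) * bc A B) i k - bc A B i k := by
      intro A _ _ g
      rw [map_sub, map_sum, gn_evC, Matrix.mul_apply]
      congr 1
      refine Finset.sum_congr rfl fun j _ => ?_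
      rw [map_mul, gn_evX, gn_evC]
      rfl
    have h3 := ha _ (fun γ hγ => by rw [key γ, gn_bcid, h1 γ hγ, sub_self] :
      ((∑ j, (MvPolynomial.X (some (i, j)) : GLPoly r ℚ) * MvPolynomial.C (B j k)) -
          MvPolynomial.C (B i k)) ∈ vanGL ℚ (Γ : Set (GL (Fin r) ℚ)))
    rw [key a] at h3
    exact sub_eq_zero.1 h3
  · ext i k
    have key : ∀ {A : Type} [CommRing A] [Algebra ℚ A] (g : GL (Fin r) A),
        evGL g ((∑ j, MvPolynomial.C (C i j) * (MvPolynomial.X (some (j, k)) : GLPoly r ℚ)) -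
          MvPolynomial.C (C i k)) =
          (bc A C * (g : Matrix (Fin r) (Fin r) A)) i k - bc A C i k := by
      intro A _ _ g
      rw [map_sub, map_sum, gn_evC, Matrix.mul_apply]
      congr 1
      refine Finset.sum_congr rfl fun j _ => ?_
      rw [map_mul, gn_evX, gn_evC]
      rfl
    have h3 := ha _ (fun γ hγ => by rw [key γ, gn_bcid, h2 γ hγ, sub_self] :
      ((∑ j, MvPolynomial.C (C i j) * (MvPolynomial.X (some (j, k)) : GLPoly r ℚ)) -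
          MvPolynomial.C (C i k)) ∈ vanGL ℚ (Γ : Set (GL (Fin r) ℚ)))
    rw [key a] at h3
    exact sub_eq_zero.1 h3

private theorem gn_cof {ψ : Matrix (Fin r) (Fin r) ℚ} {B : Matrix (Fin r) (Fin d) ℚ}
    {g : Matrix (Fin r) (Fin r) ℚ} (hiso : gᵀ * ψ * g = ψ) (hfix : g * B = B) :
    cof ψ B * g = cof ψ B := by
  have h0 : Bᵀ * gᵀ = Bᵀ := by rw [← transpose_mul, hfix]
  have h1 : Bᵀ * (ψ * g) = Bᵀ * ψ := by
    calc Bᵀ * (ψ * g) = Bᵀ * gᵀ * (ψ * g) := by rw [h0]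
      _ = Bᵀ * (gᵀ * ψ * g) := by simp only [Matrix.mul_assoc]
      _ = Bᵀ * ψ := by rw [hiso]
  calc cof ψ B * g = (Bᵀ * ψ * B)⁻¹ * (Bᵀ * (ψ * g)) := by
        unfold cof
        simp only [Matrix.mul_assoc]
    _ = (Bᵀ * ψ * B)⁻¹ * (Bᵀ * ψ) := by rw [h1]
    _ = cof ψ B := by
        unfold cof
        simp only [Matrix.mul_assoc]

private theorem gn_conj {K : Type} [Field K] [Algebra ℚ K] {Γ : Subgroup (GL (Fin r) ℚ)}
    {ψ : Matrix (Fin r) (Fin r) ℚ} {B : Matrix (Fin r) (Fin d) ℚ} (hA : IsUnit (Bᵀ * ψ * B).det)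
    (h1 : ∀ γ ∈ Γ, (γ : Matrix (Fin r) (Fin r) ℚ) * B = B)
    (h2 : ∀ γ ∈ Γ, cof ψ B * (γ : Matrix (Fin r) (Fin r) ℚ) = cof ψ B) {F T a : GL (Fin r) K}
    {x : GL (Fin d) K} (hFT : F = emb hA K x * T)
    (hZ : F * a * F⁻¹ ∈ zar K (Γ : Set (GL (Fin r) ℚ))) :
    T * a * T⁻¹ ∈ zar K (Γ : Set (GL (Fin r) ℚ)) := by
  obtain ⟨h3, h4⟩ := zar_fixB h1 h2 hZ
  have hc : emb hA K x * (F * a * F⁻¹) = (F * a * F⁻¹) * emb hA K x := by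
    apply Units.ext
    rw [Units.val_mul, Units.val_mul _ (emb hA K x), emb_coe]
    exact emb_comm _ h3 h4
  have h5 : T * a * T⁻¹ = F * a * F⁻¹ := by
    have h6 : T = (emb hA K x)⁻¹ * F := by rw [hFT, inv_mul_cancel_left]
    calc T * a * T⁻¹ = (emb hA K x)⁻¹ * ((F * a * F⁻¹) * emb hA K x) := by
          rw [h6]
          group
      _ = (emb hA K x)⁻¹ * (emb hA K x * (F * a * F⁻¹)) := by rw [hc]
      _ = F * a * F⁻¹ := by rw [inv_mul_cancel_left]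
  rw [h5]
  exact hZ

private theorem gn_conv {m n : Type} (M : Matrix m n ℤ) : bc ℚ_[ℓ] (qm M) =
    (M.map (Int.cast : ℤ → ℤ_[ℓ])).map (algebraMap ℤ_[ℓ] ℚ_[ℓ]) := by
  ext i j
  simp [bc, qm]

private theorem gn_detsq {K : Type} [Field K] {φ g : Matrix (Fin r) (Fin r) K} (hφ : φ.det ≠ 0)
    (h : gᵀ * φ * g = φ) : g.det = 1 ∨ g.det = -1 := by
  have h4 := congrArg Matrix.det h
  rw [det_mul, det_mul, det_transpose] at h4
  have h5 : (g.det - 1) * (g.det + 1) = 0 := by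
    apply mul_left_cancel₀ hφ
    linear_combination h4
  rcases mul_eq_zero.1 h5 with h6 | h6
  · exact Or.inl (sub_eq_zero.1 h6)
  · exact Or.inr (eq_neg_of_add_eq_zero_left h6)

private theorem gn_kerdet {K : Type} [Field K] {G : Type} [Group G] (ρ : G →* GL (Fin r) K)
    (h : ∀ σ, (ρ σ : Matrix (Fin r) (Fin r) K).det = 1 ∨
      (ρ σ : Matrix (Fin r) (Fin r) K).det = -1) :
    (((Matrix.GeneralLinearGroup.det (n := Fin r) (R := K)).comp ρ).ker).FiniteIndex := by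
  constructor
  rw [Subgroup.index_ker]
  have h1 : (((Matrix.GeneralLinearGroup.det (n := Fin r) (R := K)).comp ρ).range : Set Kˣ) ⊆
      {1, -1} := by
    rintro _ ⟨σ, rfl⟩
    rw [Set.mem_insert_iff, Set.mem_singleton_iff]
    rcases h σ with h2 | h2
    · left
      ext
      simpa using h2
    · right
      ext
      simpa using h2
  have h2 : Finite (((Matrix.GeneralLinearGroup.det (n := Fin r) (R := K)).comp ρ).range) :=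
    Set.Finite.subset (by simp) h1
  exact Nat.card_pos.ne'

private theorem gn_z {K : Type} [Field K] {g e z : Matrix (Fin r) (Fin r) K} (h3 : z * e = e * z)
    (h4 : g * z = z * g) : (e + g * (1 - e)) * z = z * (e + g * (1 - e)) := by
  rw [Matrix.add_mul, Matrix.mul_add, Matrix.mul_sub, Matrix.mul_one, Matrix.sub_mul,
    Matrix.mul_assoc g e z, ← h3, ← Matrix.mul_assoc g z e, h4, Matrix.mul_sub,
    ← Matrix.mul_assoc z g e]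

theorem exists_galN {G : Type} [Group G] {ψ : Matrix (Fin r) (Fin r) ℤ} {B : Matrix (Fin r) (Fin d) ℤ}
    {𝓔 : Set (Matrix (Fin r) (Fin r) ℚ)}
    {Γ : Subgroup (GL (Fin r) ℤ)} {ρ : G →* GL (Fin r) ℤ_[ℓ]} {G₁ : Subgroup G} (hG₁ : G₁.FiniteIndex)
    (hnorm : ∀ σ ∈ G₁, ∀ a ∈ zar ℚ_[ℓ] (qp Γ : Set (GL (Fin r) ℚ)),
      toQl (ρ σ) * a * (toQl (ρ σ))⁻¹ ∈ zar ℚ_[ℓ] (qp Γ : Set (GL (Fin r) ℚ)))
    (hψ : (qm ψ).det ≠ 0) (hsym : ψᵀ = ψ) (hA : IsUnit ((qm B)ᵀ * qm ψ * qm B).det)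
    (hdet : ∀ g ∈ qp Γ, (g : Matrix (Fin r) (Fin r) ℚ).det = 1)
    (hiso : ∀ g ∈ qp Γ, (g : Matrix (Fin r) (Fin r) ℚ)ᵀ * qm ψ * g = qm ψ)
    (hfix : ∀ g ∈ qp Γ, (g : Matrix (Fin r) (Fin r) ℚ) * qm B = qm B)
    (htr : ∀ x ∈ lieS (qp Γ), (∀ y ∈ lieS (qp Γ), (x * y).trace = 0) → x = 0)
    (hE : ∀ z ∈ 𝓔, ∀ y ∈ lieS (qp Γ), y * z = z * y)
    (hEe : ∀ z ∈ 𝓔, z * prj (qm ψ) (qm B) = prj (qm ψ) (qm B) * z)
    (hcent : CentZeroE (qm ψ) (qm B) 𝓔 (lieS (qp Γ)))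
    (hρ1 : ∀ σ, (ρ σ : Matrix (Fin r) (Fin r) ℤ_[ℓ])ᵀ * ψ.map (Int.cast : ℤ → ℤ_[ℓ]) * ρ σ =
      ψ.map (Int.cast : ℤ → ℤ_[ℓ])) {ρ' : G →* GL (Fin d) ℤ_[ℓ]}
    (hρ2 : ∀ σ, (ρ σ : Matrix (Fin r) (Fin r) ℤ_[ℓ]) * B.map (Int.cast : ℤ → ℤ_[ℓ]) =
      B.map (Int.cast : ℤ → ℤ_[ℓ]) * (ρ' σ : Matrix (Fin d) (Fin d) ℤ_[ℓ]))
    {G' : Subgroup G} (hG' : G'.FiniteIndex)
    (hρ3 : ∀ z ∈ 𝓔, ∀ σ ∈ G', (toQl (ρ σ) : Matrix (Fin r) (Fin r) ℚ_[ℓ]) * z.map (algebraMap ℚ ℚ_[ℓ]) =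
      z.map (algebraMap ℚ ℚ_[ℓ]) * toQl (ρ σ)) :
    ∃ G₀ ≤ G', G₀.FiniteIndex ∧ ∀ σ ∈ G₀, ∃ a ∈ zar ℚ_[ℓ] (qp Γ : Set (GL (Fin r) ℚ)),
      toQl (ρ σ) = emb hA ℚ_[ℓ] (toQl (ρ' σ)) * a := by
  have hs : (qm ψ)ᵀ = qm ψ := by
    unfold qm
    rw [← Matrix.transpose_map, hsym]
  have h2 : ∀ γ ∈ qp Γ, cof (qm ψ) (qm B) * (γ : Matrix (Fin r) (Fin r) ℚ) = cof (qm ψ) (qm B) :=
    fun γ hγ => gn_cof (hiso γ hγ) (hfix γ hγ)
  set f : G →* GL (Fin r) ℚ_[ℓ] :=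
    (Matrix.GeneralLinearGroup.map (n := Fin r) (algebraMap ℤ_[ℓ] ℚ_[ℓ])).comp ρ with hf
  have hmat : ∀ σ, (f σ : Matrix (Fin r) (Fin r) ℚ_[ℓ]) =
    (ρ σ : Matrix (Fin r) (Fin r) ℤ_[ℓ]).map (algebraMap ℤ_[ℓ] ℚ_[ℓ]) := fun _ => rfl
  have hmat' : ∀ σ, (toQl (ρ' σ) : Matrix (Fin d) (Fin d) ℚ_[ℓ]) =
    (ρ' σ : Matrix (Fin d) (Fin d) ℤ_[ℓ]).map (algebraMap ℤ_[ℓ] ℚ_[ℓ]) := fun _ => rfl
  have hiso' : ∀ σ, (f σ : Matrix (Fin r) (Fin r) ℚ_[ℓ])ᵀ * bc ℚ_[ℓ] (qm ψ) * f σ =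
      bc ℚ_[ℓ] (qm ψ) := by
    intro σ
    rw [gn_conv, hmat, ← Matrix.transpose_map, ← Matrix.map_mul, ← Matrix.map_mul, hρ1]
  have hBx : ∀ σ, (f σ : Matrix (Fin r) (Fin r) ℚ_[ℓ]) * bc ℚ_[ℓ] (qm B) =
      bc ℚ_[ℓ] (qm B) * (toQl (ρ' σ) : Matrix (Fin d) (Fin d) ℚ_[ℓ]) := by
    intro σ
    rw [gn_conv, hmat, hmat', ← Matrix.map_mul, ← Matrix.map_mul, hρ2]
  have hcomm : ∀ σ, (f σ : Matrix (Fin r) (Fin r) ℚ_[ℓ]) * bc ℚ_[ℓ] (prj (qm ψ) (qm B)) =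
      bc ℚ_[ℓ] (prj (qm ψ) (qm B)) * f σ := fun σ => prj_comm hs hA (hiso' σ) (hBx σ)
  obtain ⟨f', hf'⟩ := exists_tau f (bc_prj_idem hA) hcomm
  have hdec : ∀ σ, f σ = emb hA ℚ_[ℓ] (toQl (ρ' σ)) * f' σ := by
    intro σ
    apply Units.ext
    rw [Units.val_mul, emb_coe, hf']
    exact emb_mul_tau hA (hBx σ) (hcomm σ)
  have hψ' : (bc ℚ_[ℓ] (qm ψ)).det ≠ 0 := by
    have h0 : (bc ℚ_[ℓ] (qm ψ)).det = algebraMap ℚ ℚ_[ℓ] (qm ψ).det := (RingHom.map_det _ _).symm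
    rw [h0]
    exact (map_ne_zero (algebraMap ℚ ℚ_[ℓ])).mpr hψ
  have hisoT : ∀ σ, (f' σ : Matrix (Fin r) (Fin r) ℚ_[ℓ])ᵀ * bc ℚ_[ℓ] (qm ψ) * f' σ =
      bc ℚ_[ℓ] (qm ψ) := by
    intro σ
    rw [hf']
    exact tau_isom (bc_prj_idem hA) (hcomm σ) (bc_prj_adj hs) (hiso' σ)
  set D := (Matrix.GeneralLinearGroup.det (n := Fin r) (R := ℚ_[ℓ])).comp f' with hD
  have hfD : D.ker.FiniteIndex := gn_kerdet f' fun σ => gn_detsq hψ' (hisoT σ)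
  set G₂ := G₁ ⊓ (G' ⊓ D.ker) with hG₂
  have hf3 : G₂.FiniteIndex := inferInstance
  have hdet1 : ∀ σ ∈ G₂, (f' σ : Matrix (Fin r) (Fin r) ℚ_[ℓ]).det = 1 := by
    intro σ hσ
    have h1 : D σ = 1 := hσ.2.2
    have h3 : ((D σ : ℚ_[ℓ]ˣ) : ℚ_[ℓ]) = 1 := by
      rw [h1]
      rfl
    exact h3
  have heB : bc ℚ_[ℓ] (prj (qm ψ) (qm B)) * bc ℚ_[ℓ] (qm B) = bc ℚ_[ℓ] (qm B) := by
    rw [← bc_mul]
    congr 1
    unfold prj
    rw [Matrix.mul_assoc, cof_mul hA, Matrix.mul_one]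
  have hconj : ∀ σ ∈ G₁, ∀ a ∈ zar ℚ_[ℓ] (qp Γ : Set (GL (Fin r) ℚ)),
      f' σ * a * (f' σ)⁻¹ ∈ zar ℚ_[ℓ] (qp Γ : Set (GL (Fin r) ℚ)) :=
    fun σ hσ a ha => gn_conj hA hfix h2 (hdec σ) (hnorm σ hσ a ha)
  have hle : lieS (G₂.map f') ≤ mspan ℚ_[ℓ] (lieS (qp Γ)) := by
    refine lieS_leE (ψ := qm ψ) (B := qm B) (𝓔 := 𝓔) hψ htr (fun x hx => skew hiso hx) ?_ hE hcent
      ?_ ?_ ?_ ?_
    · intro x hx
      let N : Submodule ℚ (Fin r → ℚ) :=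
        { carrier := {v | ∀ γ ∈ qp Γ, (γ : Matrix (Fin r) (Fin r) ℚ) *ᵥ v = v}
          zero_mem' := fun γ _ => mulVec_zero _
          add_mem' := fun {a b} ha hb γ hγ => by rw [mulVec_add, ha γ hγ, hb γ hγ]
          smul_mem' := fun c a ha γ hγ => by rw [mulVec_smul, ha γ hγ] }
      have hk := kills (Γ := qp Γ) (N := N) (fun γ hγ v hv => hv γ hγ) x hx
      ext i j
      have h3 := congrFun (hk (fun i => qm B i j) (fun γ hγ => by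
        funext i
        exact congrFun (congrFun (hfix γ hγ) i) j)) i
      exact h3
    · rintro _ ⟨σ, hσ, rfl⟩
      exact hisoT σ
    · rintro _ ⟨σ, hσ, rfl⟩
      have h3 : (f' σ : Matrix (Fin r) (Fin r) ℚ_[ℓ]) * bc ℚ_[ℓ] (qm B) = bc ℚ_[ℓ] (qm B) := by
        rw [hf', Matrix.add_mul, heB, Matrix.mul_assoc, Matrix.sub_mul, heB, Matrix.one_mul, sub_self,
          Matrix.mul_zero, add_zero]
      exact h3
    · rintro _ ⟨σ, hσ, rfl⟩ y hy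
      rw [← lieS_zarG] at hy ⊢
      refine lieS_conj_normal hy (g := f' σ) (fun a ha => hconj σ hσ.1 a ha) (fun a ha => ?_)
      have h3 := hconj σ⁻¹ (G₁.inv_mem hσ.1) a ha
      rwa [map_inv, inv_inv] at h3
    · rintro _ ⟨σ, hσ, rfl⟩ z hz
      have h3 : bc ℚ_[ℓ] z * bc ℚ_[ℓ] (prj (qm ψ) (qm B)) =
          bc ℚ_[ℓ] (prj (qm ψ) (qm B)) * bc ℚ_[ℓ] z := by
        rw [← bc_mul, ← bc_mul, hEe z hz]
      have h4 : (f σ : Matrix (Fin r) (Fin r) ℚ_[ℓ]) * bc ℚ_[ℓ] z = bc ℚ_[ℓ] z * f σ :=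
        hρ3 z hz σ hσ.2.1
      have h5 : (f' σ : Matrix (Fin r) (Fin r) ℚ_[ℓ]) * bc ℚ_[ℓ] z = bc ℚ_[ℓ] z * f' σ := by
        rw [hf']
        exact gn_z h3 h4
      exact h5
  have hrel : (zarG ℚ_[ℓ] (qp Γ)).relIndex (G₂.map f') ≠ 0 := by
    refine relIndex_zar hdet ?_ hle
    rintro _ ⟨σ, hσ, rfl⟩
    exact hdet1 σ hσ
  refine ⟨((zarG ℚ_[ℓ] (qp Γ)).comap f') ⊓ G₂, fun σ hσ => hσ.2.2.1, ⟨?_⟩,
    fun σ hσ => ⟨f' σ, hσ.1, hdec σ⟩⟩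
  have h1 : ((zarG ℚ_[ℓ] (qp Γ)).comap f').relIndex G₂ ≠ 0 := by
    rw [Subgroup.relIndex_comap]
    exact hrel
  rw [← Subgroup.inf_relIndex_right] at h1
  rw [← Subgroup.relIndex_mul_index (inf_le_right : ((zarG ℚ_[ℓ] (qp Γ)).comap f') ⊓ G₂ ≤ G₂)]
  exact mul_ne_zero h1 hf3.index_ne_zero

end Pool.Agent.Helper79.GP
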