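import Pool.Agent.Helper79.HI.Stat
import Pool.Agent.Helper79.FZ.Stat

/-!
# GP: the constant part of a local system and its centraliser: definitions
-/

namespace Pool.Agent.Helper79.GP

open Matrix Pool.Agent.Helper79.BB Pool.Agent.Helper79.HH Pool.Agent.Helper79.HG Pool.Agent.Helper79.FY
  Pool.Agent.Helper79.FZ Pool.Agent.Helper64.Per Pool.Agent.Helper88.MT

section

variable {κ : Type} [Field κ] [Algebra κ ℂ] {m r ℓ : ℕ} [Fact ℓ.Prime] {U : Set (Fin m → ℂ)}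
  {w : (Fin m → ℂ) → ℂ}

/-- The rational matrix `x` has finitely many conjugates `γ x γ⁻¹` under the monodromy group, or equivalently it commutes with a
subgroup of finite index. -/
def FinConj (S : MvPolynomial (Fin m) κ) (P : (Fin m → ℂ) → Matrix (Fin r) (Fin r) ℂ)
    (Y : ∀ k : ℕ, CoverData κ (Fin r → ZMod (ℓ ^ k)) U w) (x : Matrix (Fin r) (Fin r) ℚ) : Prop :=
  {z | ∃ γ : GL (Fin r) ℤ, IsMono S P Y γ ∧ (γ : Matrix (Fin r) (Fin r) ℤ).map (Int.cast : ℤ → ℚ) * x *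
    ((γ⁻¹ : GL (Fin r) ℤ) : Matrix (Fin r) (Fin r) ℤ).map (Int.cast : ℤ → ℚ) = z}.Finite

/-- The columns of `B` are a basis of the lattice `N` of the integral vectors `v` with finitely many conjugates `γ v` under the
monodromy group; the elements of `𝓔` are rational matrices with finitely many conjugates; and no nonzero rational matrix `x`,
skew for `ψ`, which kills `N` and commutes with the elements of `𝓔`, has finitely many conjugates. -/
structure NoCentF {d : ℕ} (S : MvPolynomial (Fin m) κ) (P : (Fin m → ℂ) → Matrix (Fin r) (Fin r) ℂ)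
    (Y : ∀ k : ℕ, CoverData κ (Fin r → ZMod (ℓ ^ k)) U w) (ψ : Matrix (Fin r) (Fin r) ℤ)
    (B : Matrix (Fin r) (Fin d) ℤ) (𝓔 : Set (Matrix (Fin r) (Fin r) ℚ)) : Prop where
  basis : ∀ v : Fin r → ℤ, {z | ∃ γ : GL (Fin r) ℤ, IsMono S P Y γ ∧
    (γ : Matrix (Fin r) (Fin r) ℤ) *ᵥ v = z}.Finite ↔ ∃! c : Fin d → ℤ, B *ᵥ c = v
  const : ∀ x ∈ 𝓔, FinConj S P Y x
  cent : ∀ x : Matrix (Fin r) (Fin r) ℚ,
    xᵀ * ψ.map (Int.cast : ℤ → ℚ) + ψ.map (Int.cast : ℤ → ℚ) * x = 0 →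
    x * B.map (Int.cast : ℤ → ℚ) = 0 → (∀ z ∈ 𝓔, x * z = z * x) → FinConj S P Y x → x = 0

end

variable {r d : ℕ}

/-- The group of complex points of the Mumford-Tate group of the Hodge structure on the lattice spanned by the columns of `B`, part of
the Hodge structure on `ℤ^r` with period matrix `P`: the smallest subgroup of `GL d` over `ℂ` which is the set of common zeros of
polynomials with rational coefficients and contains the matrices of the elements by which the complex numbers of absolute value one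
act. -/
noncomputable def subMT (lev : Fin r → ℤ) (P : Matrix (Fin r) (Fin r) ℂ) (B : Matrix (Fin r) (Fin d) ℤ) :
    Subgroup (GL (Fin d) ℂ) :=
  sInf {T : Subgroup (GL (Fin d) ℂ) |
    (∃ Q : Set (GLPoly d ℚ), ∀ x : GL (Fin d) ℂ, x ∈ T ↔ ∀ f ∈ Q, evGL x f = 0) ∧
      ∀ (u : ℂ) (a : GL (Fin r) ℂ) (x : GL (Fin d) ℂ), IsHodgeElt lev P u a →
        (a : Matrix (Fin r) (Fin r) ℂ) * B.map (Int.cast : ℤ → ℂ) =
          B.map (Int.cast : ℤ → ℂ) * (x : Matrix (Fin d) (Fin d) ℂ) → x ∈ T}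

/-- For a group `G` acting on `Qbar` (the Galois group of a number field), the `G`-sets `{y k v : v ∈ (ℤ / ℓ^k)^r}`, and the Hodge
structure on `ℤ^r` with period matrix `P`: there is an action `ρ` of `G` on the `ℓ`-adic lattice, which preserves the form `ψ` and
acts on the sublattice `N` spanned by the columns of `B` through `ρ'`, and a subgroup `G'` of finite index such that

* the elements of `𝓔` commute with the circle, which gives the Hodge structure, and with `ρ(G')` (they are Hodge classes and Tate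
  classes, for instance algebraic correspondences);
* the equality of the Mumford-Tate conjecture at the prime `ℓ` holds for `N`: the Zariski closure of `ρ'(G')` over `ℚ_ℓ` is
  connected, and the base change to `ℤ_ℓ` of the Zariski closure over `ℤ` of the Mumford-Tate group of `N` is the
  Zariski closure over `ℤ_ℓ` of `ρ'(G')`, in `GL d` over `ℤ_ℓ`. -/
def Q1Part {ℓ : ℕ} [Fact ℓ.Prime] {G : Type} [Group G] (act : G → Qbar → Qbar) {n : ℕ → ℕ}
    (y : ∀ k, (Fin r → ZMod (ℓ ^ k)) → Fin (n k) → ℂ) (lev : Fin r → ℤ) (ψ : Matrix (Fin r) (Fin r) ℤ)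
    (P : Matrix (Fin r) (Fin r) ℂ) (B : Matrix (Fin r) (Fin d) ℤ)
    (𝓔 : Set (Matrix (Fin r) (Fin r) ℚ)) : Prop :=
  ∃ ρ : G →* GL (Fin r) ℤ_[ℓ], IsGalRep act y ρ ∧
    (∀ σ, (ρ σ : Matrix (Fin r) (Fin r) ℤ_[ℓ])ᵀ * ψ.map (Int.cast : ℤ → ℤ_[ℓ]) * ρ σ =
      ψ.map (Int.cast : ℤ → ℤ_[ℓ])) ∧
    ∃ ρ' : G →* GL (Fin d) ℤ_[ℓ], (∀ σ, (ρ σ : Matrix (Fin r) (Fin r) ℤ_[ℓ]) * B.map (Int.cast : ℤ → ℤ_[ℓ]) =
      B.map (Int.cast : ℤ → ℤ_[ℓ]) * (ρ' σ : Matrix (Fin d) (Fin d) ℤ_[ℓ])) ∧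
    ∃ G' : Subgroup G, G'.FiniteIndex ∧
      (∀ z ∈ 𝓔, (∀ u a, IsHodgeElt lev P u a →
          (a : Matrix (Fin r) (Fin r) ℂ) * z.map (algebraMap ℚ ℂ) = z.map (algebraMap ℚ ℂ) * a) ∧
        ∀ σ ∈ G', (toQl (ρ σ) : Matrix (Fin r) (Fin r) ℚ_[ℓ]) * z.map (algebraMap ℚ ℚ_[ℓ]) =
          z.map (algebraMap ℚ ℚ_[ℓ]) * toQl (ρ σ)) ∧
      IsConn (toQl '' (G'.map ρ' : Set (GL (Fin d) ℤ_[ℓ]))) ∧
      (vanGL ℤ (subMT lev P B : Set (GL (Fin d) ℂ))).map (MvPolynomial.map (Int.castRingHom ℤ_[ℓ])) =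
        vanGL ℤ_[ℓ] (G'.map ρ' : Set (GL (Fin d) ℤ_[ℓ]))

end Pool.Agent.Helper79.GP
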