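import Pool.Agent.Helper79.GP.Sub
import Pool.Agent.Helper79.GP.GalN
import Pool.Agent.Helper79.GP.PointT
import Pool.Agent.Helper79.GP.StatN

/-!
# GP: the group at the base point, for the constant part

`T₀` is the product of the Mumford-Tate group of the constant part `N` (extended by the identity on the complement) and the closure of `Γ`.
(helper79)
-/

set_option linter.unusedSectionVars false

namespace Pool.Agent.Helper79.GP

open Matrix Module Pool.Agent.Helper79.BB Pool.Agent.Helper79.HH Pool.Agent.Helper79.HG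
  Pool.Agent.Helper79.HI Pool.Agent.Helper64.Per Pool.Agent.Helper88.MT Pool.Agent.Helper46.GG

variable {r d ℓ : ℕ} [Fact ℓ.Prime]

/-- The product of a group of extensions and a group which commutes with it. -/
def prodG {ψ : Matrix (Fin r) (Fin r) ℚ} {B : Matrix (Fin r) (Fin d) ℚ}
    (hA : IsUnit (Bᵀ * ψ * B).det) {A : Type} [CommRing A] [Algebra ℚ A]
    (H : Subgroup (GL (Fin d) A)) (Z : Subgroup (GL (Fin r) A))
    (hZ : ∀ z ∈ Z, ∀ x, emb hA A x * z = z * emb hA A x) : Subgroup (GL (Fin r) A) where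
  carrier := {g | ∃ x ∈ H, ∃ z ∈ Z, g = emb hA A x * z}
  mul_mem' := by
    rintro _ _ ⟨x, hx, z, hz, rfl⟩ ⟨x', hx', z', hz', rfl⟩
    refine ⟨x * x', H.mul_mem hx hx', z * z', Z.mul_mem hz hz', ?_⟩
    rw [map_mul]
    calc emb hA A x * z * (emb hA A x' * z') = emb hA A x * (z * emb hA A x') * z' := by group
      _ = emb hA A x * (emb hA A x' * z) * z' := by rw [hZ z hz x']
      _ = _ := by group
  one_mem' := ⟨1, H.one_mem, 1, Z.one_mem, by rw [map_one, one_mul]⟩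
  inv_mem' := by
    rintro _ ⟨x, hx, z, hz, rfl⟩
    refine ⟨x⁻¹, H.inv_mem hx, z⁻¹, Z.inv_mem hz, ?_⟩
    rw [hZ z hz x, _root_.mul_inv_rev, map_inv]

theorem subMT_closed {lev : Fin r → ℤ} {P : Matrix (Fin r) (Fin r) ℂ} {B : Matrix (Fin r) (Fin d) ℤ}
    {T : Subgroup (GL (Fin d) ℂ)} (hT : ∃ Q : Set (GLPoly d ℚ), ∀ x : GL (Fin d) ℂ, x ∈ T ↔ ∀ f ∈ Q, evGL x f = 0)
    (h : ∀ (u : ℂ) (a : GL (Fin r) ℂ) (x : GL (Fin d) ℂ), IsHodgeElt lev P u a →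
        (a : Matrix (Fin r) (Fin r) ℂ) * B.map (Int.cast : ℤ → ℂ) =
          B.map (Int.cast : ℤ → ℂ) * (x : Matrix (Fin d) (Fin d) ℂ) → x ∈ T) : subMT lev P B ≤ T :=
  sInf_le ⟨hT, h⟩

theorem mem_subMT {lev : Fin r → ℤ} {P : Matrix (Fin r) (Fin r) ℂ} {B : Matrix (Fin r) (Fin d) ℤ}
    {u : ℂ} {a : GL (Fin r) ℂ} {x : GL (Fin d) ℂ} (h : IsHodgeElt lev P u a)
    (hx : (a : Matrix (Fin r) (Fin r) ℂ) * B.map (Int.cast : ℤ → ℂ) =
          B.map (Int.cast : ℤ → ℂ) * (x : Matrix (Fin d) (Fin d) ℂ)) : x ∈ subMT lev P B := by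
  rw [subMT, Subgroup.mem_sInf]
  rintro T ⟨-, hT⟩
  exact hT u a x h hx

theorem base_of_part {G : Type} [Group G] {lev : Fin r → ℤ} {P₀ : Matrix (Fin r) (Fin r) ℂ}
    {ψ : Matrix (Fin r) (Fin r) ℤ} {B : Matrix (Fin r) (Fin d) ℤ}
    {Γ : Subgroup (GL (Fin r) ℤ)} {ρ : G →* GL (Fin r) ℤ_[ℓ]} {ρ' : G →* GL (Fin d) ℤ_[ℓ]}
    {G' G₀ : Subgroup G} (hG₀ : G₀ ≤ G')
    (hA : IsUnit ((qm B)ᵀ * qm ψ * qm B).det)
    (hB : ∀ g ∈ qp Γ, (g : Matrix (Fin r) (Fin r) ℚ) * qm B = qm B)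
    (hC : ∀ g ∈ qp Γ, cof (qm ψ) (qm B) * (g : Matrix (Fin r) (Fin r) ℚ) = cof (qm ψ) (qm B))
    (hgal : ∀ σ ∈ G₀, ∃ a ∈ zar ℚ_[ℓ] (qp Γ : Set (GL (Fin r) ℚ)),
      toQl (ρ σ) = emb hA ℚ_[ℓ] (toQl (ρ' σ)) * a)
    (hhodge : ∀ u a, IsHodgeElt lev P₀ u a → ∃ x : GL (Fin d) ℂ,
      (a : Matrix (Fin r) (Fin r) ℂ) * B.map (Int.cast : ℤ → ℂ) =
          B.map (Int.cast : ℤ → ℂ) * (x : Matrix (Fin d) (Fin d) ℂ) ∧
      ∃ z ∈ zar ℂ (qp Γ : Set (GL (Fin r) ℚ)), a = emb hA ℂ x * z)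
    (hconn : IsConn (toQl '' (G'.map ρ' : Set (GL (Fin d) ℤ_[ℓ]))))
    (heq : (vanGL ℤ (subMT lev P₀ B : Set (GL (Fin d) ℂ))).map
        (MvPolynomial.map (Int.castRingHom ℤ_[ℓ])) = vanGL ℤ_[ℓ] (G'.map ρ' : Set (GL (Fin d) ℤ_[ℓ])))
    (hfin₀ : G₀.FiniteIndex) :
    ∃ T₀ : Subgroup (GL (Fin r) ℂ), BaseT Γ lev P₀ ρ G₀ T₀ := by
  classical
  have hZ : ∀ z ∈ zarG ℂ (qp Γ), ∀ x, emb hA ℂ x * z = z * emb hA ℂ x := by
    intro z hz x
    obtain ⟨h1, h2⟩ := zar_fixB hB hC hz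
    apply Units.ext
    rw [Units.val_mul, Units.val_mul, emb_coe]
    exact emb_comm _ h1 h2
  have h1 := (map_eq_iff _ _).1 heq
  refine ⟨prodG hA (subMT lev P₀ B) (zarG ℂ (qp Γ)) hZ, ?_, ?_, ?_, ?_⟩
  · -- the Galois side
    intro σ hσ f hf
    obtain ⟨a, ha, hσa⟩ := hgal σ hσ
    have h2 : ∀ γ ∈ qp Γ, evGL (emb hA ℚ_[ℓ] (toQl (ρ' σ)) *
        Matrix.GeneralLinearGroup.map (algebraMap ℚ ℚ_[ℓ]) γ) f = 0 := by
      intro γ hγ
      obtain ⟨f', hf', -⟩ := exists_sub (F := ℚ) hA γ f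
      rw [← hf']
      have h3 : f' ∈ vanGL ℚ (subMT lev P₀ B : Set (GL (Fin d) ℂ)) := by
        intro x hx
        rw [hf']
        exact hf _ ⟨x, hx, _, map_mem_zar hγ, rfl⟩
      have h4 : MvPolynomial.map (algebraMap ℚ ℚ_[ℓ]) f' ∈
          vanGL ℚ_[ℓ] (toQl '' (G'.map ρ' : Set (GL (Fin d) ℤ_[ℓ]))) := by
        rw [← h1]
        exact Ideal.mem_map_of_mem _ h3
      have h5 := h4 (toQl (ρ' σ)) ⟨ρ' σ, ⟨σ, hG₀ hσ, rfl⟩, rfl⟩
      rwa [evGL_mapPoly] at h5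
    obtain ⟨f₂, hf₂⟩ := exists_left (emb hA ℚ_[ℓ] (toQl (ρ' σ)))
      (MvPolynomial.map (algebraMap ℚ ℚ_[ℓ]) f)
    have hid : Matrix.GeneralLinearGroup.map (algebraMap ℚ_[ℓ] ℚ_[ℓ]) (emb hA ℚ_[ℓ] (toQl (ρ' σ))) =
        emb hA ℚ_[ℓ] (toQl (ρ' σ)) := by
      ext i j
      simp
    have h6 : ∀ x : GL (Fin r) ℚ_[ℓ], evGL x f₂ = evGL (emb hA ℚ_[ℓ] (toQl (ρ' σ)) * x) f := by
      intro x
      rw [hf₂ x, hid, evGL_mapPoly]
    rw [hσa, ← h6]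
    refine evGL_zero_of_zar (S := (qp Γ : Set (GL (Fin r) ℚ))) (fun γ hγ => ?_) ha
    rw [h6]
    exact h2 γ hγ
  · -- the group over `ℚ_ℓ`
    intro R hΓR G₁ hG₁ hG f hf φ
    have hzR : ∀ {x : GL (Fin r) ℚ_[ℓ]}, x ∈ zar ℚ_[ℓ] (qp Γ : Set (GL (Fin r) ℚ)) → x ∈ zarG ℚ_[ℓ] R :=
      fun {x} hx => zar_trans hΓR hx
    have h2 : ∀ γ ∈ qp Γ, ∀ x ∈ subMT lev P₀ B, evGL (emb hA ℂ x *
        Matrix.GeneralLinearGroup.map (algebraMap ℚ ℂ) γ) (pc φ f) = 0 := by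
      intro γ hγ x hx
      obtain ⟨f', hf', hpc⟩ := exists_sub (F := ℚ_[ℓ]) hA γ f
      rw [← hpc φ x]
      have h3 : ∀ g ∈ gal (G'.map ρ'), evGL g f' = 0 := by
        refine van_of_finite (Γ := gal (G'.map ρ')) (Γ' := gal (((G₁ ⊓ G₀) ⊓ G').map ρ')) ?_ ?_ ?_
        · rw [coe_gal]
          exact hconn
        · rw [gal, gal, Subgroup.map_map, Subgroup.map_map]
          exact relIndex_map_ne_zero _ inferInstance
        · rintro _ ⟨_, ⟨τ, hτ, rfl⟩, rfl⟩ _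
          change evGL (toQl (ρ' τ)) f' = 0
          rw [hf']
          obtain ⟨a, ha, hτa⟩ := hgal τ hτ.1.2
          have h4 : toQl (ρ τ) ∈ zarG ℚ_[ℓ] R := hG τ hτ.1.2 hτ.1.1
          have h5 : emb hA ℚ_[ℓ] (toQl (ρ' τ)) ∈ zarG ℚ_[ℓ] R := by
            have h6 := (zarG ℚ_[ℓ] R).mul_mem h4 ((zarG ℚ_[ℓ] R).inv_mem (hzR ha))
            rwa [hτa, mul_assoc, mul_inv_cancel, mul_one] at h6
          exact (zarG ℚ_[ℓ] R).mul_mem h5 (hzR (map_mem_zar hγ)) f hf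
      have h4 : f' ∈ vanGL ℚ_[ℓ] (toQl '' (G'.map ρ' : Set (GL (Fin d) ℤ_[ℓ]))) := by
        intro g hg
        exact h3 g hg
      rw [← h1] at h4
      exact mem_map_iff_pc.1 h4 φ x hx
    rintro _ ⟨x, hx, z, hz, rfl⟩
    obtain ⟨f₂, hf₂⟩ := exists_left (emb hA ℂ x) (MvPolynomial.map (algebraMap ℚ ℂ) (pc φ f))
    have hid : Matrix.GeneralLinearGroup.map (algebraMap ℂ ℂ) (emb hA ℂ x) = emb hA ℂ x := by
      ext i j
      simp
    have h6 : ∀ y : GL (Fin r) ℂ, evGL y f₂ = evGL (emb hA ℂ x * y) (pc φ f) := by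
      intro y
      rw [hf₂ y, hid, evGL_mapPoly]
    rw [← h6]
    refine evGL_zero_of_zar (S := (qp Γ : Set (GL (Fin r) ℚ))) (fun γ hγ => ?_) hz
    rw [h6]
    exact h2 γ hγ x hx
  · -- the Hodge circle
    intro u a ha
    obtain ⟨x, hx, z, hz, rfl⟩ := hhodge u a ha
    exact ⟨x, mem_subMT ha hx, z, hz, rfl⟩
  · -- the least group
    intro T hT hΓT hH
    have hzT : ∀ {z : GL (Fin r) ℂ}, z ∈ zar ℂ (qp Γ : Set (GL (Fin r) ℚ)) → z ∈ T :=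
      fun {z} hz => zar_le_closed hT hΓT hz
    have hle : subMT lev P₀ B ≤ T.comap (emb hA ℂ) := by
      refine subMT_closed ?_ ?_
      · choose f' hf' using fun f : GLPoly r ℚ => exists_sub (F := ℚ) hA (1 : GL (Fin r) ℚ) f
        refine ⟨f' '' (vanGL ℚ (T : Set (GL (Fin r) ℂ)) : Set (GLPoly r ℚ)), fun x => ?_⟩
        rw [Subgroup.mem_comap, hT]
        have h2 : ∀ f, evGL x (f' f) = evGL (emb hA ℂ x) f := by
          intro f
          rw [(hf' f).1 x, map_one, mul_one]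
        constructor
        · rintro h _ ⟨f, hf, rfl⟩
          rw [h2]
          exact h f hf
        · intro h f hf
          rw [← h2]
          exact h _ ⟨f, hf, rfl⟩
      · intro u a x ha hx
        rw [Subgroup.mem_comap]
        obtain ⟨x', hx', z, hz, haz⟩ := hhodge u a ha
        have h2 : bc ℂ (qm B) = B.map (Int.cast : ℤ → ℂ) := by
          ext i j
          simp [bc, qm]
        have h3 : x = x' := by
          apply Units.ext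
          have h4 := bc_cof_mul (A := ℂ) (ψ := qm ψ) (B := qm B) hA
          rw [h2] at h4
          have h5 : (x : Matrix (Fin d) (Fin d) ℂ) = bc ℂ (cof (qm ψ) (qm B)) *
              (B.map (Int.cast : ℤ → ℂ) * (x : Matrix (Fin d) (Fin d) ℂ)) := by
            rw [← Matrix.mul_assoc, h4, Matrix.one_mul]
          have h6 : (x' : Matrix (Fin d) (Fin d) ℂ) = bc ℂ (cof (qm ψ) (qm B)) *
              (B.map (Int.cast : ℤ → ℂ) * (x' : Matrix (Fin d) (Fin d) ℂ)) := by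
            rw [← Matrix.mul_assoc, h4, Matrix.one_mul]
          rw [h5, h6, ← hx, ← hx']
        rw [h3]
        have h4 := T.mul_mem (hH u a ha) (T.inv_mem (hzT hz))
        rwa [haz, mul_assoc, mul_inv_cancel, mul_one] at h4
    rintro _ ⟨x, hx, z, hz, rfl⟩
    exact T.mul_mem (hle hx) (hzT hz)

end Pool.Agent.Helper79.GP
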