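import Pool.Agent.Helper79.GP.LieE
import Pool.Agent.Helper79.GP.KerN
import Pool.Agent.Helper79.FZ.Hodge
import Pool.Agent.Helper79.FX.Main

/-!
# GP-06: the Hodge circle on the variable part is contained in the closure of the monodromy group

1. `hodge_stable`: let `g` be the element of `GL r ℂ` with matrix `Em lev j ψ u P` (`ofDet`, `Em_det`). By hypothesis (`FX.normal`, for `u`) `g⁻¹ γ g` is in `zar ℂ (qp Γ)`, so it fixes the columns `b` of `bc ℂ (qm B)` (the linear polynomials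
   `(X b - b) i` vanish on `qp Γ`: as `zar_fix` in `Pool/Agent/Helper79/GB/TypeX.lean` or `zar_fixB`), so `γ (g b) = g (g⁻¹ γ g b) = g b`: the columns of `g * bc ℂ (qm B)` are fixed by `Γ`, and `fixed_ext` gives `X`.
2. `circle_memN`: as `circle_mem_zar` in `Pool/Agent/Helper79/FZ/Hodge.lean`, for the group of the `g` with matrix `e + Em u (1 - e)`, `u ≠ 0`, `e = bc ℂ (prj ψ B)` (products: `Em_mul` and `Em u * e = e * Em u` by `prj_comm`); `lieS_leE` with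
   `hG1`: `tau_isom`, `Em_isom`; `hG2`: `e B = B`; `hG3`: for `y ∈ mspan ℂ (lieS Γ)`: `y e = 0 = e y` (`y B = 0`; `C y = 0` from the skewness of `y`, or: `e a = e = a e` on the group), so `(e + Em u (1 - e)) y = Em u y (Em u)⁻¹ (e + Em u (1 - e))`, and `AdStable`;
   `hG4`: `hEm` and `hEe`. `hdetG`: by `emb_mul_tau`: `Em u = embM X (e + Em u (1 - e))`, or: `det = ± 1` as it is an isometry, and it is a square (of the element for `v`, `v ^ 2 = u`), so `1`.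
3. `comm_all`: with a basis `Q`, `deg` (`exists_basis hpol.span`, `Em_eq`): `Em u = Q diag (u ^ (2 deg i - 2)) Q⁻¹` (`sc`). For `W = Q⁻¹ z Q` the hypothesis is `(u ^ (2 deg i - 2) - u ^ (2 deg k - 2)) W i k = 0` for `‖u‖ = 1`. If `deg i ≠ deg k` take
   `u = exp (π I / (2 (deg i - deg k)))`: `u ^ (2 (deg i - deg k)) = -1`, so `W i k = 0`. So `W` commutes with all `diag (u ^ (2 deg i - 2))`.
-/

set_option linter.unusedSectionVars false

namespace Pool.Agent.Helper79.GP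

open Matrix Module Pool.Agent.Helper88.MT Pool.Agent.Helper46.GG Pool.Agent.Helper79.HG Pool.Agent.Helper79.HH
  Pool.Agent.Helper79.HI Pool.Agent.Helper79.HJ Pool.Agent.Helper79.FX Pool.Agent.Helper79.FZ

variable {r d : ℕ} {lev : Fin r → ℤ} {P : Matrix (Fin r) (Fin r) ℂ}

/-- Rational matrices fixed by a group are fixed by its closure. -/
private theorem zar_fixM {B : Matrix (Fin r) (Fin d) ℚ} {Γ : Subgroup (GL (Fin r) ℚ)}
    (hv : ∀ γ ∈ Γ, (γ : Matrix (Fin r) (Fin r) ℚ) * B = B) {g : GL (Fin r) ℂ}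
    (hg : g ∈ zar ℂ (Γ : Set (GL (Fin r) ℚ))) :
    (g : Matrix (Fin r) (Fin r) ℂ) * bc ℂ B = bc ℂ B := by
  ext i l
  have h1 : ∀ {A : Type} [CommRing A] [Algebra ℚ A] (a : GL (Fin r) A),
      evGL a (∑ k, MvPolynomial.C (B k l) * MvPolynomial.X (some (i, k)) - MvPolynomial.C (B i l) :
        GLPoly r ℚ) = ∑ k, algebraMap ℚ A (B k l) * a i k - algebraMap ℚ A (B i l) := by
    intro A _ _ a
    unfold evGL
    rw [map_sub, map_sum, MvPolynomial.aeval_C]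
    congr 1
    refine Finset.sum_congr rfl fun k _ => ?_
    rw [map_mul, MvPolynomial.aeval_C, MvPolynomial.aeval_X]
    rfl
  have h2 := hg (∑ k, MvPolynomial.C (B k l) * MvPolynomial.X (some (i, k)) - MvPolynomial.C (B i l))
    (by
      intro γ hγ
      rw [h1]
      have h3 := congrFun (congrFun (hv γ hγ) i) l
      rw [Matrix.mul_apply] at h3
      rw [sub_eq_zero]
      change ∑ k, B k l * (γ : Matrix (Fin r) (Fin r) ℚ) i k = B i l
      rw [← h3]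
      exact Finset.sum_congr rfl fun k _ => mul_comm _ _)
  rw [h1, sub_eq_zero] at h2
  rw [Matrix.mul_apply]
  refine Eq.trans ?_ h2
  exact Finset.sum_congr rfl fun k _ => mul_comm _ _

theorem hodge_stable {ψ : Matrix (Fin r) (Fin r) ℚ} (hpol : IsPolarized lev 2 ψ P) (hP : IsUnit P.det)
    {Γ : Subgroup (GL (Fin r) ℤ)} {B : Matrix (Fin r) (Fin d) ℤ} (hB : IsFixBasis Γ B)
    (hnorm : ∀ (u : ℂ) (g : GL (Fin r) ℂ), u ≠ 0 → (g : Matrix (Fin r) (Fin r) ℂ) = Em lev 2 ψ u P →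
      ∀ γ ∈ qp Γ, g⁻¹ * Matrix.GeneralLinearGroup.map (algebraMap ℚ ℂ) γ * g ∈
        zar ℂ (qp Γ : Set (GL (Fin r) ℚ))) {u : ℂ} (hu : u ≠ 0) :
    ∃ X : Matrix (Fin d) (Fin d) ℂ, Em lev 2 ψ u P * bc ℂ (qm B) = bc ℂ (qm B) * X := by
  have hfix := fix_B hB
  have hfixq : ∀ γ ∈ qp Γ, (γ : Matrix (Fin r) (Fin r) ℚ) * qm B = qm B := by
    rintro _ ⟨γ, hγ, rfl⟩
    have h1 := congrArg (fun M : Matrix (Fin r) (Fin d) ℤ => M.map (Int.castRingHom ℚ)) (hfix γ hγ)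
    rw [Matrix.map_mul] at h1
    exact h1
  set g : GL (Fin r) ℂ := ofDet (Em lev 2 ψ u P) (Em_det hpol hP hu) with hg
  have hgc : (g : Matrix (Fin r) (Fin r) ℂ) = Em lev 2 ψ u P := rfl
  have hcol : ∀ γ ∈ Γ, (γ : Matrix (Fin r) (Fin r) ℤ).map (Int.cast : ℤ → ℂ) *
      (Em lev 2 ψ u P * bc ℂ (qm B)) = Em lev 2 ψ u P * bc ℂ (qm B) := by
    intro γ hγ
    have hγ' : Matrix.GeneralLinearGroup.map (Int.castRingHom ℚ) γ ∈ qp Γ := ⟨γ, hγ, rfl⟩
    have h1 := zar_fixM hfixq (hnorm u g hu hgc _ hγ')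
    have h2 : ((Matrix.GeneralLinearGroup.map (algebraMap ℚ ℂ)
        (Matrix.GeneralLinearGroup.map (Int.castRingHom ℚ) γ) : GL (Fin r) ℂ) :
        Matrix (Fin r) (Fin r) ℂ) = (γ : Matrix (Fin r) (Fin r) ℤ).map (Int.cast : ℤ → ℂ) := by
      ext i k
      change (algebraMap ℚ ℂ) ((Int.castRingHom ℚ) ((γ : Matrix (Fin r) (Fin r) ℤ) i k)) = _
      rw [eq_intCast, map_intCast]
      rfl
    have h3 : (g : Matrix (Fin r) (Fin r) ℂ) * ((g⁻¹ * Matrix.GeneralLinearGroup.map (algebraMap ℚ ℂ)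
        (Matrix.GeneralLinearGroup.map (Int.castRingHom ℚ) γ) * g : GL (Fin r) ℂ) :
        Matrix (Fin r) (Fin r) ℂ) = (γ : Matrix (Fin r) (Fin r) ℤ).map (Int.cast : ℤ → ℂ) * g := by
      rw [← h2, ← Units.val_mul, ← Units.val_mul]
      congr 1
      rw [← mul_assoc, ← mul_assoc, mul_inv_cancel, one_mul]
    rw [← Matrix.mul_assoc, ← hgc, ← h3, Matrix.mul_assoc, h1]
  have hex : ∀ l : Fin d, ∃ c : Fin d → ℂ,
      (fun i => (Em lev 2 ψ u P * bc ℂ (qm B)) i l) = bc ℂ (qm B) *ᵥ c := by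
    intro l
    refine fixed_ext hB fun γ hγ => ?_
    have h1 := hcol γ hγ
    funext i
    have h2 := congrFun (congrFun h1 i) l
    rw [Matrix.mul_apply] at h2
    exact h2
  choose c hc using hex
  refine ⟨Matrix.of fun k l => c l k, ?_⟩
  ext i l
  have h1 := congrFun (hc l) i
  rw [Matrix.mul_apply (M := bc ℂ (qm B))]
  exact h1

theorem circle_memN {ψ : Matrix (Fin r) (Fin r) ℚ} {B : Matrix (Fin r) (Fin d) ℚ}
    {Γ : Subgroup (GL (Fin r) ℚ)} {𝓔 : Set (Matrix (Fin r) (Fin r) ℚ)}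
    (hpol : IsPolarized lev 2 ψ P) (hP : IsUnit P.det) (hsym : ψᵀ = ψ)
    (hA : IsUnit (Bᵀ * ψ * B).det) (hdet : ∀ g ∈ Γ, (g : Matrix (Fin r) (Fin r) ℚ).det = 1)
    (hiso : ∀ γ ∈ Γ, (γ : Matrix (Fin r) (Fin r) ℚ)ᵀ * ψ * γ = ψ) (hAd : AdStable lev 2 ψ P Γ)
    (hfix : ∀ γ ∈ Γ, (γ : Matrix (Fin r) (Fin r) ℚ) * B = B)
    (hE : ∀ z ∈ 𝓔, ∀ y ∈ lieS Γ, y * z = z * y) (hEe : ∀ z ∈ 𝓔, z * prj ψ B = prj ψ B * z)
    (hEm : ∀ z ∈ 𝓔, ∀ u : ℂ, u ≠ 0 → Em lev 2 ψ u P * bc ℂ z = bc ℂ z * Em lev 2 ψ u P)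
    (hcent : CentZeroE ψ B 𝓔 (lieS Γ))
    (hst : ∀ u : ℂ, u ≠ 0 → ∃ X : Matrix (Fin d) (Fin d) ℂ, Em lev 2 ψ u P * bc ℂ B = bc ℂ B * X)
    {u : ℂ} (hu : u ≠ 0) {g : GL (Fin r) ℂ}
    (hg : (g : Matrix (Fin r) (Fin r) ℂ) =
      bc ℂ (prj ψ B) + Em lev 2 ψ u P * (1 - bc ℂ (prj ψ B))) :
    g ∈ zar ℂ (Γ : Set (GL (Fin r) ℚ)) := by
  have hqc : bc ℂ ψ = qc ψ := rfl
  have hψ : ψ.det ≠ 0 := by
    intro h0
    apply det_qc_ne hpol
    have h1 : (qc ψ).det = (Rat.castHom ℂ) ψ.det := (RingHom.map_det (Rat.castHom ℂ) ψ).symm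
    rw [h1, h0, map_zero]
  set e : Matrix (Fin r) (Fin r) ℂ := bc ℂ (prj ψ B) with he
  have hee : e * e = e := bc_prj_idem hA
  have heE : ∀ v : ℂ, v ≠ 0 → Em lev 2 ψ v P * e = e * Em lev 2 ψ v P := by
    intro v hv
    obtain ⟨X, hX⟩ := hst v hv
    exact prj_comm hsym hA (by rw [hqc]; exact Em_isom hpol hP hv) hX
  set T : ℂ → Matrix (Fin r) (Fin r) ℂ := fun v => e + Em lev 2 ψ v P * (1 - e) with hT
  have h1e : e * (1 - e) = 0 := by rw [Matrix.mul_sub, Matrix.mul_one, hee, sub_self]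
  have h1e' : (1 - e) * e = 0 := by rw [Matrix.sub_mul, Matrix.one_mul, hee, sub_self]
  have h1e'' : (1 - e) * (1 - e) = 1 - e := by
    rw [Matrix.mul_sub, Matrix.mul_one, h1e', sub_zero]
  have hcE : ∀ v : ℂ, v ≠ 0 → Em lev 2 ψ v P * (1 - e) = (1 - e) * Em lev 2 ψ v P := by
    intro v hv
    rw [Matrix.mul_sub, Matrix.sub_mul, heE v hv, Matrix.mul_one, Matrix.one_mul]
  have hTmul : ∀ v w : ℂ, v ≠ 0 → w ≠ 0 → T v * T w = T (v * w) := by
    intro v w hv hw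
    change (e + Em lev 2 ψ v P * (1 - e)) * (e + Em lev 2 ψ w P * (1 - e)) =
      e + Em lev 2 ψ (v * w) P * (1 - e)
    rw [Matrix.add_mul, Matrix.mul_add, Matrix.mul_add, hee, ← Em_mul hpol hP hv hw]
    have h2 : e * (Em lev 2 ψ w P * (1 - e)) = 0 := by
      rw [← Matrix.mul_assoc, ← heE w hw, Matrix.mul_assoc, h1e, Matrix.mul_zero]
    have h3 : Em lev 2 ψ v P * (1 - e) * e = 0 := by
      rw [Matrix.mul_assoc, h1e', Matrix.mul_zero]
    have h4 : Em lev 2 ψ v P * (1 - e) * (Em lev 2 ψ w P * (1 - e)) =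
        Em lev 2 ψ v P * Em lev 2 ψ w P * (1 - e) := by
      rw [hcE w hw, Matrix.mul_assoc, ← Matrix.mul_assoc (1 - e) (1 - e), h1e'', ← hcE w hw,
        ← Matrix.mul_assoc]
    rw [h2, h3, h4, add_zero, zero_add]
  have hT1 : T 1 = 1 := by
    change e + Em lev 2 ψ 1 P * (1 - e) = 1
    rw [Em_one hpol hP, Matrix.one_mul, add_sub_cancel]
  have hTiso : ∀ v : ℂ, v ≠ 0 → (T v)ᵀ * bc ℂ ψ * T v = bc ℂ ψ := by
    intro v hv
    exact tau_isom hee (heE v hv) (bc_prj_adj hsym) (by rw [hqc]; exact Em_isom hpol hP hv)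
  have hTdet : ∀ v : ℂ, v ≠ 0 → (T v).det = 1 := by
    intro v hv
    obtain ⟨w, hw⟩ := IsAlgClosed.exists_pow_nat_eq v (n := 2) (by norm_num)
    have hw0 : w ≠ 0 := by
      rintro rfl
      apply hv
      rw [← hw]
      norm_num
    have h2 := congrArg Matrix.det (hTiso w hw0)
    rw [Matrix.det_mul, Matrix.det_mul, Matrix.det_transpose, hqc] at h2
    have h3 : (T w).det * (T w).det = 1 := by
      have h4 : ((T w).det * (T w).det - 1) * (qc ψ).det = 0 := by linear_combination h2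
      rcases mul_eq_zero.1 h4 with h5 | h5
      · exact sub_eq_zero.1 h5
      · exact absurd h5 (det_qc_ne hpol)
    have h4 := hTmul w w hw0 hw0
    have h5 : w * w = v := by rw [← hw, pow_two]
    rw [h5] at h4
    rw [← h4, Matrix.det_mul, h3]
  let C : Subgroup (GL (Fin r) ℂ) :=
    { carrier := {a | ∃ v : ℂ, v ≠ 0 ∧ (a : Matrix (Fin r) (Fin r) ℂ) = T v}
      mul_mem' := by
        rintro a b ⟨v, hv, ha⟩ ⟨w, hw, hb⟩
        exact ⟨v * w, mul_ne_zero hv hw, by rw [Units.val_mul, ha, hb, hTmul v w hv hw]⟩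
      one_mem' := ⟨1, one_ne_zero, by rw [hT1]; rfl⟩
      inv_mem' := by
        rintro a ⟨v, hv, ha⟩
        refine ⟨v⁻¹, inv_ne_zero hv, ?_⟩
        have h2 : T v * T v⁻¹ = 1 := by
          rw [hTmul v v⁻¹ hv (inv_ne_zero hv), mul_inv_cancel₀ hv, hT1]
        rw [Matrix.coe_units_inv, ha]
        exact Matrix.inv_eq_right_inv h2 }
  have hBB : e * bc ℂ B = bc ℂ B := by
    rw [he, ← bc_mul]
    congr 1
    unfold prj
    rw [Matrix.mul_assoc, cof_mul hA, Matrix.mul_one]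
  have hyB : ∀ y ∈ lieS Γ, y * B = 0 := by
    intro y hy
    have h2 : y ∈ soT ψ (Set.range fun l : Fin d => fun i => B i l) := by
      refine mem_soT_of_tangent (R := ℚ) (S := mats Γ) ?_ ?_ ?_
      · rintro _ ⟨a, ha, rfl⟩
        have hid : ψ.map (algebraMap ℚ ℚ) = ψ := by ext i j; simp
        rw [hid]
        exact hiso a ha
      · rintro _ ⟨a, ha, rfl⟩ _ ⟨l, rfl⟩
        funext i
        have h3 := congrFun (congrFun (hfix a ha) i) l
        rw [Matrix.mul_apply] at h3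
        exact h3
      · intro f hf
        exact mem_van_self.mp (hy f (mem_van_self.mpr hf)) 1 ⟨1, Γ.one_mem, rfl⟩
    ext i l
    have h3 := congrFun (h2.2 _ ⟨l, rfl⟩) i
    rw [Matrix.mul_apply]
    exact h3
  have hye : ∀ y ∈ lieS Γ, y * prj ψ B = 0 := by
    intro y hy
    unfold prj
    rw [← Matrix.mul_assoc, hyB y hy, Matrix.zero_mul]
  have hey : ∀ y ∈ lieS Γ, prj ψ B * y = 0 := by
    intro y hy
    have h2 := skew hiso hy
    have h3 : ψ * y = -(yᵀ * ψ) := by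
      rw [eq_neg_iff_add_eq_zero, add_comm]
      exact h2
    unfold prj cof
    rw [Matrix.mul_assoc, Matrix.mul_assoc _ ψ y, h3, Matrix.mul_neg, Matrix.mul_assoc _ Bᵀ,
      ← Matrix.mul_assoc Bᵀ yᵀ, ← Matrix.transpose_mul, hyB y hy, Matrix.transpose_zero,
      Matrix.zero_mul, Matrix.mul_zero, neg_zero, Matrix.mul_zero]
  have hyeC : ∀ y ∈ mspan ℂ (lieS Γ), y * e = 0 ∧ e * y = 0 := by
    intro y hy
    induction hy using Submodule.span_induction with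
    | mem y hy =>
      obtain ⟨x, hx, rfl⟩ := hy
      constructor
      · change bc ℂ x * bc ℂ (prj ψ B) = 0
        rw [← bc_mul, hye x hx]
        exact Matrix.map_zero _ (map_zero _)
      · change bc ℂ (prj ψ B) * bc ℂ x = 0
        rw [← bc_mul, hey x hx]
        exact Matrix.map_zero _ (map_zero _)
    | zero => exact ⟨Matrix.zero_mul _, Matrix.mul_zero _⟩
    | add y z _ _ h1 h2 =>
      exact ⟨by rw [Matrix.add_mul, h1.1, h2.1, add_zero], by rw [Matrix.mul_add, h1.2, h2.2, add_zero]⟩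
    | smul c y _ h1 =>
      exact ⟨by rw [Matrix.smul_mul, h1.1, smul_zero], by rw [Matrix.mul_smul, h1.2, smul_zero]⟩
  have hTy : ∀ v : ℂ, v ≠ 0 → ∀ y ∈ mspan ℂ (lieS Γ), T v * y = Em lev 2 ψ v P * y := by
    intro v hv y hy
    change (e + Em lev 2 ψ v P * (1 - e)) * y = _
    rw [Matrix.add_mul, (hyeC y hy).2, zero_add, Matrix.mul_assoc, Matrix.sub_mul, Matrix.one_mul,
      (hyeC y hy).2, sub_zero]
  have hyT : ∀ v : ℂ, v ≠ 0 → ∀ y ∈ mspan ℂ (lieS Γ), y * T v = y * Em lev 2 ψ v P := by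
    intro v hv y hy
    change y * (e + Em lev 2 ψ v P * (1 - e)) = _
    rw [Matrix.mul_add, (hyeC y hy).1, zero_add, hcE v hv, ← Matrix.mul_assoc, Matrix.mul_sub,
      Matrix.mul_one, (hyeC y hy).1, sub_zero]
  have hle : lieS C ≤ mspan ℂ (lieS Γ) := by
    refine lieS_leE hψ (fun x hx h => trace_nondeg hpol hP hAd hiso hx h)
      (fun x hx => skew hiso hx) hyB hE hcent ?_ ?_ ?_ ?_
    · rintro a ⟨v, hv, ha⟩
      rw [ha]
      exact hTiso v hv
    · rintro a ⟨v, hv, ha⟩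
      rw [ha]
      change (e + Em lev 2 ψ v P * (1 - e)) * bc ℂ B = bc ℂ B
      rw [Matrix.add_mul, hBB, Matrix.mul_assoc, Matrix.sub_mul, Matrix.one_mul, hBB, sub_self,
        Matrix.mul_zero, add_zero]
    · rintro a ⟨v, hv, ha⟩ y hy
      have h2 : (T v)⁻¹ = T v⁻¹ := Matrix.inv_eq_right_inv (by
        rw [hTmul v v⁻¹ hv (inv_ne_zero hv), mul_inv_cancel₀ hv, hT1])
      have h3 : (Em lev 2 ψ v P)⁻¹ = Em lev 2 ψ v⁻¹ P := Matrix.inv_eq_right_inv (by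
        rw [Em_mul hpol hP hv (inv_ne_zero hv), mul_inv_cancel₀ hv, Em_one hpol hP])
      have h4 := hAd v hv y hy
      rw [Matrix.coe_units_inv, ha, Matrix.mul_assoc, h2, hyT _ (inv_ne_zero hv) y hy,
        ← Matrix.mul_assoc, hTy v hv y hy, ← h3]
      exact h4
    · rintro a ⟨v, hv, ha⟩ z hz
      have h2 : bc ℂ z * e = e * bc ℂ z := by
        rw [he, ← bc_mul, ← bc_mul, hEe z hz]
      rw [ha]
      change (e + Em lev 2 ψ v P * (1 - e)) * bc ℂ z = bc ℂ z * (e + Em lev 2 ψ v P * (1 - e))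
      have h3 : (1 - e) * bc ℂ z = bc ℂ z * (1 - e) := by
        rw [Matrix.sub_mul, Matrix.mul_sub, Matrix.one_mul, Matrix.mul_one, h2]
      rw [Matrix.add_mul, Matrix.mul_add, h2, Matrix.mul_assoc, h3, ← Matrix.mul_assoc, hEm z hz v hv,
        Matrix.mul_assoc]
  have hdetC : ∀ a ∈ C, (a : Matrix (Fin r) (Fin r) ℂ).det = 1 := by
    rintro a ⟨v, hv, ha⟩
    rw [ha]
    exact hTdet v hv
  have hrel := relIndex_zar hdet hdetC hle
  obtain ⟨v, hv⟩ := IsAlgClosed.exists_pow_nat_eq u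
    (Nat.factorial_pos ((zarG ℂ Γ).relIndex C))
  have hv0 : v ≠ 0 := by
    rintro rfl
    apply hu
    rw [← hv]
    exact zero_pow (Nat.factorial_pos _).ne'
  have hmem : ofDet (T v) (hTdet v hv0) ∈ C := ⟨v, hv0, rfl⟩
  have hpow : ∀ k : ℕ, ((ofDet (T v) (hTdet v hv0) ^ k : GL (Fin r) ℂ) :
      Matrix (Fin r) (Fin r) ℂ) = T (v ^ k) := by
    intro k
    induction k with
    | zero => rw [pow_zero, pow_zero, hT1]; rfl
    | succ k ih =>
      rw [pow_succ, pow_succ, Units.val_mul, ih, ofDet_coe, hTmul _ _ (pow_ne_zero k hv0) hv0]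
  have h4 := Subgroup.pow_mem_of_relIndex_ne_zero_of_dvd hrel hmem
    (n := ((zarG ℂ Γ).relIndex C).factorial)
    (fun m h0 hm => Nat.dvd_factorial h0 hm)
  have h5 : g = ofDet (T v) (hTdet v hv0) ^ ((zarG ℂ Γ).relIndex C).factorial := by
    apply Units.ext
    rw [hpow, hg, hv]
  rw [h5]
  exact (Subgroup.mem_inf.mp h4).1

theorem comm_all {ψ : Matrix (Fin r) (Fin r) ℚ} (hpol : IsPolarized lev 2 ψ P) (hP : IsUnit P.det)
    {z : Matrix (Fin r) (Fin r) ℂ}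
    (h : ∀ u : ℂ, ‖u‖ = 1 → Em lev 2 ψ u P * z = z * Em lev 2 ψ u P) {u : ℂ} (hu : u ≠ 0) :
    Em lev 2 ψ u P * z = z * Em lev 2 ψ u P := by
  obtain ⟨Q, deg, hQu, hQ⟩ := exists_basis hpol.span
  set W : Matrix (Fin r) (Fin r) ℂ := Q⁻¹ * z * Q with hW
  have hz : z = Q * W * Q⁻¹ := by
    rw [hW]
    calc z = (Q * Q⁻¹) * z * (Q * Q⁻¹) := by
          rw [Matrix.mul_nonsing_inv _ hQu, Matrix.one_mul, Matrix.mul_one]
      _ = _ := by simp only [Matrix.mul_assoc]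
  have hmul : ∀ D : Matrix (Fin r) (Fin r) ℂ, Q * D * Q⁻¹ * z = Q * (D * W) * Q⁻¹ := by
    intro D
    rw [hz]
    calc Q * D * Q⁻¹ * (Q * W * Q⁻¹) = Q * D * (Q⁻¹ * Q) * W * Q⁻¹ := by
          simp only [Matrix.mul_assoc]
      _ = _ := by rw [Matrix.nonsing_inv_mul _ hQu, Matrix.mul_one, Matrix.mul_assoc Q]
  have hmul' : ∀ D : Matrix (Fin r) (Fin r) ℂ, z * (Q * D * Q⁻¹) = Q * (W * D) * Q⁻¹ := by
    intro D
    rw [hz]
    calc Q * W * Q⁻¹ * (Q * D * Q⁻¹) = Q * W * (Q⁻¹ * Q) * D * Q⁻¹ := by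
          simp only [Matrix.mul_assoc]
      _ = _ := by rw [Matrix.nonsing_inv_mul _ hQu, Matrix.mul_one, Matrix.mul_assoc Q]
  have hcancel : ∀ A B : Matrix (Fin r) (Fin r) ℂ, Q * A * Q⁻¹ = Q * B * Q⁻¹ → A = B := by
    intro A B hAB
    have h1 : ∀ A : Matrix (Fin r) (Fin r) ℂ, Q⁻¹ * (Q * A * Q⁻¹) * Q = A := by
      intro A
      calc Q⁻¹ * (Q * A * Q⁻¹) * Q = (Q⁻¹ * Q) * A * (Q⁻¹ * Q) := by simp only [Matrix.mul_assoc]
        _ = A := by rw [Matrix.nonsing_inv_mul _ hQu, Matrix.one_mul, Matrix.mul_one]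
    rw [← h1 A, hAB, h1 B]
  have hWz : ∀ i k, deg i ≠ deg k → W i k = 0 := by
    intro i k hik
    have hne : ((deg i : ℂ) - deg k) ≠ 0 := by
      rw [sub_ne_zero]
      exact_mod_cast hik
    set v : ℂ := Complex.exp (Real.pi * Complex.I / (2 * ((deg i : ℂ) - deg k))) with hv
    have hvn : ‖v‖ = 1 := by
      have h1 : (Real.pi * Complex.I / (2 * ((deg i : ℂ) - deg k))) =
          ((Real.pi / (2 * ((deg i : ℝ) - deg k)) : ℝ) : ℂ) * Complex.I := by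
        push_cast
        ring
      rw [hv, h1, Complex.norm_exp_ofReal_mul_I]
    have hv0 : v ≠ 0 := Complex.exp_ne_zero _
    have hvp : v ^ (2 * (deg i - deg k)) = -1 := by
      rw [hv, ← Complex.exp_int_mul]
      have h1 : ((2 * (deg i - deg k) : ℤ) : ℂ) *
          (Real.pi * Complex.I / (2 * ((deg i : ℂ) - deg k))) = Real.pi * Complex.I := by
        push_cast
        field_simp
      rw [h1, Complex.exp_pi_mul_I]
    have h1 := h v hvn
    rw [Em_eq hpol hP hQu hQ] at h1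
    unfold HJ.sc at h1
    rw [hmul, hmul'] at h1
    have h2 := congrFun (congrFun (hcancel _ _ h1) i) k
    rw [Matrix.diagonal_mul, Matrix.mul_diagonal] at h2
    have h3 : v ^ (2 * deg i - 2) = -(v ^ (2 * deg k - 2)) := by
      have h4 : 2 * deg i - 2 = 2 * (deg i - deg k) + (2 * deg k - 2) := by ring
      rw [h4, zpow_add₀ hv0, hvp]
      ring
    change v ^ (2 * deg i - 2) * W i k = W i k * v ^ (2 * deg k - 2) at h2
    rw [h3] at h2
    have h5 : v ^ (2 * deg k - 2) ≠ 0 := zpow_ne_zero _ hv0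
    have h6 : 2 * (v ^ (2 * deg k - 2)) * W i k = 0 := by linear_combination -h2
    rcases mul_eq_zero.1 h6 with h7 | h7
    · exact absurd h7 (mul_ne_zero two_ne_zero h5)
    · exact h7
  rw [Em_eq hpol hP hQu hQ]
  unfold HJ.sc
  rw [hmul, hmul']
  congr 2
  ext i k
  rw [Matrix.diagonal_mul, Matrix.mul_diagonal]
  by_cases hik : deg i = deg k
  · rw [hik, mul_comm]
  · rw [hWz i k hik, mul_zero, zero_mul]

end Pool.Agent.Helper79.GP
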