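import Pool.Agent.Helper79.FZ.LemU

/-!
# GP-04: groups which normalise the Lie algebra of the monodromy group and commute with given operators

This is `Pool/Agent/Helper79/FZ/Norm.lean` and `Pool/Agent/Helper79/FZ/LemU.lean` with a further condition: the operators `x` in the centraliser condition
commute with the elements of a set `𝓔` of rational matrices, which commute with `lieS Γ`, and the group `G` commutes with `𝓔`; and `N` is given by a matrix `B` (span of the
columns; `x` kills `N`: `x * B = 0`, `g` fixes `N`: `g * B = B`).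
Copy the proofs (`cent_map`, `mem_of_normal`, `lieS_le`) with these changes: `cent_map`: the coordinates (`cd`) of `x` commute with `𝓔` as well and satisfy `x_l * B = 0`. `mem_of_normal`: `X` commutes with `𝓔` and `Y ∈ mspan K 𝔤` too, so
`X - Y` does. `lieS_le`: the elements `x` of `lieS G` commute with `𝓔`: the linear polynomials `(X z - z X) i k` (`comPoly`, `Pool/Agent/Helper79/FX/Dense.lean`, or by
`lie_mem_of_dense` with `W = ⊥`, or as in `mem_soT_of_tangent`) vanish on `G`, differentiate at `1`; `x * B = 0` in the same way from `g * B = B` (`lieS_le` uses `mem_soT_of_tangent` for this).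
-/

set_option linter.unusedSectionVars false

namespace Pool.Agent.Helper79.GP

open Matrix Module Pool.Agent.Helper88.MT Pool.Agent.Helper46.GG Pool.Agent.Helper79.HG Pool.Agent.Helper79.HH
  Pool.Agent.Helper79.HI Pool.Agent.Helper79.HJ Pool.Agent.Helper79.FZ

variable {r d : ℕ} {K : Type} [Field K] [Algebra ℚ K] {ψ : Matrix (Fin r) (Fin r) ℚ}
  {B : Matrix (Fin r) (Fin d) ℚ} {𝓔 : Set (Matrix (Fin r) (Fin r) ℚ)}
  {𝔤 : Submodule ℚ (Matrix (Fin r) (Fin r) ℚ)}

/-- No nonzero skew operator which kills the span of the columns of `B` commutes with `𝔤` and `𝓔`. -/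
def CentZeroE (ψ : Matrix (Fin r) (Fin r) ℚ) (B : Matrix (Fin r) (Fin d) ℚ)
    (𝓔 : Set (Matrix (Fin r) (Fin r) ℚ)) (𝔤 : Submodule ℚ (Matrix (Fin r) (Fin r) ℚ)) : Prop :=
  ∀ x : Matrix (Fin r) (Fin r) ℚ, xᵀ * ψ + ψ * x = 0 → x * B = 0 →
    (∀ y ∈ 𝔤, x * y = y * x) → (∀ z ∈ 𝓔, x * z = z * x) → x = 0

/-- the coordinates of a matrix over `K` -/
private noncomputable def cd {I : Type} (b : Module.Basis I ℚ K) (j : I) (x : Matrix (Fin r) (Fin r) K) :
    Matrix (Fin r) (Fin r) ℚ := Matrix.of fun a c => b.repr (x a c) j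

private theorem repr_mul_alg {I : Type} (b : Module.Basis I ℚ K) (j : I) (x : K) (q : ℚ) :
    b.repr (x * algebraMap ℚ K q) j = b.repr x j * q := by
  rw [mul_comm, ← Algebra.smul_def, map_smul, Finsupp.smul_apply, smul_eq_mul, mul_comm]

private theorem repr_alg_mul {I : Type} (b : Module.Basis I ℚ K) (j : I) (x : K) (q : ℚ) :
    b.repr (algebraMap ℚ K q * x) j = q * b.repr x j := by
  rw [← Algebra.smul_def, map_smul, Finsupp.smul_apply, smul_eq_mul]

private theorem cd_mul_map {I : Type} (b : Module.Basis I ℚ K) (j : I)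
    (x : Matrix (Fin r) (Fin r) K) (y : Matrix (Fin r) (Fin r) ℚ) :
    cd b j (x * y.map (algebraMap ℚ K)) = cd b j x * y := by
  ext a c
  simp only [cd, Matrix.of_apply, Matrix.mul_apply, Matrix.map_apply, map_sum,
    Finsupp.finsetSum_apply, repr_mul_alg]

private theorem cd_map_mul {I : Type} (b : Module.Basis I ℚ K) (j : I)
    (x : Matrix (Fin r) (Fin r) K) (y : Matrix (Fin r) (Fin r) ℚ) :
    cd b j (y.map (algebraMap ℚ K) * x) = y * cd b j x := by
  ext a c
  simp only [cd, Matrix.of_apply, Matrix.mul_apply, Matrix.map_apply, map_sum,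
    Finsupp.finsetSum_apply, repr_alg_mul]

private theorem cd_add {I : Type} (b : Module.Basis I ℚ K) (j : I)
    (x y : Matrix (Fin r) (Fin r) K) : cd b j (x + y) = cd b j x + cd b j y := by
  ext a c
  simp only [cd, Matrix.of_apply, Matrix.add_apply, map_add, Finsupp.add_apply]

private theorem cd_zero {I : Type} (b : Module.Basis I ℚ K) (j : I) :
    cd b j (0 : Matrix (Fin r) (Fin r) K) = 0 := by
  ext a c
  simp only [cd, Matrix.of_apply, Matrix.zero_apply, map_zero, Finsupp.zero_apply]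

private theorem cd_transpose {I : Type} (b : Module.Basis I ℚ K) (j : I)
    (x : Matrix (Fin r) (Fin r) K) : cd b j xᵀ = (cd b j x)ᵀ := by
  ext a c
  rfl

private theorem eq_zero_of_cd {I : Type} (b : Module.Basis I ℚ K)
    {x : Matrix (Fin r) (Fin r) K} (h : ∀ j, cd b j x = 0) : x = 0 := by
  ext a c
  rw [Matrix.zero_apply]
  have h1 : b.repr (x a c) = 0 := by
    ext j
    have h2 := congrFun (congrFun (h j) a) c
    simpa only [cd, Matrix.of_apply, Matrix.zero_apply, Finsupp.zero_apply] using h2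
  rwa [map_eq_zero_iff _ b.repr.injective] at h1

private theorem cd_mulVec {I : Type} (b : Module.Basis I ℚ K) (j : I)
    (x : Matrix (Fin r) (Fin r) K) (v : Fin r → ℚ) (i : Fin r) :
    b.repr ((x *ᵥ (fun i => algebraMap ℚ K (v i))) i) j = (cd b j x *ᵥ v) i := by
  simp only [cd, Matrix.of_apply, Matrix.mulVec, dotProduct, map_sum, Finsupp.finsetSum_apply,
    repr_mul_alg]

private theorem cd_trace {I : Type} (b : Module.Basis I ℚ K) (j : I)
    (x : Matrix (Fin r) (Fin r) K) : b.repr x.trace j = (cd b j x).trace := by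
  simp only [cd, Matrix.trace, Matrix.diag_apply, Matrix.of_apply, map_sum,
    Finsupp.finsetSum_apply]

private theorem cd_mem {I : Type} (b : Module.Basis I ℚ K)
    {x : Matrix (Fin r) (Fin r) K} (hx : x ∈ mspan K 𝔤) (j : I) : cd b j x ∈ 𝔤 := by
  rw [mspan_map, mem_smap_iff b] at hx
  obtain ⟨y, hy, hyx⟩ := hx j
  have h1 : y = cd b j x := by
    apply (unc ℚ).injective
    rw [show (unc ℚ) y = _ from hyx]
    rfl
  rwa [← h1]


private theorem cd_mul_mapB {I : Type} (b : Module.Basis I ℚ K) (j : I)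
    (x : Matrix (Fin r) (Fin r) K) (B : Matrix (Fin r) (Fin d) ℚ) (h : x * B.map (algebraMap ℚ K) = 0) :
    cd b j x * B = 0 := by
  ext a c
  have h1 := congrFun (congrFun h a) c
  simp only [Matrix.mul_apply, Matrix.map_apply, Matrix.zero_apply] at h1
  have h2 := congrArg (fun z => b.repr z j) h1
  simp only [map_sum, Finsupp.finsetSum_apply, repr_mul_alg, map_zero, Finsupp.zero_apply] at h2
  simpa only [cd, Matrix.of_apply, Matrix.mul_apply, Matrix.zero_apply] using h2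

private theorem cent_mapE (hcent : CentZeroE ψ B 𝓔 𝔤) {x : Matrix (Fin r) (Fin r) K}
    (h1 : xᵀ * ψ.map (algebraMap ℚ K) + ψ.map (algebraMap ℚ K) * x = 0)
    (h2 : x * B.map (algebraMap ℚ K) = 0) (h3 : ∀ y ∈ mspan K 𝔤, x * y = y * x)
    (h4 : ∀ z ∈ 𝓔, x * z.map (algebraMap ℚ K) = z.map (algebraMap ℚ K) * x) :
    x = 0 := by
  let b := Module.Basis.ofVectorSpace ℚ K
  refine eq_zero_of_cd b fun j => hcent _ ?_ ?_ ?_ ?_
  · rw [← cd_transpose, ← cd_mul_map, ← cd_map_mul, ← cd_add, h1, cd_zero]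
  · exact cd_mul_mapB b j x B h2
  · intro y hy
    rw [← cd_mul_map, ← cd_map_mul, h3 _ (map_mem_mspan hy)]
  · intro z hz
    rw [← cd_mul_map, ← cd_map_mul, h4 z hz]

private theorem mspan_ind {p : Matrix (Fin r) (Fin r) K → Prop}
    (h0 : ∀ x ∈ 𝔤, p (x.map (algebraMap ℚ K))) (hz : p 0) (ha : ∀ x y, p x → p y → p (x + y))
    (hs : ∀ (c : K) x, p x → p (c • x)) {x : Matrix (Fin r) (Fin r) K} (hx : x ∈ mspan K 𝔤) : p x := by
  unfold mspan at hx
  refine Submodule.span_induction (p := fun x _ => p x) ?_ hz (fun x y _ _ => ha x y)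
    (fun c x _ => hs c x) hx
  rintro _ ⟨y, hy, rfl⟩
  exact h0 y hy

private theorem mspan_lie (hlie : ∀ x ∈ 𝔤, ∀ y ∈ 𝔤, x * y - y * x ∈ 𝔤)
    {x y : Matrix (Fin r) (Fin r) K} (hx : x ∈ mspan K 𝔤) (hy : y ∈ mspan K 𝔤) :
    x * y - y * x ∈ mspan K 𝔤 := by
  revert y
  refine mspan_ind (p := fun x => ∀ {y : Matrix (Fin r) (Fin r) K}, y ∈ mspan K 𝔤 →
    x * y - y * x ∈ mspan K 𝔤) ?_ ?_ ?_ ?_ hx
  · intro x hx y hy
    refine mspan_ind (p := fun y => x.map (algebraMap ℚ K) * y - y * x.map (algebraMap ℚ K) ∈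
      mspan K 𝔤) ?_ ?_ ?_ ?_ hy
    · intro y hy
      have h1 := map_mem_mspan (K := K) (hlie x hx y hy)
      rwa [Matrix.map_sub _ (fun a b => map_sub _ a b), Matrix.map_mul, Matrix.map_mul] at h1
    · simp
    · intro y z hy hz
      have h1 := (mspan K 𝔤).add_mem hy hz
      convert h1 using 1
      noncomm_ring
    · intro c y hy
      have h1 := (mspan K 𝔤).smul_mem c hy
      rwa [smul_sub, ← Matrix.mul_smul, ← Matrix.smul_mul] at h1
  · intro y _
    simp
  · intro x z hx hz y hy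
    have h1 := (mspan K 𝔤).add_mem (hx hy) (hz hy)
    convert h1 using 1
    noncomm_ring
  · intro c x hx y hy
    have h1 := (mspan K 𝔤).smul_mem c (hx hy)
    rwa [smul_sub, ← Matrix.smul_mul, ← Matrix.mul_smul] at h1

private theorem mspan_skew (hskew : ∀ x ∈ 𝔤, xᵀ * ψ + ψ * x = 0)
    {x : Matrix (Fin r) (Fin r) K} (hx : x ∈ mspan K 𝔤) :
    xᵀ * ψ.map (algebraMap ℚ K) + ψ.map (algebraMap ℚ K) * x = 0 := by
  refine mspan_ind (p := fun x => xᵀ * ψ.map (algebraMap ℚ K) + ψ.map (algebraMap ℚ K) * x = 0)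
    ?_ ?_ ?_ ?_ hx
  · intro x hx
    rw [← Matrix.transpose_map, ← Matrix.map_mul, ← Matrix.map_mul,
      ← Matrix.map_add _ (fun a b => map_add _ a b), hskew x hx]
    exact Matrix.map_zero _ (map_zero _)
  · simp
  · intro x y hx hy
    rw [Matrix.transpose_add, Matrix.add_mul, Matrix.mul_add, add_add_add_comm, hx, hy, add_zero]
  · intro c x hx
    rw [Matrix.transpose_smul, Matrix.smul_mul, Matrix.mul_smul, ← smul_add, hx, smul_zero]

private theorem exists_dual (htr : ∀ x ∈ 𝔤, (∀ y ∈ 𝔤, (x * y).trace = 0) → x = 0)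
    (X : Matrix (Fin r) (Fin r) K) :
    ∃ Y ∈ mspan K 𝔤, ∀ z ∈ mspan K 𝔤, (Y * z).trace = (X * z).trace := by
  obtain ⟨φ, hφ⟩ : ∃ φ : Matrix (Fin r) (Fin r) K →ₗ[K] Module.Dual K (mspan K 𝔤),
      ∀ A z, φ A z = (A * (z : Matrix (Fin r) (Fin r) K)).trace :=
    ⟨LinearMap.mk₂ K (fun A (z : mspan K 𝔤) => (A * (z : Matrix (Fin r) (Fin r) K)).trace)
      (fun A C z => by rw [Matrix.add_mul, Matrix.trace_add])
      (fun c A z => by rw [Matrix.smul_mul, Matrix.trace_smul])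
      (fun A z w => by rw [Submodule.coe_add, Matrix.mul_add, Matrix.trace_add])
      (fun c A z => by rw [Submodule.coe_smul, Matrix.mul_smul, Matrix.trace_smul]),
      fun A z => rfl⟩
  have hinj : Function.Injective (φ.comp (mspan K 𝔤).subtype) := by
    rw [← LinearMap.ker_eq_bot, LinearMap.ker_eq_bot']
    intro m hm
    apply Subtype.ext
    refine trace_nondeg_map htr m.2 fun y hy => ?_
    have h1 := congrFun (congrArg DFunLike.coe hm) ⟨y, hy⟩
    rw [LinearMap.comp_apply, hφ] at h1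
    exact h1
  have hsurj : Function.Surjective (φ.comp (mspan K 𝔤).subtype) :=
    (LinearMap.injective_iff_surjective_of_finrank_eq_finrank
      (Subspace.dual_finrank_eq).symm).mp hinj
  obtain ⟨Y, hY⟩ := hsurj (φ X)
  refine ⟨Y, Y.2, fun z hz => ?_⟩
  have h1 := congrFun (congrArg DFunLike.coe hY) ⟨z, hz⟩
  rw [LinearMap.comp_apply, hφ, hφ] at h1
  exact h1


private theorem mspan_killB (hB : ∀ x ∈ 𝔤, x * B = 0) {x : Matrix (Fin r) (Fin r) K}
    (hx : x ∈ mspan K 𝔤) : x * B.map (algebraMap ℚ K) = 0 := by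
  refine mspan_ind (p := fun x => x * B.map (algebraMap ℚ K) = 0) ?_ ?_ ?_ ?_ hx
  · intro x hx
    rw [← Matrix.map_mul, hB x hx]
    exact Matrix.map_zero _ (map_zero _)
  · simp
  · intro x y hx hy
    rw [Matrix.add_mul, hx, hy, add_zero]
  · intro c x hx
    rw [Matrix.smul_mul, hx, smul_zero]

private theorem mspan_comm (hE : ∀ z ∈ 𝓔, ∀ y ∈ 𝔤, y * z = z * y) {z : Matrix (Fin r) (Fin r) ℚ}
    (hz : z ∈ 𝓔) {x : Matrix (Fin r) (Fin r) K} (hx : x ∈ mspan K 𝔤) :
    x * z.map (algebraMap ℚ K) = z.map (algebraMap ℚ K) * x := by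
  refine mspan_ind (p := fun x => x * z.map (algebraMap ℚ K) = z.map (algebraMap ℚ K) * x)
    ?_ ?_ ?_ ?_ hx
  · intro x hx
    rw [← Matrix.map_mul, ← Matrix.map_mul, hE z hz x hx]
  · simp
  · intro x y hx hy
    rw [Matrix.add_mul, Matrix.mul_add, hx, hy]
  · intro c x hx
    rw [Matrix.smul_mul, Matrix.mul_smul, hx]

private theorem mem_of_normalE (htr : ∀ x ∈ 𝔤, (∀ y ∈ 𝔤, (x * y).trace = 0) → x = 0)
    (hlie : ∀ x ∈ 𝔤, ∀ y ∈ 𝔤, x * y - y * x ∈ 𝔤) (hskew : ∀ x ∈ 𝔤, xᵀ * ψ + ψ * x = 0)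
    (hB : ∀ x ∈ 𝔤, x * B = 0) (hE : ∀ z ∈ 𝓔, ∀ y ∈ 𝔤, y * z = z * y)
    (hcent : CentZeroE ψ B 𝓔 𝔤) {X : Matrix (Fin r) (Fin r) K}
    (h1 : Xᵀ * ψ.map (algebraMap ℚ K) + ψ.map (algebraMap ℚ K) * X = 0)
    (h2 : X * B.map (algebraMap ℚ K) = 0)
    (h3 : ∀ y ∈ mspan K 𝔤, X * y - y * X ∈ mspan K 𝔤)
    (h3' : ∀ z ∈ 𝓔, X * z.map (algebraMap ℚ K) = z.map (algebraMap ℚ K) * X) : X ∈ mspan K 𝔤 := by
  obtain ⟨Y, hY, hYX⟩ := exists_dual htr X
  have h4 : X - Y = 0 := by
    refine cent_mapE hcent ?_ ?_ ?_ ?_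
    · rw [Matrix.transpose_sub, Matrix.sub_mul, Matrix.mul_sub, sub_add_sub_comm, h1,
        mspan_skew hskew hY, sub_zero]
    · rw [Matrix.sub_mul, h2, mspan_killB hB hY, sub_zero]
    · intro z hz
      have h5 : X * z - z * X - (Y * z - z * Y) = 0 := by
        refine trace_nondeg_map htr ((mspan K 𝔤).sub_mem (h3 z hz) (mspan_lie hlie hY hz))
          fun w hw => ?_
        have h6 : ∀ A : Matrix (Fin r) (Fin r) K,
            ((A * z - z * A) * w).trace = (A * (z * w - w * z)).trace := by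
          intro A
          rw [Matrix.sub_mul, Matrix.mul_sub, Matrix.trace_sub, Matrix.trace_sub,
            Matrix.mul_assoc A z w, Matrix.mul_assoc z A w, Matrix.trace_mul_comm z (A * w),
            Matrix.mul_assoc A w z]
        rw [Matrix.sub_mul, Matrix.trace_sub, h6, h6, hYX _ (mspan_lie hlie hz hw), sub_self]
      have h7 : (X - Y) * z - z * (X - Y) = 0 := by
        rw [← h5, Matrix.sub_mul, Matrix.mul_sub]
        abel
      exact sub_eq_zero.mp h7
    · intro z hz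
      rw [Matrix.sub_mul, Matrix.mul_sub, h3' z hz, mspan_comm hE hz hY]
  rw [sub_eq_zero.mp h4]
  exact hY

private lemma fz_mapid {F : Type} [Field F] (A : Matrix (Fin r) (Fin r) F) :
    A.map (algebraMap F F) = A := by
  ext i j; simp

theorem lieS_leE {Γ : Subgroup (GL (Fin r) ℚ)} {G : Subgroup (GL (Fin r) K)} (hψ : ψ.det ≠ 0)
    (htr : ∀ x ∈ lieS Γ, (∀ y ∈ lieS Γ, (x * y).trace = 0) → x = 0)
    (hskew : ∀ x ∈ lieS Γ, xᵀ * ψ + ψ * x = 0) (hB : ∀ x ∈ lieS Γ, x * B = 0)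
    (hE : ∀ z ∈ 𝓔, ∀ y ∈ lieS Γ, y * z = z * y)
    (hcent : CentZeroE ψ B 𝓔 (lieS Γ))
    (hG1 : ∀ g ∈ G, (g : Matrix (Fin r) (Fin r) K)ᵀ * ψ.map (algebraMap ℚ K) * g =
      ψ.map (algebraMap ℚ K))
    (hG2 : ∀ g ∈ G, (g : Matrix (Fin r) (Fin r) K) * B.map (algebraMap ℚ K) = B.map (algebraMap ℚ K))
    (hG3 : ∀ g ∈ G, ∀ y ∈ mspan K (lieS Γ), (g : Matrix (Fin r) (Fin r) K) * y *
      ((g⁻¹ : GL (Fin r) K) : Matrix (Fin r) (Fin r) K) ∈ mspan K (lieS Γ))
    (hG4 : ∀ g ∈ G, ∀ z ∈ 𝓔, (g : Matrix (Fin r) (Fin r) K) * z.map (algebraMap ℚ K) =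
      z.map (algebraMap ℚ K) * g) :
    lieS G ≤ mspan K (lieS Γ) := by
  intro x hx
  have hψ' : (ψ.map (algebraMap ℚ K)).det ≠ 0 := by
    have h0 : (ψ.map (algebraMap ℚ K)).det = algebraMap ℚ K ψ.det := (RingHom.map_det _ _).symm
    rw [h0]
    exact (map_ne_zero (algebraMap ℚ K)).mpr hψ
  have h6 : x ∈ soT (ψ.map (algebraMap ℚ K))
      {w : Fin r → K | ∃ k, w = fun i => algebraMap ℚ K (B i k)} := by
    refine mem_soT_of_tangent (R := K) (S := mats G) ?_ ?_ ?_
    · rintro _ ⟨g, hg, rfl⟩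
      rw [fz_mapid]
      exact hG1 g hg
    · rintro _ ⟨g, hg, rfl⟩ w ⟨k, rfl⟩
      funext i
      have h1 := congrFun (congrFun (hG2 g hg) i) k
      exact h1
    · intro f hf
      exact mem_van_self.mp (hx f (mem_van_self.mpr hf)) 1 ⟨1, G.one_mem, rfl⟩
  refine mem_of_normalE htr lieS_lie hskew hB hE hcent h6.1 ?_ ?_ ?_
  · ext i k
    have h1 := congrFun (h6.2 _ ⟨k, rfl⟩) i
    exact h1
  · intro y hy
    have h7 := lie_mem_of_dense (k := K) (F := K) (c := 0) hψ' hG1 (W := mspan K (lieS Γ))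
      (y := y) (fun γ hγ => by
        rw [fz_mapid, fz_mapid, sub_zero]
        exact hG3 γ hγ y hy) hx
    rwa [fz_mapid] at h7
  · intro z hz
    have h7 := lie_mem_of_dense (k := K) (F := K) (c := z.map (algebraMap ℚ K)) hψ' hG1
      (W := ⊥) (y := z.map (algebraMap ℚ K)) (fun γ hγ => by
        rw [fz_mapid, fz_mapid, hG4 γ hγ z hz, Matrix.mul_assoc, γ.mul_inv, Matrix.mul_one, sub_self]
        exact Submodule.zero_mem _) hx
    rw [fz_mapid, Submodule.mem_bot, sub_eq_zero] at h7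
    exact h7

end Pool.Agent.Helper79.GP
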