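import Pool.Agent.Helper79.GP.MainT
import Pool.Agent.Helper79.GP.BaseG

/-!
# GP: the Mumford-Tate conjecture for the generic fibre implies it for most of the fibres

(helper79)
-/

set_option linter.unusedSectionVars false

namespace Pool.Agent.Helper79.GP

open Matrix Module Pool.Agent.Helper79.BB Pool.Agent.Helper79.HH Pool.Agent.Helper79.HG
  Pool.Agent.Helper79.HI Pool.Agent.Helper64.Per Pool.Agent.Helper88.MT Pool.Agent.Helper79.DD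
  Pool.Agent.Helper46.GG Pool.Agent.Helper79.FX Pool.Agent.Helper79.FY Pool.Agent.Helper79.FZ
  Pool.Agent.Helper79.GB

theorem monoGroup_eq {κ : Type} [Field κ] [Algebra κ ℂ] {m r ℓ : ℕ} [Fact ℓ.Prime]
    {U : Set (Fin m → ℂ)} {w : (Fin m → ℂ) → ℂ} {S : MvPolynomial (Fin m) κ}
    {P : (Fin m → ℂ) → Matrix (Fin r) (Fin r) ℂ}
    {Y : ∀ k : ℕ, CoverData κ (Fin r → ZMod (ℓ ^ k)) U w} {lev : Fin r → ℤ} {j : ℤ}
    {ψ : Matrix (Fin r) (Fin r) ℤ} (h : IsLocalSystem S P Y lev j ψ) (hne : U.Nonempty) :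
    monoGroup S P Y = MG P Y S ψ h.dom := by
  apply le_antisymm
  · rw [monoGroup, Subgroup.closure_le]
    intro γ hγ
    exact (mem_MG_iff h hne γ).2 hγ
  · intro γ hγ
    exact Subgroup.subset_closure ((mem_MG_iff h hne γ).1 hγ)

theorem genericSpread {κ : IntermediateField ℚ Qbar} [FiniteDimensional ℚ κ] {m : ℕ} (hm : 1 ≤ m)
    {F : FamiliesM κ m} {μ r₀ r : ℕ} (E : F.Sub μ r₀ (Fin r)) {S : MvPolynomial (Fin m) κ}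
    {U : Set (Fin m → ℂ)} {w : (Fin m → ℂ) → ℂ} (hw : IsEtaleCover κ S U μ w)
    {P : (Fin m → ℂ) → Matrix (Fin r) (Fin r) ℂ} (hP : E.IsPeriod U w P) {ℓ : ℕ} [Fact ℓ.Prime]
    (Y : ∀ k : ℕ, CoverData κ (Fin r → ZMod (ℓ ^ k)) U w) {lev : Fin r → ℤ}
    (hlev : ∀ x, 0 ≤ lev x ∧ lev x ≤ 2) {ψ : Matrix (Fin r) (Fin r) ℤ}
    (h : IsLocalSystem S P Y lev 2 ψ) {t₀ : Fin m → ℂ} (ht₀ : t₀ ∈ U)
    (halg : ∀ i, IsAlgebraic ℚ (t₀ i))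
    (h₀ : AtPoint κ w t₀ fun _ _ act => Q1Gen act (HI.pts Y t₀) lev (P t₀) (monoGroup S P Y))
    {J : Type} [Fintype J] (ω : Module.Basis J ℚ κ)
    {D : ℕ} (hD : 1 ≤ D) (e : ℕ) (N' : Finset (ℕ × J)) (hN' : ∃ j, (0, j) ∈ N') :
    ∃ C θ₀ : ℝ, 0 < θ₀ ∧ ∀ X : ℕ, 1 ≤ X → ((SmallQ1G ω N' S P Y lev D e X).ncard : ℝ) ≤
      C * (X : ℝ) ^ ((((D + 1 + m * (e + 1)) * Module.finrank ℚ κ + N'.card : ℕ) : ℝ) - θ₀) := by
  obtain ⟨ρ₀, hρ₀, h₁⟩ := h₀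
  rw [monoGroup_eq h ⟨t₀, ht₀⟩] at h₁
  refine spreadT hm E hw hP Y hlev h ht₀ halg ?_ ω hD e N' hN'
  intro Γ hΓ hfin _ _ _ _ _
  obtain ⟨G₀, hG₀, hT⟩ := base_of_gen hΓ hfin h₁
  exact ⟨ρ₀, hρ₀, G₀, hG₀, _, hT⟩

end Pool.Agent.Helper79.GP
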