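import Pool.Agent.Helper79.FX.Dense

/-!
# GP-02: finite orbits of the monodromy group and fixed vectors

`Γ ≤ M` is a subgroup of finite index. If `Γ` fixes `v` then the orbit `M v` is finite: `γ v` depends only on the coset `γ Γ`
(`Γ.relIndex M ≠ 0`: the quotient `M ⧸ Γ.subgroupOf M` is finite). Conversely let `M v` be finite and `DenseG (qp Γ)`: the stabiliser of
`v` in `GL r ℤ` has finite relative index in `M`, so in `Γ` (the orbit `Γ v` is finite: orbit-stabiliser, `MulAction.index_stabilizer` or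
`Subgroup.index_ne_zero_of_finite`, or: an injective map from cosets to the orbit), its image under the map to `GL r ℚ` has finite relative index in `qp Γ`,
and the linear polynomials `(X v - v) i` (in `GLPoly r ℚ`, variables `X (some (i, k))`, see `zar_fix` in `Pool/Agent/Helper79/GB/TypeX.lean`) vanish on
it, so on `qp Γ` by `DenseG`. The same for a rational matrix `x` and `γ ↦ γ x γ⁻¹` (stabiliser: the `γ` which commute with `x`; linear polynomials `(X x - x X) i k`,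
see `comPoly` in `Pool/Agent/Helper79/FX/Dense.lean`, `evGL_rename`).
-/

set_option linter.unusedSectionVars false

namespace Pool.Agent.Helper79.GP

open Matrix Pool.Agent.Helper88.MT Pool.Agent.Helper79.HG Pool.Agent.Helper79.HI Pool.Agent.Helper79.FX

variable {r : ℕ} {Γ M : Subgroup (GL (Fin r) ℤ)}

private theorem relIndex_of_orbit {G α : Type*} [Group G] [MulAction G α] (M : Subgroup G) (v : α)
    (h : {z | ∃ γ ∈ M, γ • v = z}.Finite) : (MulAction.stabilizer G v).relIndex M ≠ 0 := by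
  have e1 : (MulAction.stabilizer G v).subgroupOf M = MulAction.stabilizer M v := by
    ext γ
    rfl
  have e2 : MulAction.orbit M v = {z | ∃ γ ∈ M, γ • v = z} := by
    ext z
    constructor
    · rintro ⟨γ, rfl⟩
      exact ⟨γ.1, γ.2, rfl⟩
    · rintro ⟨γ, hγ, rfl⟩
      exact ⟨⟨γ, hγ⟩, rfl⟩
  rw [Subgroup.relIndex, e1, MulAction.index_stabilizer, e2]
  exact ((Set.ncard_pos h).2 ⟨v, 1, M.one_mem, one_smul _ _⟩).ne'

private theorem orbit_of_relIndex {G α : Type*} [Group G] [MulAction G α] {Γ M : Subgroup G} (v : α)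
    (hfin : Γ.relIndex M ≠ 0) (h : ∀ γ ∈ Γ, γ • v = v) : {z | ∃ γ ∈ M, γ • v = z}.Finite := by
  have hle : Γ ≤ MulAction.stabilizer G v := fun γ hγ => h γ hγ
  have h1 : (MulAction.stabilizer G v).relIndex M ≠ 0 := by
    intro h0
    have h2 := Subgroup.relIndex_dvd_of_le_left M hle
    rw [h0, zero_dvd_iff] at h2
    exact hfin h2
  have e1 : (MulAction.stabilizer G v).subgroupOf M = MulAction.stabilizer M v := by
    ext γ
    rfl
  have e2 : MulAction.orbit M v = {z | ∃ γ ∈ M, γ • v = z} := by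
    ext z
    constructor
    · rintro ⟨γ, rfl⟩
      exact ⟨γ.1, γ.2, rfl⟩
    · rintro ⟨γ, hγ, rfl⟩
      exact ⟨⟨γ, hγ⟩, rfl⟩
  rw [Subgroup.relIndex, e1, MulAction.index_stabilizer, e2] at h1
  exact Set.finite_of_ncard_ne_zero h1

/-- the action on vectors -/
private def vact (r : ℕ) : MulAction (GL (Fin r) ℤ) (Fin r → ℤ) where
  smul γ v := (γ : Matrix (Fin r) (Fin r) ℤ) *ᵥ v
  one_smul v := by
    change ((1 : GL (Fin r) ℤ) : Matrix (Fin r) (Fin r) ℤ) *ᵥ v = v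
    rw [Units.val_one, Matrix.one_mulVec]
  mul_smul a b v := by
    change ((a * b : GL (Fin r) ℤ) : Matrix (Fin r) (Fin r) ℤ) *ᵥ v = _ *ᵥ (_ *ᵥ v)
    rw [Units.val_mul, Matrix.mulVec_mulVec]

/-- the matrix in `ℚ` -/
private def mq (γ : GL (Fin r) ℤ) : Matrix (Fin r) (Fin r) ℚ :=
  (γ : Matrix (Fin r) (Fin r) ℤ).map (Int.cast : ℤ → ℚ)

private theorem mq_one : mq (1 : GL (Fin r) ℤ) = 1 := by
  rw [mq, Units.val_one]
  exact Matrix.map_one _ Int.cast_zero Int.cast_one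

private theorem mq_mul (a b : GL (Fin r) ℤ) : mq (a * b) = mq a * mq b := by
  rw [mq, Units.val_mul]
  exact Matrix.map_mul (f := Int.castRingHom ℚ)

private theorem mq_inv_mul (a : GL (Fin r) ℤ) : mq a⁻¹ * mq a = 1 := by
  rw [← mq_mul, inv_mul_cancel, mq_one]

private theorem mq_mul_inv (a : GL (Fin r) ℤ) : mq a * mq a⁻¹ = 1 := by
  rw [← mq_mul, mul_inv_cancel, mq_one]

/-- the action on rational matrices by conjugation -/
private def cact (r : ℕ) : MulAction (GL (Fin r) ℤ) (Matrix (Fin r) (Fin r) ℚ) where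
  smul γ x := mq γ * x * mq γ⁻¹
  one_smul x := by
    change mq 1 * x * mq (1 : GL (Fin r) ℤ)⁻¹ = x
    rw [inv_one, mq_one, one_mul, mul_one]
  mul_smul a b x := by
    change mq (a * b) * x * mq (a * b)⁻¹ = mq a * (mq b * x * mq b⁻¹) * mq a⁻¹
    rw [_root_.mul_inv_rev, mq_mul, mq_mul]
    simp only [mul_assoc]

private theorem conj_eq_iff (γ : GL (Fin r) ℤ) (x : Matrix (Fin r) (Fin r) ℚ) :
    mq γ * x * mq γ⁻¹ = x ↔ mq γ * x = x * mq γ := by
  constructor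
  · intro h
    calc mq γ * x = mq γ * x * (mq γ⁻¹ * mq γ) := by rw [mq_inv_mul, mul_one]
      _ = (mq γ * x * mq γ⁻¹) * mq γ := by simp only [mul_assoc]
      _ = x * mq γ := by rw [h]
  · intro h
    rw [h, mul_assoc, mq_mul_inv, mul_one]

/-- the stabiliser of a rational vector -/
private def vstab (v : Fin r → ℚ) : Subgroup (GL (Fin r) ℚ) where
  carrier := {g | (g : Matrix (Fin r) (Fin r) ℚ) *ᵥ v = v}
  one_mem' := by
    change ((1 : GL (Fin r) ℚ) : Matrix (Fin r) (Fin r) ℚ) *ᵥ v = v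
    rw [Units.val_one, Matrix.one_mulVec]
  mul_mem' := by
    intro a b ha hb
    change ((a * b : GL (Fin r) ℚ) : Matrix (Fin r) (Fin r) ℚ) *ᵥ v = v
    have ha' : (a : Matrix (Fin r) (Fin r) ℚ) *ᵥ v = v := ha
    have hb' : (b : Matrix (Fin r) (Fin r) ℚ) *ᵥ v = v := hb
    rw [Units.val_mul, ← Matrix.mulVec_mulVec, hb', ha']
  inv_mem' := by
    intro a ha
    have ha' : (a : Matrix (Fin r) (Fin r) ℚ) *ᵥ v = v := ha
    change ((a⁻¹ : GL (Fin r) ℚ) : Matrix (Fin r) (Fin r) ℚ) *ᵥ v = v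
    calc ((a⁻¹ : GL (Fin r) ℚ) : Matrix (Fin r) (Fin r) ℚ) *ᵥ v
        = ((a⁻¹ : GL (Fin r) ℚ) : Matrix (Fin r) (Fin r) ℚ) *ᵥ ((a : Matrix (Fin r) (Fin r) ℚ) *ᵥ v) := by
          rw [ha']
      _ = v := by rw [Matrix.mulVec_mulVec, ← Units.val_mul, inv_mul_cancel, Units.val_one,
          Matrix.one_mulVec]

/-- the centraliser of a rational matrix -/
private def cstab (x : Matrix (Fin r) (Fin r) ℚ) : Subgroup (GL (Fin r) ℚ) where
  carrier := {g | (g : Matrix (Fin r) (Fin r) ℚ) * x = x * (g : Matrix (Fin r) (Fin r) ℚ)}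
  one_mem' := by
    change ((1 : GL (Fin r) ℚ) : Matrix (Fin r) (Fin r) ℚ) * x = x * ((1 : GL (Fin r) ℚ) : Matrix (Fin r) (Fin r) ℚ)
    rw [Units.val_one, one_mul, mul_one]
  mul_mem' := by
    intro a b ha hb
    have ha' : (a : Matrix (Fin r) (Fin r) ℚ) * x = x * (a : Matrix (Fin r) (Fin r) ℚ) := ha
    have hb' : (b : Matrix (Fin r) (Fin r) ℚ) * x = x * (b : Matrix (Fin r) (Fin r) ℚ) := hb
    change ((a * b : GL (Fin r) ℚ) : Matrix (Fin r) (Fin r) ℚ) * x = x * ((a * b : GL (Fin r) ℚ) : Matrix (Fin r) (Fin r) ℚ)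
    rw [Units.val_mul, mul_assoc, hb', ← mul_assoc, ha', mul_assoc]
  inv_mem' := by
    intro a ha
    have ha' : (a : Matrix (Fin r) (Fin r) ℚ) * x = x * (a : Matrix (Fin r) (Fin r) ℚ) := ha
    change ((a⁻¹ : GL (Fin r) ℚ) : Matrix (Fin r) (Fin r) ℚ) * x = x * ((a⁻¹ : GL (Fin r) ℚ) : Matrix (Fin r) (Fin r) ℚ)
    have h1 : ((a⁻¹ : GL (Fin r) ℚ) : Matrix (Fin r) (Fin r) ℚ) * (a : Matrix (Fin r) (Fin r) ℚ) = 1 := by
      rw [← Units.val_mul, inv_mul_cancel, Units.val_one]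
    have h2 : (a : Matrix (Fin r) (Fin r) ℚ) * ((a⁻¹ : GL (Fin r) ℚ) : Matrix (Fin r) (Fin r) ℚ) = 1 := by
      rw [← Units.val_mul, mul_inv_cancel, Units.val_one]
    calc ((a⁻¹ : GL (Fin r) ℚ) : Matrix (Fin r) (Fin r) ℚ) * x
        = ((a⁻¹ : GL (Fin r) ℚ) : Matrix (Fin r) (Fin r) ℚ) * (x * ((a : Matrix (Fin r) (Fin r) ℚ) * ((a⁻¹ : GL (Fin r) ℚ) : Matrix (Fin r) (Fin r) ℚ))) := by
          rw [h2, mul_one]
      _ = ((a⁻¹ : GL (Fin r) ℚ) : Matrix (Fin r) (Fin r) ℚ) * ((x * (a : Matrix (Fin r) (Fin r) ℚ)) * ((a⁻¹ : GL (Fin r) ℚ) : Matrix (Fin r) (Fin r) ℚ)) := by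
          rw [mul_assoc x]
      _ = x * ((a⁻¹ : GL (Fin r) ℚ) : Matrix (Fin r) (Fin r) ℚ) := by
          rw [← ha', ← mul_assoc, ← mul_assoc, h1, one_mul]

private theorem coe_map (γ : GL (Fin r) ℤ) :
    ((Matrix.GeneralLinearGroup.map (Int.castRingHom ℚ) γ : GL (Fin r) ℚ) : Matrix (Fin r) (Fin r) ℚ) = mq γ := rfl

private theorem mulVec_cast (γ : GL (Fin r) ℤ) (v : Fin r → ℤ) :
    mq γ *ᵥ (fun i => ((v i : ℤ) : ℚ)) =
      fun i => ((((γ : Matrix (Fin r) (Fin r) ℤ) *ᵥ v) i : ℤ) : ℚ) := by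
  funext i
  simp only [Matrix.mulVec, dotProduct, mq, Matrix.map_apply]
  push_cast
  rfl

theorem fixed_of_orbit (hΓ : Γ ≤ M) (hdense : DenseG (qp Γ)) {v : Fin r → ℤ}
    (hfin : {z | ∃ γ ∈ M, (γ : Matrix (Fin r) (Fin r) ℤ) *ᵥ v = z}.Finite) :
    ∀ γ ∈ Γ, (γ : Matrix (Fin r) (Fin r) ℤ) *ᵥ v = v := by
  set vq : Fin r → ℚ := fun i => ((v i : ℤ) : ℚ) with hvq
  have hiff : ∀ γ : GL (Fin r) ℤ, mq γ *ᵥ vq = vq ↔ (γ : Matrix (Fin r) (Fin r) ℤ) *ᵥ v = v := by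
    intro γ
    rw [hvq, mulVec_cast]
    constructor
    · intro h
      funext i
      have := congrFun h i
      exact_mod_cast this
    · intro h
      rw [h]
  have hrel : (vstab vq).relIndex (qp Γ) ≠ 0 := by
    rw [qp, ← Subgroup.relIndex_comap]
    let := vact r
    have h1 : (MulAction.stabilizer (GL (Fin r) ℤ) v).relIndex Γ ≠ 0 := by
      apply relIndex_of_orbit
      apply hfin.subset
      rintro z ⟨γ, hγ, rfl⟩
      exact ⟨γ, hΓ hγ, rfl⟩
    have h2 : (vstab vq).comap (Matrix.GeneralLinearGroup.map (Int.castRingHom ℚ)) =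
        MulAction.stabilizer (GL (Fin r) ℤ) v := by
      ext γ
      exact hiff γ
    rw [h2]
    exact h1
  have hpol : ∀ (i : Fin r) (g : GL (Fin r) ℚ),
      evGL g (∑ k, MvPolynomial.C (vq k) * MvPolynomial.X (some (i, k)) - MvPolynomial.C (vq i) :
        GLPoly r ℚ) = ((g : Matrix (Fin r) (Fin r) ℚ) *ᵥ vq) i - vq i := by
    intro i g
    unfold evGL
    rw [map_sub, map_sum, MvPolynomial.aeval_C, Matrix.mulVec, dotProduct]
    congr 1
    refine Finset.sum_congr rfl fun k _ => ?_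
    rw [map_mul, MvPolynomial.aeval_C, MvPolynomial.aeval_X]
    exact mul_comm _ _
  intro γ hγ
  rw [← hiff]
  funext i
  have h3 := hdense (vstab vq) hrel _ (fun g hg _ => by
    rw [hpol i g]
    have hg' : (g : Matrix (Fin r) (Fin r) ℚ) *ᵥ vq = vq := hg
    rw [hg', sub_self]) (Matrix.GeneralLinearGroup.map (Int.castRingHom ℚ) γ) ⟨γ, hγ, rfl⟩
  rw [hpol, sub_eq_zero] at h3
  exact h3

theorem orbit_of_fixed (hfin : Γ.relIndex M ≠ 0) {v : Fin r → ℤ}
    (h : ∀ γ ∈ Γ, (γ : Matrix (Fin r) (Fin r) ℤ) *ᵥ v = v) :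
    {z | ∃ γ ∈ M, (γ : Matrix (Fin r) (Fin r) ℤ) *ᵥ v = z}.Finite := by
  let := vact r
  exact orbit_of_relIndex v hfin h

theorem comm_of_conj (hΓ : Γ ≤ M) (hdense : DenseG (qp Γ)) {x : Matrix (Fin r) (Fin r) ℚ}
    (hfin : {z | ∃ γ ∈ M, (γ : Matrix (Fin r) (Fin r) ℤ).map (Int.cast : ℤ → ℚ) * x *
      ((γ⁻¹ : GL (Fin r) ℤ) : Matrix (Fin r) (Fin r) ℤ).map (Int.cast : ℤ → ℚ) = z}.Finite) :
    ∀ γ ∈ Γ, (γ : Matrix (Fin r) (Fin r) ℤ).map (Int.cast : ℤ → ℚ) * x =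
      x * (γ : Matrix (Fin r) (Fin r) ℤ).map (Int.cast : ℤ → ℚ) := by
  have hrel : (cstab x).relIndex (qp Γ) ≠ 0 := by
    rw [qp, ← Subgroup.relIndex_comap]
    let := cact r
    have h1 : (MulAction.stabilizer (GL (Fin r) ℤ) x).relIndex Γ ≠ 0 := by
      apply relIndex_of_orbit
      apply hfin.subset
      rintro z ⟨γ, hγ, rfl⟩
      exact ⟨γ, hΓ hγ, rfl⟩
    have h2 : (cstab x).comap (Matrix.GeneralLinearGroup.map (Int.castRingHom ℚ)) =
        MulAction.stabilizer (GL (Fin r) ℤ) x := by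
      ext γ
      exact (conj_eq_iff γ x).symm
    rw [h2]
    exact h1
  have hpol : ∀ (i k : Fin r) (g : GL (Fin r) ℚ),
      evGL g (∑ j, MvPolynomial.X (some (i, j)) * MvPolynomial.C (x j k) -
        ∑ j, MvPolynomial.C (x i j) * MvPolynomial.X (some (j, k)) : GLPoly r ℚ) =
        ((g : Matrix (Fin r) (Fin r) ℚ) * x) i k - (x * (g : Matrix (Fin r) (Fin r) ℚ)) i k := by
    intro i k g
    unfold evGL
    rw [map_sub, map_sum, map_sum, Matrix.mul_apply, Matrix.mul_apply]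
    congr 1
    · refine Finset.sum_congr rfl fun j _ => ?_
      rw [map_mul, MvPolynomial.aeval_C, MvPolynomial.aeval_X]
      rfl
    · refine Finset.sum_congr rfl fun j _ => ?_
      rw [map_mul, MvPolynomial.aeval_C, MvPolynomial.aeval_X]
      rfl
  intro γ hγ
  ext i k
  have h3 := hdense (cstab x) hrel _ (fun g hg _ => by
    rw [hpol i k g]
    have hg' : (g : Matrix (Fin r) (Fin r) ℚ) * x = x * (g : Matrix (Fin r) (Fin r) ℚ) := hg
    rw [hg', sub_self]) (Matrix.GeneralLinearGroup.map (Int.castRingHom ℚ) γ) ⟨γ, hγ, rfl⟩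
  rw [hpol, sub_eq_zero] at h3
  exact h3

theorem conj_of_comm (hfin : Γ.relIndex M ≠ 0) {x : Matrix (Fin r) (Fin r) ℚ}
    (h : ∀ γ ∈ Γ, (γ : Matrix (Fin r) (Fin r) ℤ).map (Int.cast : ℤ → ℚ) * x =
      x * (γ : Matrix (Fin r) (Fin r) ℤ).map (Int.cast : ℤ → ℚ)) :
    {z | ∃ γ ∈ M, (γ : Matrix (Fin r) (Fin r) ℤ).map (Int.cast : ℤ → ℚ) * x *
      ((γ⁻¹ : GL (Fin r) ℤ) : Matrix (Fin r) (Fin r) ℤ).map (Int.cast : ℤ → ℚ) = z}.Finite := by
  let := cact r
  exact orbit_of_relIndex x hfin fun γ hγ => (conj_eq_iff γ x).2 (h γ hγ)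

end Pool.Agent.Helper79.GP
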