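import Pool.Agent.Helper79.GP.MainT
import Pool.Agent.Helper79.GP.BaseN
import Pool.Agent.Helper79.GP.HodgeN
import Pool.Agent.Helper79.GP.Orb

/-!
# GP: the Mumford-Tate conjecture for most fibres from the constant part

(helper79)
-/

set_option linter.unusedSectionVars false

namespace Pool.Agent.Helper79.GP

open Matrix Module Pool.Agent.Helper79.BB Pool.Agent.Helper79.HH Pool.Agent.Helper79.HG
  Pool.Agent.Helper79.HI Pool.Agent.Helper64.Per Pool.Agent.Helper88.MT Pool.Agent.Helper79.DD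
  Pool.Agent.Helper46.GG Pool.Agent.Helper79.FX Pool.Agent.Helper79.FY Pool.Agent.Helper79.FZ
  Pool.Agent.Helper79.GB Pool.Agent.Helper79.HJ

theorem kill_of_fix {r d : ℕ} {Γ : Subgroup (GL (Fin r) ℚ)} {B : Matrix (Fin r) (Fin d) ℚ}
    (h : ∀ γ ∈ Γ, (γ : Matrix (Fin r) (Fin r) ℚ) * B = B) : ∀ x ∈ lieS Γ, x * B = 0 := by
  intro x hx
  have h1 := kills (Γ := Γ) (N := Submodule.span ℚ (Set.range fun k => fun i => B i k)) (by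
    intro γ hγ v hv
    refine Submodule.span_induction (p := fun v _ => (γ : Matrix (Fin r) (Fin r) ℚ) *ᵥ v = v) ?_ ?_ ?_ ?_ hv
    · rintro _ ⟨k, rfl⟩
      funext i
      have h2 := congrFun (congrFun (h γ hγ) i) k
      exact h2
    · rw [mulVec_zero]
    · intro u v _ _ hu hv
      rw [mulVec_add, hu, hv]
    · intro c v _ hv
      rw [mulVec_smul, hv]) x hx
  ext i k
  have h2 := congrFun (h1 (fun i => B i k) (Submodule.subset_span ⟨k, rfl⟩)) i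
  exact h2

theorem comm_of_fix {r : ℕ} {ψ : Matrix (Fin r) (Fin r) ℚ} (hψ : ψ.det ≠ 0) {Γ : Subgroup (GL (Fin r) ℚ)}
    (hiso : ∀ γ ∈ Γ, (γ : Matrix (Fin r) (Fin r) ℚ)ᵀ * ψ * γ = ψ) {z : Matrix (Fin r) (Fin r) ℚ}
    (h : ∀ γ ∈ Γ, (γ : Matrix (Fin r) (Fin r) ℚ) * z = z * γ) : ∀ y ∈ lieS Γ, y * z = z * y := by
  intro y hy
  have hid : ∀ A : Matrix (Fin r) (Fin r) ℚ, A.map (algebraMap ℚ ℚ) = A := by
    intro A
    ext i j
    simp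
  have h1 := lie_mem_of_dense (k := ℚ) (F := ℚ) (W := ⊥) (y := z) (c := z) hψ hiso (by
    intro γ hγ
    rw [hid, hid, h γ hγ, Matrix.mul_assoc, γ.mul_inv, Matrix.mul_one, sub_self]
    exact Submodule.zero_mem _) hy
  rw [hid, Submodule.mem_bot, sub_eq_zero] at h1
  exact h1

theorem isHodgeElt_of_Em {r : ℕ} {lev : Fin r → ℤ} {ψ : Matrix (Fin r) (Fin r) ℚ}
    {P : Matrix (Fin r) (Fin r) ℂ} (hpol : IsPolarized lev 2 ψ P) (hP : IsUnit P.det) {v : ℂ}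
    (hv : ‖v‖ = 1) {a : GL (Fin r) ℂ} (ha : (a : Matrix (Fin r) (Fin r) ℂ) = Em lev 2 ψ v P) :
    IsHodgeElt lev P (v ^ 2) a := by
  refine ⟨by rw [norm_pow, hv, one_pow], fun p x hx => ?_⟩
  obtain ⟨Q, deg, hQu, hQ⟩ := exists_basis hpol.span
  rw [ha, Em_eq hpol hP hQu hQ, sc_mulVec hpol hQu hQ _ hx]
  congr 1
  have h1 : (2 : ℤ) * p - 2 = 2 * (p - 1) := by ring
  rw [h1, _root_.zpow_mul]
  norm_cast

theorem mostN {κ : IntermediateField ℚ Qbar} [FiniteDimensional ℚ κ] {m : ℕ} (hm : 1 ≤ m)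
    {F : FamiliesM κ m} {μ r₀ r : ℕ} (E : F.Sub μ r₀ (Fin r)) {S : MvPolynomial (Fin m) κ}
    {U : Set (Fin m → ℂ)} {w : (Fin m → ℂ) → ℂ} (hw : IsEtaleCover κ S U μ w)
    {P : (Fin m → ℂ) → Matrix (Fin r) (Fin r) ℂ} (hP : E.IsPeriod U w P) {ℓ : ℕ} [Fact ℓ.Prime]
    (Y : ∀ k : ℕ, CoverData κ (Fin r → ZMod (ℓ ^ k)) U w) {lev : Fin r → ℤ}
    (hlev : ∀ x, 0 ≤ lev x ∧ lev x ≤ 2) {ψ : Matrix (Fin r) (Fin r) ℤ}
    (h : IsLocalSystem S P Y lev 2 ψ) {d : ℕ} {B : Matrix (Fin r) (Fin d) ℤ}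
    {𝓔 : Set (Matrix (Fin r) (Fin r) ℚ)} (hN : NoCentF S P Y ψ B 𝓔) {t₀ : Fin m → ℂ} (ht₀ : t₀ ∈ U)
    (halg : ∀ i, IsAlgebraic ℚ (t₀ i))
    (h₀ : AtPoint κ w t₀ fun _ _ act => Q1Part act (HI.pts Y t₀) lev ψ (P t₀) B 𝓔)
    {J : Type} [Fintype J] (ω : Module.Basis J ℚ κ)
    {D : ℕ} (hD : 1 ≤ D) (e : ℕ) (N' : Finset (ℕ × J)) (hN' : ∃ j, (0, j) ∈ N') :
    ∃ C θ₀ : ℝ, 0 < θ₀ ∧ ∀ X : ℕ, 1 ≤ X → ((SmallQ1G ω N' S P Y lev D e X).ncard : ℝ) ≤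
      C * (X : ℝ) ^ ((((D + 1 + m * (e + 1)) * Module.finrank ℚ κ + N'.card : ℕ) : ℝ) - θ₀) := by
  classical
  obtain ⟨ρ, hρ, hρ1, ρ', hρ2, G', hG', hE, hconn, heq⟩ := h₀
  have hv := h.vhs
  have hwb := hw.branch
  have hdetP := hv.det ⟨U, w, P⟩ Relation.ReflTransGen.refl t₀ ht₀
  have hpol : IsPolarized lev 2 (qm ψ) (P t₀) :=
    hv.pol ⟨U, w, P⟩ Relation.ReflTransGen.refl t₀ ht₀
  have hne : U.Nonempty := ⟨t₀, ht₀⟩
  obtain ⟨H, hHψ, hHs⟩ := exists_lattice hlev hdetP hpol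
  have hψd : ψ.det ≠ 0 := by rw [← hHψ]; exact H.det_ne_zero
  have hsym : ψᵀ = ψ := by rw [← hHψ]; exact H.symm
  have hψq : (qm ψ).det ≠ 0 := det_map_ne hψd
  have hsymq : (qm ψ)ᵀ = qm ψ := by
    rw [qm, ← Matrix.transpose_map, hsym]
  refine spreadT hm E hw hP Y hlev h ht₀ halg ?_ ω hD e N' hN'
  intro Γ hMG hfin' hΓ hfin hdense hdet1 hperf
  have hiso : ∀ γ ∈ qp Γ, (γ : Matrix (Fin r) (Fin r) ℚ)ᵀ * qm ψ * γ = qm ψ := FX.isom_qp hv.dom hΓ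
  have hset : ∀ v : Fin r → ℤ, {z | ∃ γ : GL (Fin r) ℤ, IsMono S P Y γ ∧
      (γ : Matrix (Fin r) (Fin r) ℤ) *ᵥ v = z} =
      {z | ∃ γ ∈ MG P Y S ψ h.dom, (γ : Matrix (Fin r) (Fin r) ℤ) *ᵥ v = z} := by
    intro v
    ext z
    simp only [Set.mem_ofPred_eq, mem_MG_iff h hne]
  have hconj : ∀ x : Matrix (Fin r) (Fin r) ℚ, FinConj S P Y x ↔
      {z | ∃ γ ∈ MG P Y S ψ h.dom, (γ : Matrix (Fin r) (Fin r) ℤ).map (Int.cast : ℤ → ℚ) * x *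
      ((γ⁻¹ : GL (Fin r) ℤ) : Matrix (Fin r) (Fin r) ℤ).map (Int.cast : ℤ → ℚ) = z}.Finite := by
    intro x
    have h1 : {z | ∃ γ : GL (Fin r) ℤ, IsMono S P Y γ ∧
        (γ : Matrix (Fin r) (Fin r) ℤ).map (Int.cast : ℤ → ℚ) * x *
        ((γ⁻¹ : GL (Fin r) ℤ) : Matrix (Fin r) (Fin r) ℤ).map (Int.cast : ℤ → ℚ) = z} =
        {z | ∃ γ ∈ MG P Y S ψ h.dom, (γ : Matrix (Fin r) (Fin r) ℤ).map (Int.cast : ℤ → ℚ) * x *
        ((γ⁻¹ : GL (Fin r) ℤ) : Matrix (Fin r) (Fin r) ℤ).map (Int.cast : ℤ → ℚ) = z} := by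
      ext z
      simp only [Set.mem_ofPred_eq, mem_MG_iff h hne]
    unfold FinConj
    rw [h1]
  have hBas : IsFixBasis Γ B := by
    intro v
    rw [← hN.basis v, hset v]
    exact ⟨fun h1 => orbit_of_fixed hfin' h1, fun h1 => fixed_of_orbit hMG hdense h1⟩
  have hfixΓ := fix_B hBas
  have hfixq : ∀ g ∈ qp Γ, (g : Matrix (Fin r) (Fin r) ℚ) * qm B = qm B := by
    rintro _ ⟨γ, hγ, rfl⟩
    have h1 := congrArg (fun M : Matrix (Fin r) (Fin d) ℤ => M.map (Int.castRingHom ℚ)) (hfixΓ γ hγ)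
    simp only [Matrix.map_mul] at h1
    exact h1
  -- the Hodge side
  have hst : ∀ u : ℂ, u ≠ 0 → ∃ X : Matrix (Fin d) (Fin d) ℂ,
      Em lev 2 (qm ψ) u (P t₀) * bc ℂ (qm B) = bc ℂ (qm B) * X := by
    intro u hu
    refine hodge_stable hpol hdetP hBas ?_ hu
    intro u g hu hg
    exact FX.normal hv hne hwb hΓ hfin hdet1 (b := ⟨U, w, P⟩) Relation.ReflTransGen.refl ht₀ hu hg
  have hA : IsUnit ((qm B)ᵀ * qm ψ * qm B).det := by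
    obtain ⟨X, hX⟩ := hst Complex.I Complex.I_ne_zero
    exact nondeg hpol hdetP (fun c hc => inj_rat hBas hc) hX
  have hcof : ∀ g ∈ qp Γ, cof (qm ψ) (qm B) * (g : Matrix (Fin r) (Fin r) ℚ) = cof (qm ψ) (qm B) := by
    intro g hg
    have hid : ∀ {m n : ℕ} (A : Matrix (Fin m) (Fin n) ℚ), bc ℚ A = A := by
      intro m n A
      ext i j
      simp [bc]
    have h1 := cof_comm (K := ℚ) hsymq hA (g := (g : Matrix (Fin r) (Fin r) ℚ)) (x := 1) (by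
      rw [hid]
      exact hiso g hg) (by
      rw [hid, Matrix.mul_one]
      exact hfixq g hg)
    rwa [hid, Matrix.one_mul] at h1
  have hcomE : ∀ z ∈ 𝓔, ∀ γ ∈ Γ, (γ : Matrix (Fin r) (Fin r) ℤ).map (Int.cast : ℤ → ℚ) * z =
      z * (γ : Matrix (Fin r) (Fin r) ℤ).map (Int.cast : ℤ → ℚ) := fun z hz =>
    comm_of_conj hMG hdense ((hconj z).1 (hN.const z hz))
  have hElie : ∀ z ∈ 𝓔, ∀ y ∈ lieS (qp Γ), y * z = z * y := by
    intro z hz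
    refine comm_of_fix hψq hiso ?_
    rintro _ ⟨γ, hγ, rfl⟩
    exact hcomE z hz γ hγ
  have hEe : ∀ z ∈ 𝓔, z * prj (qm ψ) (qm B) = prj (qm ψ) (qm B) * z := by
    intro z hz
    refine comm_prj_of_comm hψq hsymq hBas hA ?_ (hcomE z hz)
    intro γ hγ
    exact hiso _ ⟨γ, hγ, rfl⟩
  have hcz : CentZeroE (qm ψ) (qm B) 𝓔 (lieS (qp Γ)) := by
    intro x hx1 hx2 hx3 hx4
    refine hN.cent x hx1 hx2 hx4 ((hconj x).2 (conj_of_comm hfin' fun γ hγ => ?_))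
    exact hdense.comm_of_lie (fun y hy => (hx3 y hy).symm) _ ⟨γ, hγ, rfl⟩
  have hAd := adStable hv hwb ht₀ hΓ hfin hdet1
  have htr : ∀ x ∈ lieS (qp Γ), (∀ y ∈ lieS (qp Γ), (x * y).trace = 0) → x = 0 := fun x hx h0 =>
    trace_nondeg hpol hdetP hAd hiso hx h0
  have hEm : ∀ z ∈ 𝓔, ∀ u : ℂ, u ≠ 0 →
      Em lev 2 (qm ψ) u (P t₀) * bc ℂ z = bc ℂ z * Em lev 2 (qm ψ) u (P t₀) := by
    intro z hz u hu
    refine comm_all hpol hdetP ?_ hu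
    intro v hv1
    have hv0 : v ≠ 0 := by
      rintro rfl
      rw [norm_zero] at hv1
      exact zero_ne_one hv1
    have h1 := (hE z hz).1 (v ^ 2) (ofDet _ (Em_det hpol hdetP hv0))
      (isHodgeElt_of_Em hpol hdetP hv1 (ofDet_coe _ _))
    rwa [ofDet_coe] at h1
  -- the Galois side
  obtain ⟨G₁, hG₁, h1⟩ := galois_clause h (etale_base h.dom hw) hMG hfin' hdense ht₀ ht₀ halg halg
  have hf := HI.finiteIndex_comap
    (AlgEquiv.restrictScalarsHom ℚ : (Qbar ≃ₐ[kapM κ t₀ (w t₀)] Qbar) →* (Qbar ≃ₐ[ℚ] Qbar)) hG₁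
  obtain ⟨G₀, hG₀, hG₀f, hgal⟩ := exists_galN (ρ := ρ) hf (by
    intro σ hσ
    have hg : IsGalElt (fun z => (AlgEquiv.restrictScalarsHom ℚ :
        (Qbar ≃ₐ[kapM κ t₀ (w t₀)] Qbar) →* (Qbar ≃ₐ[ℚ] Qbar)) σ z) (HI.pts Y t₀) (ρ σ) :=
      fun k v i z hz => hρ σ k v i z hz
    exact (h1 _ hσ (ρ σ) (ρ σ) hg hg).2) hψq hsym hA hdet1 hiso hfixq htr hElie hEe hcz hρ1 hρ2 hG'
    (fun z hz => (hE z hz).2)
  refine ⟨ρ, hρ, G₀, hG₀f, ?_⟩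
  refine base_of_part hG₀ hA hfixq hcof hgal ?_ hconn heq hG₀f
  intro u a ha
  obtain ⟨v, hv1, hv2⟩ := exists_sqrt ha.1
  have hv0 : v ≠ 0 := by
    intro h
    rw [h, norm_zero] at hv1
    exact zero_ne_one hv1
  have haE := hodgeElt_iff hpol hdetP hv1 hv2 ha
  have hbc : bc ℂ (qm B) = B.map (Int.cast : ℤ → ℂ) := by
    ext i j
    simp [bc, qm]
  obtain ⟨X, hX⟩ := hst v hv0
  obtain ⟨X', hX'⟩ := hst v⁻¹ (inv_ne_zero hv0)
  have hinv : ∀ {v : ℂ} {X X' : Matrix (Fin d) (Fin d) ℂ}, v ≠ 0 →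
      Em lev 2 (qm ψ) v (P t₀) * bc ℂ (qm B) = bc ℂ (qm B) * X →
      Em lev 2 (qm ψ) v⁻¹ (P t₀) * bc ℂ (qm B) = bc ℂ (qm B) * X' → X * X' = 1 := by
    intro v X X' hv0 hX hX'
    have h2 : bc ℂ (qm B) * (X * X') = bc ℂ (qm B) := by
      rw [← Matrix.mul_assoc, ← hX, Matrix.mul_assoc, ← hX', ← Matrix.mul_assoc,
        Em_mul hpol hdetP hv0 (inv_ne_zero hv0), mul_inv_cancel₀ hv0, Em_one hpol hdetP,
        Matrix.one_mul]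
    have h3 := congrArg (fun M => bc ℂ (cof (qm ψ) (qm B)) * M) h2
    simp only [← Matrix.mul_assoc] at h3
    rwa [bc_cof_mul hA, Matrix.one_mul] at h3
  have hXX' := hinv hv0 hX hX'
  have hX'X : X' * X = 1 := hinv (inv_ne_zero hv0) hX' (by rw [inv_inv]; exact hX)
  let x : GL (Fin d) ℂ := ⟨X, X', hXX', hX'X⟩
  have hax : (a : Matrix (Fin r) (Fin r) ℂ) * bc ℂ (qm B) = bc ℂ (qm B) * (x : Matrix (Fin d) (Fin d) ℂ) := by
    rw [haE]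
    exact hX
  have hiso' : (a : Matrix (Fin r) (Fin r) ℂ)ᵀ * bc ℂ (qm ψ) * (a : Matrix (Fin r) (Fin r) ℂ) = bc ℂ (qm ψ) := by
    rw [haE]
    exact Em_isom hpol hdetP hv0
  have hae := prj_comm (K := ℂ) hsymq hA hiso' hax
  refine ⟨x, by rw [← hbc]; exact hax, (emb hA ℂ x)⁻¹ * a, ?_, by group⟩
  refine circle_memN hpol hdetP hsymq hA hdet1 hiso hAd hfixq hElie hEe hEm hcz hst hv0 ?_
  rw [← haE]
  have h2 := emb_mul_tau hA hax hae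
  rw [Units.val_mul]
  conv_lhs => rw [h2]
  rw [← emb_coe hA x, ← Matrix.mul_assoc, (emb hA ℂ x).inv_mul, Matrix.one_mul]

end Pool.Agent.Helper79.GP
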