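import Pool.Agent.Helper79.GB.SMain
import Pool.Agent.Helper79.GP.PointT

/-!
# GP: the Mumford-Tate conjecture at most points, with an abstract group at the base point

The proof is that of `spreadG` in `Pool/Agent/Helper79/GB/SMain.lean` (helper79)
-/

set_option linter.unusedSectionVars false

namespace Pool.Agent.Helper79.GP

open Matrix Module Pool.Agent.Helper79.BB Pool.Agent.Helper79.HH Pool.Agent.Helper79.HG
  Pool.Agent.Helper79.HI Pool.Agent.Helper64.Per Pool.Agent.Helper88.MT Pool.Agent.Helper79.DD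
  Pool.Agent.Helper46.GG Pool.Agent.Helper79.FX Pool.Agent.Helper79.FY Pool.Agent.Helper79.FZ
  Pool.Agent.Helper79.GB

theorem spreadT {κ : IntermediateField ℚ Qbar} [FiniteDimensional ℚ κ] {m : ℕ} (hm : 1 ≤ m)
    {F : FamiliesM κ m} {μ r₀ r : ℕ} (E : F.Sub μ r₀ (Fin r)) {S : MvPolynomial (Fin m) κ}
    {U : Set (Fin m → ℂ)} {w : (Fin m → ℂ) → ℂ} (hw : IsEtaleCover κ S U μ w)
    {P : (Fin m → ℂ) → Matrix (Fin r) (Fin r) ℂ} (hP : E.IsPeriod U w P) {ℓ : ℕ} [Fact ℓ.Prime]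
    (Y : ∀ k : ℕ, CoverData κ (Fin r → ZMod (ℓ ^ k)) U w) {lev : Fin r → ℤ}
    (hlev : ∀ x, 0 ≤ lev x ∧ lev x ≤ 2) {ψ : Matrix (Fin r) (Fin r) ℤ}
    (h : IsLocalSystem S P Y lev 2 ψ) {t₀ : Fin m → ℂ} (ht₀ : t₀ ∈ U)
    (halg : ∀ i, IsAlgebraic ℚ (t₀ i))
    (h₀ : ∀ Γ : Subgroup (GL (Fin r) ℤ), Γ ≤ MG P Y S ψ h.dom → Γ.relIndex (MG P Y S ψ h.dom) ≠ 0 →
      Γ ≤ MM (S.map (algebraMap κ ℂ)) ⟨U, w, P⟩ (ψ.map (Int.cast : ℤ → ℚ)) h.vhs.dom →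
      Γ.relIndex (MM (S.map (algebraMap κ ℂ)) ⟨U, w, P⟩ (ψ.map (Int.cast : ℤ → ℚ)) h.vhs.dom) ≠ 0 →
      DenseG (qp Γ) → (∀ γ ∈ qp Γ, (γ : Matrix (Fin r) (Fin r) ℚ).det = 1) →
      (∀ L : Submodule ℚ (Matrix (Fin r) (Fin r) ℚ),
        (∀ x ∈ lieS (qp Γ), ∀ y ∈ lieS (qp Γ), x * y - y * x ∈ L) → lieS (qp Γ) ≤ L) →
      ∃ ρ₀ : (Qbar ≃ₐ[kapM κ t₀ (w t₀)] Qbar) →* GL (Fin r) ℤ_[ℓ],
        IsGalRep (fun σ z => σ z) (HI.pts Y t₀) ρ₀ ∧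
        ∃ G₀ : Subgroup (Qbar ≃ₐ[kapM κ t₀ (w t₀)] Qbar), G₀.FiniteIndex ∧
          ∃ T₀ : Subgroup (GL (Fin r) ℂ), BaseT Γ lev (P t₀) ρ₀ G₀ T₀)
    {J : Type} [Fintype J] (ω : Module.Basis J ℚ κ)
    {D : ℕ} (hD : 1 ≤ D) (e : ℕ) (N' : Finset (ℕ × J)) (hN' : ∃ j, (0, j) ∈ N') :
    ∃ C θ₀ : ℝ, 0 < θ₀ ∧ ∀ X : ℕ, 1 ≤ X → ((SmallQ1G ω N' S P Y lev D e X).ncard : ℝ) ≤
      C * (X : ℝ) ^ ((((D + 1 + m * (e + 1)) * Module.finrank ℚ κ + N'.card : ℕ) : ℝ) - θ₀) := by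
  classical
  have hv := h.vhs
  have hwb := hw.branch
  have hdetP := hv.det ⟨U, w, P⟩ Relation.ReflTransGen.refl t₀ ht₀
  have hpol : IsPolarized lev 2 (ψ.map (Int.cast : ℤ → ℚ)) (P t₀) :=
    hv.pol ⟨U, w, P⟩ Relation.ReflTransGen.refl t₀ ht₀
  have hne : U.Nonempty := ⟨t₀, ht₀⟩
  obtain ⟨Γ, hΓ, hfin, hdense, hdet1, hperf⟩ := exists_group hv hwb ht₀
  have hiso := FX.isom_qp hv.dom hΓ
  have hMG : Γ ≤ MG P Y S ψ h.dom := fun γ hγ => mem_MG_of_MM h hne (hΓ hγ)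
  have hMM : MG P Y S ψ h.dom = MM (S.map (algebraMap κ ℂ)) ⟨U, w, P⟩ (ψ.map (Int.cast : ℤ → ℚ))
      h.vhs.dom :=
    le_antisymm (fun γ hγ => mem_MM_of_MG h hγ) fun γ hγ => mem_MG_of_MM h hne hγ
  have hfin' : Γ.relIndex (MG P Y S ψ h.dom) ≠ 0 := by
    rw [hMM]
    exact hfin
  obtain ⟨ρ₀, hρ₀, G₀, hG₀, T₀, hT₀⟩ := h₀ Γ hMG hfin' hΓ hfin hdense hdet1 hperf
  obtain ⟨H, hHψ, hHs⟩ := exists_lattice hlev hdetP hpol
  have hψd : ψ.det ≠ 0 := by rw [← hHψ]; exact H.det_ne_zero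
  have hψq : (ψ.map (Int.cast : ℤ → ℚ)).det ≠ 0 := det_map_ne hψd
  obtain ⟨K, hK⟩ : ∃ K, Level Γ ℓ K := group_big hψq hiso hdet1 hperf ℓ
  -- the counts
  obtain ⟨A, hA⟩ := relG_count hm E (periodMap_of_VHS hv) hwb hP ω hD e N' hN'
  set δ : ℕ := 2 * Fintype.card (Fin r) + 2 with hδ
  obtain ⟨C₂, θ₂, hθ₂, h₂⟩ := levelG_count hm h hw K ω hD e N' hN'
  obtain ⟨C, θ₀, hθ₀, hC⟩ := sum_bound (Finset.univ : Finset (Fin 2))
    (f := fun p X => if p = 0 then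
      ((RelPointG ω N' S (⟨U, w, P⟩ : Element m (Fin r)) δ D e X).ncard : ℝ)
      else ((SmallGalG ω N' S P Y K D e X).ncard : ℝ))
    (n := (((D + 1 + m * (e + 1)) * Module.finrank ℚ κ + N'.card : ℕ) : ℝ)) (by
      intro p _
      fin_cases p
      · exact ⟨Real.exp (((δ : ℝ) + 2) ^ A), 1 / ((δ : ℝ) + 2) ^ A, by positivity, fun X hX => hA δ X hX⟩
      · exact ⟨C₂, θ₂, hθ₂, h₂⟩)
  refine ⟨C, θ₀, hθ₀, fun X hX => le_trans ?_ (hC X hX)⟩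
  rw [Fin.sum_univ_two]
  simp only [if_true, Fin.isValue, one_ne_zero, if_false]
  have hsub : SmallQ1G ω N' S P Y lev D e X ⊆
      RelPointG ω N' S (⟨U, w, P⟩ : Element m (Fin r)) δ D e X ∪ SmallGalG ω N' S P Y K D e X := by
    rintro a ⟨ha, θ, hθ, hq, b, hb, htb, hne'⟩
    by_contra hcon
    rw [Set.mem_union, not_or] at hcon
    obtain ⟨hA, hB⟩ := hcon
    refine hne' ?_
    have hbv := fg_base hb
    have hbs := chart_sys h hb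
    have halgt : ∀ i, IsAlgebraic ℚ (pointU ω N' a θ i) := algebraic_pointU ω N' a θ
    have hrel : ¬ HasRelationM b.U b.w (pmat b) (pointU ω N' a θ) κ δ := fun hrel =>
      hA ⟨ha, θ, hθ, hq, ⟨b.U, b.w, pmat b⟩, hbv, htb, hrel⟩
    have hnog : ¬ NoGal κ K b (pointU ω N' a θ) := fun hg => hB ⟨ha, θ, hθ, hq, b, hb, htb, hg⟩
    have hdetb := h.det b hb _ htb
    have hpolb := h.pol b hb _ htb
    refine q1_ofT (Y := chartY h hb) (etale_chart h hw hb).branch hlev hψd ?_ (isConn_of_dense hdense) hdet1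
      hperf hdetP hpol hρ₀ hG₀ hT₀ hK htb halgt hdetb hpolb ?_
      (galois_clause_chart h hw hb hMG hfin' hdense htb ht₀ halgt halg)
      (mtContains_of_noRel htb hrel hdetb hpolb) (hgal_of h hb hnog)
    · intro γ hγ
      refine mem_MonoL hbs.dom ?_
      rw [MG_chart]
      exact hMG hγ
    · intro u a a₀ ha ha₀
      obtain ⟨v, hv1, hv2⟩ := exists_sqrt ha.1
      have hv0 : v ≠ 0 := by
        intro h
        rw [h, norm_zero] at hv1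
        exact zero_ne_one hv1
      have h3 := fixed_part hv hne hwb hΓ hfin hdet1 (b := ⟨b.U, b.w, pmat b⟩) (c := ⟨U, w, P⟩)
        hbv Relation.ReflTransGen.refl htb ht₀ (inv_ne_zero hv0)
        (g := a⁻¹) (g₁ := a₀⁻¹) (inv_eq_Em hpolb hdetb hv0 hv1 hv2 ha)
        (inv_eq_Em hpol hdetP hv0 hv1 hv2 ha₀)
      rwa [inv_inv] at h3
  have hfin2 : (RelPointG ω N' S (⟨U, w, P⟩ : Element m (Fin r)) δ D e X ∪
      SmallGalG ω N' S P Y K D e X).Finite := by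
    refine Set.Finite.union ?_ ?_
    · exact (AA.box_card X _ fun a ha => ha.1).1
    · exact (AA.box_card X _ fun a ha => ha.1).1
  have h3 := (Set.ncard_le_ncard hsub hfin2).trans (Set.ncard_union_le _ _)
  exact_mod_cast h3

end Pool.Agent.Helper79.GP
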