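import Pool.Agent.Helper79.HI.LieBase

/-!
# GP-01: the projection onto a nondegenerate subspace

`A = Bᵀ ψ B` is invertible, `C = cof ψ B = A⁻¹ Bᵀ ψ`, `e = prj ψ B = B C`; `C B = 1`, `e e = e`, `eᵀ ψ = ψ e` (`ψᵀ = ψ`, so `Aᵀ = A`).
* `cof_comm`: `x = C g B` and `xᵀ A x = A` (from `g B = B x` and `gᵀ ψ g = ψ`), so `x` is invertible; `ψ g = (gᵀ)⁻¹ ψ`,
  `Bᵀ (gᵀ)⁻¹ = (xᵀ)⁻¹ Bᵀ`, so `C g = A⁻¹ (xᵀ)⁻¹ Bᵀ ψ = x A⁻¹ Bᵀ ψ = x C`. (Or: `xᵀ A (C g) = xᵀ Bᵀ ψ g = Bᵀ gᵀ ψ g = Bᵀ ψ = A C = xᵀ A x C` and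
  cancel `xᵀ A`.)
* `exists_tau`: `(e + g (1 - e)) (e + h (1 - e)) = e + g h (1 - e)` as `g`, `h` commute with `e`.
* `embM_mul`, ...: `(B x C + (1 - e)) (B y C + (1 - e)) = B x y C + (1 - e)` (`C B = 1`, `C (1 - e) = 0`, `(1 - e) B = 0`).
* `det_embM`: `det (B x C + (1 - e)) = det (1 + B ((x - 1) C)) = det (1 + (x - 1) C B) = det x` (`Matrix.det_one_add_mul_comm`).
-/

set_option linter.unusedSectionVars false

namespace Pool.Agent.Helper79.GP

open Matrix

variable {r d : ℕ} {ψ : Matrix (Fin r) (Fin r) ℚ} {B : Matrix (Fin r) (Fin d) ℚ}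

/-- The coordinates of the projection. -/
noncomputable def cof (ψ : Matrix (Fin r) (Fin r) ℚ) (B : Matrix (Fin r) (Fin d) ℚ) :
    Matrix (Fin d) (Fin r) ℚ := (Bᵀ * ψ * B)⁻¹ * Bᵀ * ψ

/-- The projection onto the span of the columns of `B`. -/
noncomputable def prj (ψ : Matrix (Fin r) (Fin r) ℚ) (B : Matrix (Fin r) (Fin d) ℚ) :
    Matrix (Fin r) (Fin r) ℚ := B * cof ψ B

theorem cof_mul (hA : IsUnit (Bᵀ * ψ * B).det) : cof ψ B * B = 1 := by
  unfold cof
  rw [Matrix.mul_assoc, Matrix.mul_assoc, ← Matrix.mul_assoc Bᵀ ψ B]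
  exact Matrix.nonsing_inv_mul _ hA

private theorem mul_cof (hA : IsUnit (Bᵀ * ψ * B).det) : (Bᵀ * ψ * B) * cof ψ B = Bᵀ * ψ := by
  unfold cof
  rw [Matrix.mul_assoc (Bᵀ * ψ * B)⁻¹, ← Matrix.mul_assoc (Bᵀ * ψ * B),
    Matrix.mul_nonsing_inv _ hA, Matrix.one_mul]

theorem prj_adj (hs : ψᵀ = ψ) : (prj ψ B)ᵀ * ψ = ψ * prj ψ B := by
  have h1 : (Bᵀ * ψ * B)ᵀ = Bᵀ * ψ * B := by
    rw [Matrix.transpose_mul, Matrix.transpose_mul, Matrix.transpose_transpose, hs,
      Matrix.mul_assoc]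
  unfold prj cof
  rw [Matrix.transpose_mul, Matrix.transpose_mul, Matrix.transpose_mul,
    Matrix.transpose_transpose, Matrix.transpose_nonsing_inv, h1, hs]
  simp only [Matrix.mul_assoc]

/-- Base change of a rational matrix. -/
def bc {m n : Type} (A : Type) [CommRing A] [Algebra ℚ A] (M : Matrix m n ℚ) : Matrix m n A :=
  M.map (algebraMap ℚ A)

variable {A : Type} [CommRing A] [Algebra ℚ A]

theorem bc_mul {l m n : Type} [Fintype m] (M : Matrix l m ℚ) (N : Matrix m n ℚ) :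
    bc A (M * N) = bc A M * bc A N := by
  unfold bc
  exact Matrix.map_mul

theorem bc_one {m : Type} [DecidableEq m] : bc A (1 : Matrix m m ℚ) = 1 := by
  unfold bc
  exact Matrix.map_one _ (map_zero _) (map_one _)

theorem bc_cof_mul (hA : IsUnit (Bᵀ * ψ * B).det) : bc A (cof ψ B) * bc A B = 1 := by
  rw [← bc_mul, cof_mul hA, bc_one]

private theorem bc_prj : bc A (prj ψ B) = bc A B * bc A (cof ψ B) := by
  unfold prj
  rw [bc_mul]

private theorem bc_prj_mul (hA : IsUnit (Bᵀ * ψ * B).det) :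
    bc A (prj ψ B) * bc A B = bc A B := by
  rw [bc_prj, Matrix.mul_assoc, bc_cof_mul hA, Matrix.mul_one]

private theorem bc_cof_prj (hA : IsUnit (Bᵀ * ψ * B).det) :
    bc A (cof ψ B) * bc A (prj ψ B) = bc A (cof ψ B) := by
  rw [bc_prj, ← Matrix.mul_assoc, bc_cof_mul hA, Matrix.one_mul]

theorem bc_prj_idem (hA : IsUnit (Bᵀ * ψ * B).det) :
    bc A (prj ψ B) * bc A (prj ψ B) = bc A (prj ψ B) := by
  rw [bc_prj (A := A), ← Matrix.mul_assoc, Matrix.mul_assoc (bc A B), bc_cof_mul hA,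
    Matrix.mul_one]

theorem bc_prj_adj (hs : ψᵀ = ψ) : (bc A (prj ψ B))ᵀ * bc A ψ = bc A ψ * bc A (prj ψ B) := by
  have h1 : (bc A (prj ψ B))ᵀ = bc A (prj ψ B)ᵀ := rfl
  rw [h1, ← bc_mul, ← bc_mul, prj_adj hs]

section field

variable {K : Type} [Field K] [Algebra ℚ K]

theorem cof_comm (hs : ψᵀ = ψ) (hA : IsUnit (Bᵀ * ψ * B).det) {g : Matrix (Fin r) (Fin r) K}
    {x : Matrix (Fin d) (Fin d) K} (hg : gᵀ * bc K ψ * g = bc K ψ)
    (hB : g * bc K B = bc K B * x) : bc K (cof ψ B) * g = x * bc K (cof ψ B) := by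
  set C : Matrix (Fin d) (Fin r) K := bc K (cof ψ B) with hC
  set Bk : Matrix (Fin r) (Fin d) K := bc K B with hBk
  set φ : Matrix (Fin r) (Fin r) K := bc K ψ with hφ
  set Ak : Matrix (Fin d) (Fin d) K := bc K (Bᵀ * ψ * B) with hAk
  set Ai : Matrix (Fin d) (Fin d) K := bc K ((Bᵀ * ψ * B)⁻¹) with hAi
  have hAA : Ak * Ai = 1 := by
    rw [hAk, hAi, ← bc_mul, Matrix.mul_nonsing_inv _ hA, bc_one]
  have hBt : bc K Bᵀ = Bkᵀ := rfl
  have hAe : Ak = Bkᵀ * φ * Bk := by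
    rw [hAk, bc_mul, bc_mul, hBt]
  have hAC : Ak * C = Bkᵀ * φ := by
    rw [hAk, hC, ← bc_mul, mul_cof hA, bc_mul, hBt]
  have hBt2 : Bkᵀ * gᵀ = xᵀ * Bkᵀ := by
    rw [← Matrix.transpose_mul, ← Matrix.transpose_mul, hB]
  have h1 : xᵀ * Ak * x = Ak := by
    calc xᵀ * Ak * x = (xᵀ * Bkᵀ) * φ * (Bk * x) := by
          rw [hAe]
          simp only [Matrix.mul_assoc]
      _ = (Bkᵀ * gᵀ) * φ * (g * Bk) := by rw [hBt2, hB]
      _ = Bkᵀ * (gᵀ * φ * g) * Bk := by simp only [Matrix.mul_assoc]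
      _ = Ak := by rw [hg, hAe]
  have h2 : (xᵀ * Ak) * (x * Ai) = 1 := by
    rw [← Matrix.mul_assoc, h1, hAA]
  have h3 : (x * Ai) * (xᵀ * Ak) = 1 := mul_eq_one_comm.1 h2
  have h4 : (xᵀ * Ak) * (C * g) = (xᵀ * Ak) * (x * C) := by
    calc (xᵀ * Ak) * (C * g) = xᵀ * (Ak * C) * g := by simp only [Matrix.mul_assoc]
      _ = (xᵀ * Bkᵀ) * φ * g := by
          rw [hAC]
          simp only [Matrix.mul_assoc]
      _ = Bkᵀ * (gᵀ * φ * g) := by
          rw [← hBt2]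
          simp only [Matrix.mul_assoc]
      _ = (xᵀ * Ak * x) * C := by rw [hg, h1, hAC]
      _ = (xᵀ * Ak) * (x * C) := by simp only [Matrix.mul_assoc]
  calc C * g = ((x * Ai) * (xᵀ * Ak)) * (C * g) := by rw [h3, Matrix.one_mul]
    _ = (x * Ai) * ((xᵀ * Ak) * (C * g)) := Matrix.mul_assoc _ _ _
    _ = (x * Ai) * ((xᵀ * Ak) * (x * C)) := by rw [h4]
    _ = ((x * Ai) * (xᵀ * Ak)) * (x * C) := (Matrix.mul_assoc _ _ _).symm
    _ = x * C := by rw [h3, Matrix.one_mul]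

theorem prj_comm (hs : ψᵀ = ψ) (hA : IsUnit (Bᵀ * ψ * B).det) {g : Matrix (Fin r) (Fin r) K}
    {x : Matrix (Fin d) (Fin d) K} (hg : gᵀ * bc K ψ * g = bc K ψ)
    (hB : g * bc K B = bc K B * x) : g * bc K (prj ψ B) = bc K (prj ψ B) * g := by
  rw [bc_prj, ← Matrix.mul_assoc, hB, Matrix.mul_assoc, ← cof_comm hs hA hg hB, Matrix.mul_assoc]

end field

private theorem tau_mul {g h e : Matrix (Fin r) (Fin r) A} (he : e * e = e) (hh : h * e = e * h) :
    (e + g * (1 - e)) * (e + h * (1 - e)) = e + g * h * (1 - e) := by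
  have h1 : e * (1 - e) = 0 := by rw [Matrix.mul_sub, Matrix.mul_one, he, sub_self]
  have h2 : (1 - e) * e = 0 := by rw [Matrix.sub_mul, Matrix.one_mul, he, sub_self]
  have h3 : (1 - e) * (1 - e) = 1 - e := by
    rw [Matrix.mul_sub, Matrix.mul_one, h2, sub_zero]
  have h4 : (1 - e) * h = h * (1 - e) := by
    rw [Matrix.sub_mul, Matrix.mul_sub, Matrix.one_mul, Matrix.mul_one, hh]
  calc (e + g * (1 - e)) * (e + h * (1 - e))
      = e * e + (e * h) * (1 - e) + g * ((1 - e) * e) + g * ((1 - e) * h) * (1 - e) := by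
        noncomm_ring
    _ = e + h * (e * (1 - e)) + g * 0 + g * (h * (1 - e)) * (1 - e) := by
        rw [he, h2, h4, ← hh, Matrix.mul_assoc]
    _ = e + g * h * ((1 - e) * (1 - e)) := by
        rw [h1]
        noncomm_ring
    _ = e + g * h * (1 - e) := by rw [h3]

private theorem tau_one {e : Matrix (Fin r) (Fin r) A} :
    e + (1 : Matrix (Fin r) (Fin r) A) * (1 - e) = 1 := by
  rw [Matrix.one_mul, add_sub_cancel]

/-- The part of `g` on the complement, extended by the identity. -/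
theorem exists_tau {G : Type} [Group G] (f : G →* GL (Fin r) A) {e : Matrix (Fin r) (Fin r) A}
    (he : e * e = e) (hc : ∀ σ, (f σ : Matrix (Fin r) (Fin r) A) * e = e * f σ) :
    ∃ f' : G →* GL (Fin r) A, ∀ σ, (f' σ : Matrix (Fin r) (Fin r) A) = e + f σ * (1 - e) := by
  have hmul : ∀ σ τ : G, (e + (f σ : Matrix (Fin r) (Fin r) A) * (1 - e)) *
      (e + (f τ : Matrix (Fin r) (Fin r) A) * (1 - e)) =
        e + (f (σ * τ) : Matrix (Fin r) (Fin r) A) * (1 - e) := by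
    intro σ τ
    rw [tau_mul he (hc τ), map_mul, Units.val_mul]
  have hone : e + (f 1 : Matrix (Fin r) (Fin r) A) * (1 - e) = 1 := by
    rw [map_one, Units.val_one, tau_one]
  refine ⟨{
    toFun := fun σ => ⟨e + (f σ : Matrix (Fin r) (Fin r) A) * (1 - e),
      e + (f σ⁻¹ : Matrix (Fin r) (Fin r) A) * (1 - e),
      by rw [hmul, mul_inv_cancel, hone], by rw [hmul, inv_mul_cancel, hone]⟩
    map_one' := Units.ext hone
    map_mul' := fun σ τ => Units.ext (hmul σ τ).symm }, fun σ => rfl⟩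

theorem tau_isom {g e φ : Matrix (Fin r) (Fin r) A} (he : e * e = e) (hc : g * e = e * g)
    (hadj : eᵀ * φ = φ * e) (hg : gᵀ * φ * g = φ) :
    (e + g * (1 - e))ᵀ * φ * (e + g * (1 - e)) = φ := by
  have h1 : e * (1 - e) = 0 := by rw [Matrix.mul_sub, Matrix.mul_one, he, sub_self]
  have h2 : (1 - e) * e = 0 := by rw [Matrix.sub_mul, Matrix.one_mul, he, sub_self]
  have h3 : (1 - e) * (1 - e) = 1 - e := by
    rw [Matrix.mul_sub, Matrix.mul_one, h2, sub_zero]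
  have h4 : (1 - e)ᵀ * eᵀ = 0 := by
    rw [← Matrix.transpose_mul, h1, Matrix.transpose_zero]
  have h5 : (1 - e)ᵀ * φ = φ * (1 - e) := by
    rw [Matrix.transpose_sub, Matrix.transpose_one, Matrix.sub_mul, Matrix.mul_sub,
      Matrix.one_mul, Matrix.mul_one, hadj]
  have h6 : gᵀ * eᵀ = eᵀ * gᵀ := by
    rw [← Matrix.transpose_mul, ← Matrix.transpose_mul, hc]
  have t1 : eᵀ * φ * e = φ * e := by rw [hadj, Matrix.mul_assoc, he]
  have t2 : eᵀ * φ * (g * (1 - e)) = 0 := by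
    rw [hadj, Matrix.mul_assoc, ← Matrix.mul_assoc e, ← hc, Matrix.mul_assoc g, h1,
      Matrix.mul_zero, Matrix.mul_zero]
  have t3 : (1 - e)ᵀ * gᵀ * φ * e = 0 := by
    rw [Matrix.mul_assoc _ φ e, ← hadj, Matrix.mul_assoc, ← Matrix.mul_assoc gᵀ, h6,
      ← Matrix.mul_assoc, ← Matrix.mul_assoc, h4, Matrix.zero_mul, Matrix.zero_mul]
  have t4 : (1 - e)ᵀ * gᵀ * φ * (g * (1 - e)) = φ * (1 - e) := by
    calc (1 - e)ᵀ * gᵀ * φ * (g * (1 - e)) = (1 - e)ᵀ * (gᵀ * φ * g) * (1 - e) := by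
          simp only [Matrix.mul_assoc]
      _ = φ * ((1 - e) * (1 - e)) := by rw [hg, h5, Matrix.mul_assoc]
      _ = φ * (1 - e) := by rw [h3]
  rw [Matrix.transpose_add, Matrix.transpose_mul, Matrix.add_mul, Matrix.mul_add, Matrix.add_mul,
    Matrix.add_mul, t1]
  rw [t2, t3, t4, add_zero, zero_add, ← Matrix.mul_add, add_sub_cancel, Matrix.mul_one]

/-- The endomorphism `x` of the subspace extended by the identity. -/
noncomputable def embM (ψ : Matrix (Fin r) (Fin r) ℚ) (B : Matrix (Fin r) (Fin d) ℚ) (A : Type) [CommRing A]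
    [Algebra ℚ A] (x : Matrix (Fin d) (Fin d) A) : Matrix (Fin r) (Fin r) A :=
  bc A B * x * bc A (cof ψ B) + (1 - bc A (prj ψ B))

theorem embM_mul (hA : IsUnit (Bᵀ * ψ * B).det) (x y : Matrix (Fin d) (Fin d) A) :
    embM ψ B A (x * y) = embM ψ B A x * embM ψ B A y := by
  unfold embM
  have hC := bc_cof_mul (A := A) hA
  have h1 : bc A (cof ψ B) * (1 - bc A (prj ψ B)) = 0 := by
    rw [Matrix.mul_sub, Matrix.mul_one, bc_cof_prj hA, sub_self]
  have h2 : (1 - bc A (prj ψ B)) * bc A B = 0 := by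
    rw [Matrix.sub_mul, Matrix.one_mul, bc_prj_mul hA, sub_self]
  have h3 : (1 - bc A (prj ψ B)) * (1 - bc A (prj ψ B)) = 1 - bc A (prj ψ B) := by
    rw [Matrix.mul_sub, Matrix.mul_one, Matrix.sub_mul, Matrix.one_mul, bc_prj_idem hA, sub_self,
      sub_zero]
  have t1 : (bc A B * x * bc A (cof ψ B)) * (bc A B * y * bc A (cof ψ B)) =
      bc A B * (x * y) * bc A (cof ψ B) := by
    calc (bc A B * x * bc A (cof ψ B)) * (bc A B * y * bc A (cof ψ B))
        = bc A B * x * (bc A (cof ψ B) * bc A B) * y * bc A (cof ψ B) := by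
          simp only [Matrix.mul_assoc]
      _ = bc A B * (x * y) * bc A (cof ψ B) := by
          rw [hC, Matrix.mul_one]
          simp only [Matrix.mul_assoc]
  have t2 : (bc A B * x * bc A (cof ψ B)) * (1 - bc A (prj ψ B)) = 0 := by
    rw [Matrix.mul_assoc, h1, Matrix.mul_zero]
  have t3 : (1 - bc A (prj ψ B)) * (bc A B * y * bc A (cof ψ B)) = 0 := by
    rw [← Matrix.mul_assoc, ← Matrix.mul_assoc, h2, Matrix.zero_mul, Matrix.zero_mul]
  rw [Matrix.add_mul, Matrix.mul_add, Matrix.mul_add, t1, t2, t3, h3, add_zero, zero_add]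

theorem embM_one : embM ψ B A 1 = 1 := by
  unfold embM
  rw [Matrix.mul_one, ← bc_prj, add_sub_cancel]

theorem det_embM (hA : IsUnit (Bᵀ * ψ * B).det) (x : Matrix (Fin d) (Fin d) A) :
    (embM ψ B A x).det = x.det := by
  have h1 : embM ψ B A x = 1 + bc A B * ((x - 1) * bc A (cof ψ B)) := by
    unfold embM
    rw [bc_prj, Matrix.sub_mul, Matrix.mul_sub, Matrix.one_mul, Matrix.mul_assoc]
    abel
  rw [h1, Matrix.det_one_add_mul_comm, Matrix.mul_assoc, bc_cof_mul hA, Matrix.mul_one,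
    add_sub_cancel]

/-- The extension by the identity. -/
noncomputable def emb (hA : IsUnit (Bᵀ * ψ * B).det) (A : Type) [CommRing A] [Algebra ℚ A] :
    GL (Fin d) A →* GL (Fin r) A where
  toFun x := ⟨embM ψ B A x, embM ψ B A ((x⁻¹ : GL (Fin d) A) : Matrix (Fin d) (Fin d) A),
    by rw [← embM_mul hA, x.mul_inv, embM_one], by rw [← embM_mul hA, x.inv_mul, embM_one]⟩
  map_one' := by
    ext1
    exact embM_one
  map_mul' x y := by
    ext1
    exact embM_mul hA _ _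

theorem emb_coe (hA : IsUnit (Bᵀ * ψ * B).det) (x : GL (Fin d) A) :
    (emb hA A x : Matrix (Fin r) (Fin r) A) = embM ψ B A x := rfl

/-- The decomposition of `g`. -/
theorem emb_mul_tau (hA : IsUnit (Bᵀ * ψ * B).det) {g : Matrix (Fin r) (Fin r) A}
    {x : Matrix (Fin d) (Fin d) A} (hB : g * bc A B = bc A B * x)
    (hc : g * bc A (prj ψ B) = bc A (prj ψ B) * g) :
    g = embM ψ B A x * (bc A (prj ψ B) + g * (1 - bc A (prj ψ B))) := by
  have he := bc_prj_idem (A := A) hA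
  have h0 : embM ψ B A x = g * bc A (prj ψ B) + (1 - bc A (prj ψ B)) := by
    unfold embM
    rw [← hB, Matrix.mul_assoc, ← bc_prj]
  rw [h0]
  set e := bc A (prj ψ B) with hedef
  have h1 : e * (1 - e) = 0 := by rw [Matrix.mul_sub, Matrix.mul_one, he, sub_self]
  have h2 : (1 - e) * e = 0 := by rw [Matrix.sub_mul, Matrix.one_mul, he, sub_self]
  have h3 : (1 - e) * (1 - e) = 1 - e := by
    rw [Matrix.mul_sub, Matrix.mul_one, h2, sub_zero]
  have h4 : (1 - e) * g = g * (1 - e) := by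
    rw [Matrix.sub_mul, Matrix.mul_sub, Matrix.one_mul, Matrix.mul_one, hc]
  have t1 : g * e * e = g * e := by rw [Matrix.mul_assoc, he]
  have t2 : g * e * (g * (1 - e)) = 0 := by
    calc g * e * (g * (1 - e)) = g * (e * g) * (1 - e) := by simp only [Matrix.mul_assoc]
      _ = g * g * (e * (1 - e)) := by
          rw [← hc]
          simp only [Matrix.mul_assoc]
      _ = 0 := by rw [h1, Matrix.mul_zero]
  have t4 : (1 - e) * (g * (1 - e)) = g * (1 - e) := by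
    rw [← Matrix.mul_assoc, h4, Matrix.mul_assoc, h3]
  rw [Matrix.add_mul, Matrix.mul_add, Matrix.mul_add, t1, t2, h2, t4, add_zero, zero_add,
    ← Matrix.mul_add, add_sub_cancel, Matrix.mul_one]

/-- Elements which fix the subspace and its complement commute with the extensions. -/
theorem emb_comm (x : Matrix (Fin d) (Fin d) A) {z : Matrix (Fin r) (Fin r) A}
    (h1 : z * bc A B = bc A B) (h2 : bc A (cof ψ B) * z = bc A (cof ψ B)) :
    embM ψ B A x * z = z * embM ψ B A x := by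
  unfold embM
  rw [bc_prj, Matrix.add_mul, Matrix.mul_add, Matrix.sub_mul, Matrix.mul_sub, Matrix.one_mul,
    Matrix.mul_one, Matrix.mul_assoc (bc A B * x), h2, Matrix.mul_assoc (bc A B) _ z, h2,
    ← Matrix.mul_assoc z (bc A B * x), ← Matrix.mul_assoc z (bc A B) x, h1,
    ← Matrix.mul_assoc z (bc A B), h1]

end Pool.Agent.Helper79.GP
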