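import Pool.Agent.Helper79.GP.Proj
import Pool.Agent.Helper79.HI.ClosureL

/-!
# GP-07: substitution of `emb x * γ` in a polynomial on `GL r`

`f' = MvPolynomial.aeval s f` with `s : Option (Fin r × Fin r) → GLPoly d F`, the image under `MvPolynomial.map (algebraMap ℚ F)` of `s₀ : _ → GLPoly d ℚ`:
`s₀ (some (i, j))` = the entry `(i, j)` of `(B X C + (1 - e)) γ`, `X` the matrix of the variables `X (some (k, l))`, `s₀ none = C (det γ)⁻¹ * X none` (`det_embM`).
Values as in `Pool/Agent/Helper79/HI/Trans.lean` (`exists_left`, `evGL_sub`: copy the private lemmas).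
`pc φ (aeval s f) = aeval s₀ (pc φ f)`: both sides are additive in `f`, and for `f = monomial m a`: `aeval s f = C a * map (∏ s₀^m)`; coefficients (`coeff_pc`, `coeff_C_mul`, `coeff_map`, `φ` is `ℚ`-linear), `sat_pc` in
`Pool/Agent/Helper79/HI/Saturate.lean`; induction `MvPolynomial.induction_on'`; the private `pc_add`, `pc_monomial` of `Pool/Agent/Helper79/HI/Pc.lean` are immediate from `coeff_pc`.
-/

set_option linter.unusedSectionVars false

namespace Pool.Agent.Helper79.GP

open Matrix Pool.Agent.Helper88.MT Pool.Agent.Helper79.HI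

variable {r d : ℕ} {ψ : Matrix (Fin r) (Fin r) ℚ} {B : Matrix (Fin r) (Fin d) ℚ}

private theorem evGL_X' {d : ℕ} {R A : Type} [CommRing R] [CommRing A] [Algebra R A] (x : GL (Fin d) A)
    (o : Option (Fin d × Fin d)) : evGL (R := R) x (MvPolynomial.X o) =
      o.elim (((Matrix.GeneralLinearGroup.det x)⁻¹ : Aˣ) : A) (fun p ↦ x p.1 p.2) :=
  MvPolynomial.aeval_X _ o

private theorem evGL_C' {d : ℕ} {R A : Type} [CommRing R] [CommRing A] [Algebra R A] (x : GL (Fin d) A) (c : R) :
    evGL x (MvPolynomial.C c) = algebraMap R A c :=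
  MvPolynomial.aeval_C _ c

private theorem evGL_sub' {r d : ℕ} {R A : Type} [CommRing R] [CommRing A] [Algebra R A]
    (x : GL (Fin d) A) (z : GL (Fin r) A)
    (s : Option (Fin r × Fin r) → GLPoly d R) (f : GLPoly r R)
    (h0 : evGL x (s none) = (((Matrix.GeneralLinearGroup.det z)⁻¹ : Aˣ) : A))
    (h1 : ∀ i j, evGL x (s (some (i, j))) = z i j) :
    evGL x (MvPolynomial.aeval s f) = evGL z f := by
  rw [MvPolynomial.comp_aeval_apply]
  unfold evGL at h0 h1 ⊢
  congr 2
  funext o
  cases o with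
  | none => exact h0
  | some p => exact h1 p.1 p.2

private theorem det_map' {A B : Type} [CommRing A] [CommRing B] (θ : A →+* B)
    (x : GL (Fin r) A) :
    Matrix.GeneralLinearGroup.det (Matrix.GeneralLinearGroup.map θ x) =
      Units.map (θ : A →* B) (Matrix.GeneralLinearGroup.det x) := by
  ext
  exact (θ.map_det (x : Matrix (Fin r) (Fin r) A)).symm

private theorem bc_map' {m n : Type} {A A' : Type} [CommRing A] [Algebra ℚ A] [CommRing A']
    [Algebra ℚ A'] (θ : A →ₐ[ℚ] A') (M : Matrix m n ℚ) : (bc A M).map θ = bc A' M := by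
  ext i j
  exact θ.commutes (M i j)

private theorem embM_map' {A A' : Type} [CommRing A] [Algebra ℚ A] [CommRing A']
    [Algebra ℚ A'] (θ : A →ₐ[ℚ] A') (x : Matrix (Fin d) (Fin d) A) :
    (embM ψ B A x).map θ = embM ψ B A' (x.map θ) := by
  unfold embM
  rw [Matrix.map_add _ (map_add θ), Matrix.map_mul, Matrix.map_mul, Matrix.map_sub _ (map_sub θ),
    Matrix.map_one _ (map_zero θ) (map_one θ), bc_map', bc_map', bc_map']

/-- The matrix of the variables. -/
private noncomputable def XM (d : ℕ) : Matrix (Fin d) (Fin d) (GLPoly d ℚ) :=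
  Matrix.of fun k l => MvPolynomial.X (some (k, l))

/-- The substitution. -/
private noncomputable def sb (ψ : Matrix (Fin r) (Fin r) ℚ) (B : Matrix (Fin r) (Fin d) ℚ)
    (γ : GL (Fin r) ℚ) : Option (Fin r × Fin r) → GLPoly d ℚ := fun o =>
  o.elim (MvPolynomial.C (((Matrix.GeneralLinearGroup.det γ)⁻¹ : ℚˣ) : ℚ) * MvPolynomial.X none)
    (fun p => (embM ψ B (GLPoly d ℚ) (XM d) * bc (GLPoly d ℚ) (γ : Matrix (Fin r) (Fin r) ℚ)) p.1 p.2)

private theorem sb_some (hA : IsUnit (Bᵀ * ψ * B).det) (γ : GL (Fin r) ℚ) {A : Type} [CommRing A]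
    [Algebra ℚ A] (x : GL (Fin d) A) (i j : Fin r) :
    evGL x (sb ψ B γ (some (i, j))) =
      (emb hA A x * Matrix.GeneralLinearGroup.map (algebraMap ℚ A) γ) i j := by
  have hX : (XM d).map (evGL (R := ℚ) x) = (x : Matrix (Fin d) (Fin d) A) := by
    ext k l
    exact evGL_X' x (some (k, l))
  have h1 : (embM ψ B (GLPoly d ℚ) (XM d) * bc (GLPoly d ℚ) (γ : Matrix (Fin r) (Fin r) ℚ)).map
      (evGL (R := ℚ) x) = embM ψ B A (x : Matrix (Fin d) (Fin d) A) *
        bc A (γ : Matrix (Fin r) (Fin r) ℚ) := by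
    rw [Matrix.map_mul, embM_map', bc_map', hX]
  have h2 := congrFun (congrFun h1 i) j
  rw [Matrix.GeneralLinearGroup.coe_mul, emb_coe]
  exact h2

private theorem sb_none (hA : IsUnit (Bᵀ * ψ * B).det) (γ : GL (Fin r) ℚ) {A : Type} [CommRing A]
    [Algebra ℚ A] (x : GL (Fin d) A) :
    evGL x (sb ψ B γ none) = (((Matrix.GeneralLinearGroup.det
      (emb hA A x * Matrix.GeneralLinearGroup.map (algebraMap ℚ A) γ))⁻¹ : Aˣ) : A) := by
  have hd : Matrix.GeneralLinearGroup.det (emb hA A x) = Matrix.GeneralLinearGroup.det x := by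
    ext
    exact det_embM hA _
  change evGL x (MvPolynomial.C (((Matrix.GeneralLinearGroup.det γ)⁻¹ : ℚˣ) : ℚ) *
    MvPolynomial.X none) = _
  rw [map_mul, evGL_C', evGL_X', Option.elim_none, map_mul, _root_.mul_inv_rev, Units.val_mul, hd, det_map',
    ← map_inv]
  rfl

private theorem pc_aeval {F : Type} [Field F] [Algebra ℚ F]
    (s₀ : Option (Fin r × Fin r) → GLPoly d ℚ) (φ : F →ₗ[ℚ] ℚ) (f : GLPoly r F) :
    pc φ (MvPolynomial.aeval (fun o => MvPolynomial.map (algebraMap ℚ F) (s₀ o)) f) =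
      MvPolynomial.aeval s₀ (pc φ f) := by
  have hadd : ∀ {σ : Type} (f g : MvPolynomial σ F), pc φ (f + g) = pc φ f + pc φ g := by
    intro σ f g
    refine MvPolynomial.ext _ _ fun j => ?_
    rw [coeff_pc, MvPolynomial.coeff_add, map_add, MvPolynomial.coeff_add, coeff_pc, coeff_pc]
  have hmon : ∀ {σ : Type} (m : σ →₀ ℕ) (a : F),
      pc φ (MvPolynomial.monomial m a) = MvPolynomial.monomial m (φ a) := by
    classical
    intro σ m a
    refine MvPolynomial.ext _ _ fun j => ?_
    rw [coeff_pc, MvPolynomial.coeff_monomial, MvPolynomial.coeff_monomial]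
    split_ifs
    · rfl
    · exact map_zero φ
  have hC : ∀ {σ : Type} (a : F) (q : MvPolynomial σ ℚ),
      pc φ (MvPolynomial.C a * MvPolynomial.map (algebraMap ℚ F) q) =
        MvPolynomial.C (φ a) * q := by
    intro σ a q
    refine MvPolynomial.ext _ _ fun j => ?_
    rw [coeff_pc, MvPolynomial.coeff_C_mul, MvPolynomial.coeff_map, MvPolynomial.coeff_C_mul,
      mul_comm, ← Algebra.smul_def, map_smul, smul_eq_mul, mul_comm]
  induction f using MvPolynomial.induction_on' with
  | monomial u a =>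
    rw [hmon, MvPolynomial.aeval_monomial, MvPolynomial.aeval_monomial]
    have h : (u.prod fun i e => (MvPolynomial.map (algebraMap ℚ F) (s₀ i)) ^ e) =
        MvPolynomial.map (algebraMap ℚ F) (u.prod fun i e => s₀ i ^ e) := by
      rw [map_finsuppProd]
      simp only [map_pow]
    rw [h]
    exact hC a _
  | add p q hp hq => rw [hadd, map_add, map_add, hadd, hp, hq]

theorem exists_sub {F : Type} [Field F] [Algebra ℚ F] (hA : IsUnit (Bᵀ * ψ * B).det) (γ : GL (Fin r) ℚ)
    (f : GLPoly r F) : ∃ f' : GLPoly d F,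
      (∀ {A : Type} [CommRing A] [Algebra F A] [Algebra ℚ A] [IsScalarTower ℚ F A] (x : GL (Fin d) A),
        evGL x f' = evGL (emb hA A x * Matrix.GeneralLinearGroup.map (algebraMap ℚ A) γ) f) ∧
      ∀ (φ : F →ₗ[ℚ] ℚ) {A : Type} [CommRing A] [Algebra ℚ A] (x : GL (Fin d) A),
        evGL x (pc φ f') = evGL (emb hA A x * Matrix.GeneralLinearGroup.map (algebraMap ℚ A) γ) (pc φ f) := by
  refine ⟨MvPolynomial.aeval (fun o => MvPolynomial.map (algebraMap ℚ F) (sb ψ B γ o)) f, ?_, ?_⟩
  · intro A _ _ _ _ x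
    have hmap : ∀ q : GLPoly d ℚ, evGL x (MvPolynomial.map (algebraMap ℚ F) q) = evGL x q :=
      fun q => MvPolynomial.aeval_map_algebraMap (R := ℚ) F (B := A) _ q
    refine evGL_sub' x _ _ f ?_ fun i j => ?_
    · rw [hmap]
      exact sb_none hA γ x
    · rw [hmap]
      exact sb_some hA γ x i j
  · intro φ A _ _ x
    rw [pc_aeval]
    refine evGL_sub' x _ _ _ ?_ fun i j => ?_
    · exact sb_none hA γ x
    · exact sb_some hA γ x i j

end Pool.Agent.Helper79.GP
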